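import Pool.Agent.Work.MP_84019e_co.Str.SDefs
import Pool.Agent.Work.MP_84019e_co.Cube.OneCube
import Pool.Agent.Work.MP_84019e_co.Cube.UpMain

-- merged part: Pool.Agent.Work.MP_84019e_co.Str.Defs
section
set_option autoImplicit false

namespace Pool.Agent.Work.MP_84019e_co.Str

open Finset Pool.Agent.Work.MP_84019e_co.Cube

/-- Permutations that fix every point outside `Q`. -/
abbrev Fx {n : ℕ} (Q : B n) : Type := {σ : Pm n // ∀ i, i ∉ Q → σ i = i}

instance Fx.ne {n : ℕ} (Q : B n) : Nonempty (Fx Q) := ⟨⟨1, fun _ _ => rfl⟩⟩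

/-- The mean over all rearrangements of the positions in `Q`. -/
noncomputable def Av {n : ℕ} (Q : B n) (X : Pm n → ℝ) (π : Pm n) : ℝ :=
  av fun σ : Fx Q => X (π * σ.1)

/-- The positions in `[a, b)`. -/
def seg (n a b : ℕ) : B n := univ.filter fun i => a ≤ i.val ∧ i.val < b

def Mid {n : ℕ} (F : Finset (B n)) (w : ℕ) : Prop := ∀ A ∈ F, w ≤ A.card ∧ A.card + w ≤ n

/-- A source family. -/
structure Sr (P : Type) [PartialOrder P] [Fintype P] (n w : ℕ) (F : Finset (B n)) : Prop where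
  free : StrongFree P F
  mid : Mid F w
  five : n ≤ 5 * w
  two : 2 * w ≤ n
  big : 20 * Fintype.card P + 10 ≤ n

def Bad {n : ℕ} (r : ℕ) (F : Finset (B n)) (X Y : B n) (W : Fin r → Fin n) : Prop :=
  Function.Injective W ∧ (∀ i, W i ∉ Y) ∧
    ∃ a : Finset (Fin r), ∀ y ∈ F, ¬ (X ∪ a.image W ⊆ y ∧ y ⊆ Y ∪ a.image W)

noncomputable def th (r : ℕ) : ℝ := 1 / (2 * r * 20 ^ r)

/-- A robust interval. -/
def Rob {n : ℕ} (r w : ℕ) (F : Finset (B n)) (X Y : B n) : Prop :=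
  X ⊆ Y ∧ w ≤ X.card ∧ Y.card + w ≤ n ∧
    (av fun W : Fin r → Fin n => ind (Bad r F X Y W)) ≤ th r

/-- Sets above a chain of `j` robust intervals. -/
def UU {n : ℕ} (r w : ℕ) (F : Finset (B n)) : ℕ → B n → Prop
  | 0, _ => True
  | j + 1, x => ∃ X Y, Rob r w F X Y ∧ UU r w F j X ∧ Y ⊆ x

def VV {n : ℕ} (r w : ℕ) (F : Finset (B n)) (j : ℕ) (x : B n) : Prop :=
  j < r ∧ (UU r w F (j + 1) x ∨ n < x.card + w)

/-- A nested system of `r` up-sets. -/
structure Sys {n : ℕ} (r w : ℕ) (V : ℕ → B n → Prop) : Prop where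
  bulk : ∀ j < r, Bulk (V j) w
  nest : ∀ j x, V (j + 1) x → V j x
  top : ∀ j x, r ≤ j → ¬ V j x

def Mk {n : ℕ} (r : ℕ) (V : ℕ → B n → Prop) (s : ℕ) (π : Pm n) (k : ℕ) : Prop :=
  ∃ j < r, ¬ V j (ch π (k - s)) ∧ V j (ch π (k + s))

noncomputable def lamM {n : ℕ} (r : ℕ) (F : Finset (B n)) (V : ℕ → B n → Prop) (s : ℕ) : ℝ :=
  ∑ k ∈ range (n + 1), av fun π : Pm n => ind (ch π k ∈ F ∧ Mk r V s π k)

def Ev {n : ℕ} (F : Finset (B n)) (s : ℕ) (π : Pm n) (k : ℕ) : Prop :=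
  ∃ y ∈ F, ch π (k - s) ⊆ y ∧ y ⊆ ch π (k + s)

noncomputable def MM {n : ℕ} (F : Finset (B n)) (s : ℕ) : ℝ :=
  ∑ k ∈ range (n + 1), av fun π : Pm n => ind (Ev F s π k)

noncomputable def NN {n : ℕ} (r w : ℕ) (F : Finset (B n)) (s s' : ℕ) : ℝ :=
  ∑ k ∈ range (n + 1), av fun π : Pm n =>
    ind (Ev F s π k ∧ ¬ Rob r w F (ch π (k - s')) (ch π (k + s')))

noncomputable def zs {n : ℕ} (r : ℕ) (F : Finset (B n)) (V : ℕ → B n → Prop) (s a : ℕ) : ℝ :=
  ∑ j ∈ range r, ∑ k ∈ range (n + 1), av fun π : Pm n =>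
    ind (a < k ∧ ch π k ∈ F ∧ Mk r V s π k ∧ V j (ch π (k - a)) ∧ ¬ V j (ch π (k - a - 1)))

/-- `H` shatters the tuple `W`. -/
def Sh {n r : ℕ} (H : Finset (B n)) (W : Fin r → Fin n) : Prop :=
  ∀ a : Finset (Fin r), ∃ y ∈ H, ∀ i, W i ∈ y ↔ i ∈ a

/-- The parameters of a block. -/
structure Pr where
  r : ℕ
  d : ℕ
  l : ℕ
  c : ℕ
  s : ℕ
  T : ℕ
  T2 : ℕ
  M : ℕ

def Pr.lo (p : Pr) : ℕ := p.c ^ 2 + p.d

def Pr.hi (p : Pr) : ℕ := p.l - p.c ^ 2

structure Pr.Ok (p : Pr) (n w : ℕ) : Prop where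
  c1 : 1 ≤ p.c
  d1 : 1 ≤ p.d
  M1 : 1 ≤ p.M
  s1 : 1 ≤ p.s
  T2M : p.T2 ≤ p.M
  XM : p.T + p.s ≤ p.M
  Mc : p.M ≤ p.c ^ 2
  zone : p.lo + p.M ≤ p.hi
  lw : p.l + p.d ≤ w
  wn : 2 * w ≤ n

/-- A copy of `a` in the last `d` positions. -/
def dp (n : ℕ) {d : ℕ} (a : B d) : B n := univ.filter fun i => ∃ z ∈ a, i.val = n - d + z.val

/-- The member with `k0 + t` points of the chain over the pattern `a`. -/
def cs {n d : ℕ} (π : Pm n) (k0 : ℕ) (a : B d) (t : ℕ) : B n :=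
  img π (init n (k0 + (t - a.card)) ∪ dp n a)

open Classical in
/-- The number of up-sets that hold the base of the block. -/
noncomputable def jj {n : ℕ} (r : ℕ) (V : ℕ → B n → Prop) (π : Pm n) (k0 : ℕ) : ℕ :=
  ((range r).filter fun j => V j (ch π k0)).card

open Classical in
/-- The clamped crossing level. -/
noncomputable def kp {n : ℕ} (p : Pr) (U : B n → Prop) (π : Pm n) (k0 : ℕ) (a : B p.d) : ℕ :=
  p.lo + ((Ico p.lo p.hi).filter fun t => ¬ U (cs π k0 a t)).card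

noncomputable def dl {n : ℕ} (p : Pr) (U : B n → Prop) (π : Pm n) (k0 : ℕ) (z : Fin p.d)
    (a : B p.d) : ℤ :=
  (kp p U π k0 a : ℤ) - kp p U π k0 (insert z a)

open Classical in
/-- The good levels. -/
noncomputable def gd {n : ℕ} (p : Pr) (F : Finset (B n)) (U : B n → Prop) (π : Pm n) (k0 : ℕ)
    (a : B p.d) : Finset ℕ :=
  (Ico (p.lo + p.T) (p.hi - p.s)).filter fun t =>
    cs π k0 a t ∈ F ∧ U (cs π k0 a (t + p.s)) ∧ ¬ U (cs π k0 a (t - p.T))

/-- The up-set used in the block. -/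
def Vb {n : ℕ} (p : Pr) (V : ℕ → B n → Prop) (π : Pm n) (k0 : ℕ) : B n → Prop :=
  V (jj p.r V π k0)

def Bk (n : ℕ) (p : Pr) (k0 : ℕ) : B n := seg n k0 (k0 + p.l)

noncomputable def gX {n : ℕ} (p : Pr) (F : Finset (B n)) (V : ℕ → B n → Prop) (k0 : ℕ)
    (a : B p.d) (π : Pm n) : ℝ :=
  (gd p F (Vb p V π k0) π k0 a).card

noncomputable def fD {n : ℕ} (p : Pr) (V : ℕ → B n → Prop) (k0 : ℕ) (f : ℤ → ℝ) (z : Fin p.d)
    (a : B p.d) (π : Pm n) : ℝ :=
  f (dl p (Vb p V π k0) π k0 z a)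

noncomputable def muB {n : ℕ} (p : Pr) (F : Finset (B n)) (V : ℕ → B n → Prop) (k0 : ℕ)
    (a : B p.d) (π : Pm n) : ℝ :=
  Av (Bk n p k0) (gX p F V k0 a) π

noncomputable def st {n : ℕ} (p : Pr) (V : ℕ → B n → Prop) (k0 : ℕ) (f : ℤ → ℝ) (z : Fin p.d)
    (a : B p.d) (π : Pm n) : ℝ :=
  Av (Bk n p k0) (fD p V k0 f z a) π

noncomputable def f1 (M : ℕ) (δ : ℤ) : ℝ := min (δ : ℝ) M

noncomputable def f2 (M : ℕ) (δ : ℤ) : ℝ := (min (max (δ : ℝ) 0) M) ^ 2

noncomputable def f3 (M T : ℕ) (δ : ℤ) : ℝ := max (min (δ : ℝ) M - T) 0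

noncomputable def err {n : ℕ} (p : Pr) (F : Finset (B n)) (V : ℕ → B n → Prop) (k0 : ℕ)
    (z : Fin p.d) (π : Pm n) : ℝ :=
  ∑ a : B p.d, |muB p F V k0 a π - muB p F V k0 ∅ π| +
    ∑ a ∈ univ.filter fun a : B p.d => z ∉ a,
      (|st p V k0 (f1 p.M) z a π - st p V k0 (f1 p.M) z ∅ π| +
        |st p V k0 (f2 p.M) z a π - st p V k0 (f2 p.M) z ∅ π| +
        |st p V k0 (f3 p.M p.T2) z a π - st p V k0 (f3 p.M p.T2) z ∅ π|)

noncomputable def vl {n : ℕ} (p : Pr) (σ η : ℝ) (F : Finset (B n)) (V : ℕ → B n → Prop) (k0 : ℕ)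
    (z : Fin p.d) (π : Pm n) : ℝ :=
  muB p F V k0 ∅ π * (1 - st p V k0 (f1 p.M) z ∅ π) -
    2 * ((p.T : ℝ) + p.s) * (st p V k0 (f2 p.M) z ∅ π / σ + st p V k0 (f3 p.M p.T2) z ∅ π / η +
      err p F V k0 z π / η)

def act {n : ℕ} (p : Pr) (V : ℕ → B n → Prop) (k0 : ℕ) (π : Pm n) : Prop :=
  Vb p V π k0 (img π (init n (k0 + p.l) ∪ dp n (univ : B p.d)))

/-- The lower bound for the sum of the values of all blocks. -/
noncomputable def lowv (p : Pr) (σ η T1 t1 t2 L : ℝ) : ℝ :=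
  ((p.hi : ℝ) - p.lo - (p.T + p.s)) * L -
    p.r * (p.l + p.d) * (p.M * (p.T + p.s) / p.c +
      16 * (p.T + p.s) * p.d * 2 ^ p.d * (p.M : ℝ) ^ 2 / (p.c * η)) -
    2 * (p.T + p.s) * p.r * (2 * (((p.hi : ℝ) - p.lo) * (T1 + p.M * t1) + (p.M : ℝ) ^ 2) / σ +
      (((p.hi : ℝ) - p.lo) * t2 + p.M) / η)

section OB

variable {Ω : Type} [Fintype Ω] {m : ℕ}

/-- The truncated jump. -/
noncomputable def jm (ka : Ω → B m → ℤ) (M : ℕ) (ω : Ω) (A : B m) (z : Fin m) : ℝ :=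
  min ((ka ω A : ℝ) - ka ω (insert z A)) M

/-- The hypotheses on one abstract block. -/
structure OH (ka : Ω → B m → ℤ) (Gd : Ω → B m → Finset ℤ) (s T T2 M : ℕ) (w μ e1 σ : ℝ) :
    Prop where
  anti : ∀ ω A z, ka ω (insert z A) ≤ ka ω A
  win : ∀ ω A, ∀ k ∈ Gd ω A, ka ω A ≤ k + s ∧ k < ka ω A + T
  h1 : ∀ A z, z ∉ A → |(av fun ω => jm ka M ω A z) - w| ≤ e1
  h2 : ∀ A z, z ∉ A → (av fun ω => jm ka M ω A z ^ 2) ≤ σ
  h3 : ∀ A z, z ∉ A → (av fun ω => max (jm ka M ω A z - T2) 0) ≤ e1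
  h4 : ∀ A, μ ≤ av fun ω => ((Gd ω A).card : ℝ)

/-- Every member of `G` has a good placement, the same one for comparable members. -/
def Sel (Gd : Ω → B m → Finset ℤ) (G : Finset (B m)) : Prop :=
  ∃ ι : B m → Ω × ℤ, (∀ A ∈ G, (ι A).2 ∈ Gd (ι A).1 A) ∧
    ∀ A ∈ G, ∀ A' ∈ G, A ⊆ A' → ι A = ι A'

noncomputable def cen (ka : Ω → B m → ℤ) (M : ℕ) (ω : Ω) : ℤ :=
  ka ω univ + ⌊av fun A : B m => min ((ka ω A : ℝ) - ka ω univ) M⌋

def out (ka : Ω → B m → ℤ) (M R : ℕ) (ω : Ω) (A : B m) : Prop :=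
  (R : ℤ) < |ka ω A - cen ka M ω|

noncomputable def ph (ka : Ω → B m → ℤ) (M R s T R' : ℕ) (A : B m) : ℝ :=
  av fun ω => max 0 (min ((cen ka M ω : ℝ) - R - s - 2 * T + R' - ka ω A) R')

noncomputable def psi (ka : Ω → B m → ℤ) (M R s T R' : ℕ) (w : ℝ) (A : B m) : ℝ :=
  ph ka M R s T R' A - w * A.card

end OB

/-- The statement of the one-block theorem for fixed parameters. -/
def OBok (m S r X T2 M : ℕ) (e e1 σ : ℝ) : Prop :=
  ∀ j < r, ∀ (Ω : Type) [Fintype Ω] [Nonempty Ω] (ka : Ω → B m → ℤ) (Gd : Ω → B m → Finset ℤ)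
    (s T : ℕ) (w μ : ℝ), T + s ≤ X → 0 ≤ w → w ≤ 2 → μ ≤ X → OH ka Gd s T T2 M w μ e1 σ →
      ∃ G ⊆ lay m (m / 2 + j * S) S, Sel Gd G ∧
        (μ * (2 - w) - e) * (m.choose (m / 2) : ℝ) ≤ G.card

noncomputable def kaB {n m : ℕ} (p : Pr) (V : ℕ → B n → Prop) (π : Pm n) (k0 : ℕ)
    (Sm : Fin m ↪ Fin p.d) (τ : Fx (Bk n p k0)) (A : B m) : ℤ :=
  (kp p (Vb p V (π * τ.1) k0) (π * τ.1) k0 (A.map Sm) : ℤ) - A.card

noncomputable def GdB {n m : ℕ} (p : Pr) (F : Finset (B n)) (V : ℕ → B n → Prop) (π : Pm n)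
    (k0 : ℕ) (Sm : Fin m ↪ Fin p.d) (τ : Fx (Bk n p k0)) (A : B m) : Finset ℤ :=
  (gd p F (Vb p V (π * τ.1) k0) (π * τ.1) k0 (A.map Sm)).image fun t : ℕ => (t : ℤ) - A.card

end Pool.Agent.Work.MP_84019e_co.Str
end

-- merged part: Pool.Agent.Work.MP_84019e_co.Str.Fx
section
set_option autoImplicit false

namespace Pool.Agent.Work.MP_84019e_co.Str

open Finset Pool.Agent.Work.MP_84019e_co.Cube

variable {n : ℕ}

lemma mem_seg {a b : ℕ} {i : Fin n} : i ∈ seg n a b ↔ a ≤ i.val ∧ i.val < b := by simp [seg]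

lemma card_seg {a b : ℕ} (h : b ≤ n) : (seg n a b).card = b - a := by
  have e : seg n a b = init n b \ init n a := by
    ext i
    simp only [mem_seg, mem_sdiff, mem_init]
    omega
  by_cases hab : a ≤ b
  · rw [e, card_sdiff_of_subset (init_mono hab), card_init h, card_init (hab.trans h)]
  · have e2 : seg n a b = ∅ := by
      ext i
      simp only [mem_seg, notMem_empty, iff_false]
      omega
    rw [e2, card_empty]
    omega

lemma Fx.mul_mem {Q : B n} (σ τ : Fx Q) : ∀ i, i ∉ Q → (σ.1 * τ.1) i = i := by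
  intro i hi
  rw [Equiv.Perm.mul_apply, τ.2 i hi, σ.2 i hi]

lemma Fx.inv_mem {Q : B n} (σ : Fx Q) : ∀ i, i ∉ Q → σ.1⁻¹ i = i := by
  intro i hi
  rw [Equiv.Perm.inv_eq_iff_eq, σ.2 i hi]

lemma Fx.swap_mem {Q : B n} {u v : Fin n} (hu : u ∈ Q) (hv : v ∈ Q) :
    ∀ i, i ∉ Q → Equiv.swap u v i = i := by
  intro i hi
  exact Equiv.swap_apply_of_ne_of_ne (fun h => hi (h ▸ hu)) fun h => hi (h ▸ hv)

lemma Fx.apply_mem {Q : B n} (σ : Fx Q) {i : Fin n} : σ.1 i ∈ Q ↔ i ∈ Q := by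
  constructor
  · intro h
    by_contra hi
    rw [σ.2 i hi] at h
    exact hi h
  · intro h
    by_contra hi
    have h2 : σ.1 i = i := σ.1.injective (σ.2 _ hi)
    rw [h2] at hi
    exact hi h

/-- A set that contains `Q` or misses `Q` is kept. -/
lemma Fx.img_eq {Q I : B n} (σ : Fx Q) (h : Q ⊆ I ∨ Disjoint Q I) : img σ.1 I = I := by
  refine img_eq_of fun i => ?_
  by_cases hi : i ∈ Q
  · have h2 : σ.1 i ∈ Q := (Fx.apply_mem σ).2 hi
    rcases h with h | h
    · exact iff_of_true (h h2) (h hi)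
    · exact iff_of_false (disjoint_left.1 h h2) (disjoint_left.1 h hi)
  · rw [σ.2 i hi]

lemma img_union (π : Pm n) (I J : B n) : img π (I ∪ J) = img π I ∪ img π J := by
  ext x
  simp only [mem_img, mem_union]

/-- Right multiplication inside `Fx Q`. -/
def Fx.eqR {Q : B n} (τ : Fx Q) : Fx Q ≃ Fx Q where
  toFun σ := ⟨σ.1 * τ.1, Fx.mul_mem σ τ⟩
  invFun σ := ⟨σ.1 * τ.1⁻¹, Fx.mul_mem σ ⟨_, Fx.inv_mem τ⟩⟩
  left_inv _ := Subtype.ext (mul_inv_cancel_right _ _)
  right_inv _ := Subtype.ext (inv_mul_cancel_right _ _)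

/-- Left multiplication inside `Fx Q`. -/
def Fx.eqL {Q : B n} (τ : Fx Q) : Fx Q ≃ Fx Q where
  toFun σ := ⟨τ.1 * σ.1, Fx.mul_mem τ σ⟩
  invFun σ := ⟨τ.1⁻¹ * σ.1, Fx.mul_mem ⟨_, Fx.inv_mem τ⟩ σ⟩
  left_inv _ := Subtype.ext (inv_mul_cancel_left _ _)
  right_inv _ := Subtype.ext (mul_inv_cancel_left _ _)

/-- Inversion inside `Fx Q`. -/
def Fx.eqI (Q : B n) : Fx Q ≃ Fx Q where
  toFun σ := ⟨σ.1⁻¹, Fx.inv_mem σ⟩
  invFun σ := ⟨σ.1⁻¹, Fx.inv_mem σ⟩
  left_inv _ := Subtype.ext (inv_inv _)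
  right_inv _ := Subtype.ext (inv_inv _)

lemma av_Fx_right {Q : B n} (τ : Fx Q) (f : Pm n → ℝ) :
    (av fun σ : Fx Q => f (σ.1 * τ.1)) = av fun σ : Fx Q => f σ.1 := by
  exact av_equiv (Fx.eqR τ) fun σ : Fx Q => f σ.1

lemma av_Fx_left {Q : B n} (τ : Fx Q) (f : Pm n → ℝ) :
    (av fun σ : Fx Q => f (τ.1 * σ.1)) = av fun σ : Fx Q => f σ.1 := by
  exact av_equiv (Fx.eqL τ) fun σ : Fx Q => f σ.1

lemma av_Fx_inv (Q : B n) (f : Pm n → ℝ) :
    (av fun σ : Fx Q => f σ.1⁻¹) = av fun σ : Fx Q => f σ.1 := by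
  exact av_equiv (Fx.eqI Q) fun σ : Fx Q => f σ.1

lemma av_Av (Q : B n) (X : Pm n → ℝ) : av (Av Q X) = av X := by
  have h : av (Av Q X) = av fun σ : Fx Q => av fun π : Pm n => X (π * σ.1) :=
    av_comm fun (π : Pm n) (σ : Fx Q) => X (π * σ.1)
  rw [h]
  simp only [av_mul_perm]
  exact av_const _

lemma Av_mul {Q : B n} (X : Pm n → ℝ) (π : Pm n) (τ : Fx Q) : Av Q X (π * τ.1) = Av Q X π := by
  unfold Av
  simp only [mul_assoc]
  exact av_Fx_left τ fun ρ => X (π * ρ)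

lemma Av_right {Q : B n} (X : Pm n → ℝ) (τ : Fx Q) (π : Pm n) :
    Av Q (fun ρ => X (ρ * τ.1)) π = Av Q X π := by
  unfold Av
  simp only [mul_assoc]
  exact av_Fx_right τ fun ρ => X (π * ρ)

lemma Av_of_inv {Q : B n} {f : Pm n → ℝ} {π : Pm n} (h : ∀ σ : Fx Q, f (π * σ.1) = f π) :
    Av Q f π = f π := by
  unfold Av
  simp only [h]
  exact av_const _

lemma av_mul_Av (Q : B n) (f X : Pm n → ℝ) :
    (av fun π => f π * Av Q X π) = av fun π => Av Q f π * X π := by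
  have h1 : (av fun π => f π * Av Q X π) =
      av fun σ : Fx Q => av fun π : Pm n => f π * X (π * σ.1) := by
    rw [← av_comm fun (π : Pm n) (σ : Fx Q) => f π * X (π * σ.1)]
    simp only [av_mul_left, Av]
  have h2 : (av fun π => Av Q f π * X π) =
      av fun σ : Fx Q => av fun π : Pm n => f (π * σ.1) * X π := by
    rw [← av_comm fun (π : Pm n) (σ : Fx Q) => f (π * σ.1) * X π]
    simp only [av_mul_right, Av]
  rw [h1, h2, ← av_Fx_inv Q fun ρ => av fun π : Pm n => f (π * ρ) * X π]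
  refine congrArg av (funext fun σ => ?_)
  rw [← av_mul_perm σ.1 fun π : Pm n => f (π * σ.1⁻¹) * X π]
  simp only [mul_inv_cancel_right]

lemma Av_Av {Q0 Q : B n} (h : Q0 ⊆ Q) (X : Pm n → ℝ) (π : Pm n) :
    Av Q (Av Q0 X) π = Av Q X π := by
  have h1 : Av Q (Av Q0 X) π = av fun τ : Fx Q0 => av fun σ : Fx Q => X (π * σ.1 * τ.1) :=
    av_comm fun (σ : Fx Q) (τ : Fx Q0) => X (π * σ.1 * τ.1)
  have h2 : ∀ τ : Fx Q0, (av fun σ : Fx Q => X (π * σ.1 * τ.1)) = Av Q X π := fun τ =>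
    Av_right X (⟨τ.1, fun i hi => τ.2 i fun h0 => hi (h h0)⟩ : Fx Q) π
  rw [h1]
  simp only [h2]
  exact av_const _

lemma Av_mono {Q : B n} {f g : Pm n → ℝ} {π : Pm n} (h : ∀ σ : Fx Q, f (π * σ.1) ≤ g (π * σ.1)) :
    Av Q f π ≤ Av Q g π :=
  av_mono h

lemma Av_sub (Q : B n) (f g : Pm n → ℝ) (π : Pm n) :
    Av Q (fun ρ => f ρ - g ρ) π = Av Q f π - Av Q g π :=
  av_sub _ _

/-- Paper, section SW. -/
lemma swap_lemma {Q Q' : B n} (hQ : Q' ⊆ Q) (G : Pm n → ℝ)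
    (hG : ∀ ρ : Fx Q, ∀ u ∈ Q', ∀ v ∈ Q', G (ρ.1 * Equiv.swap u v) = G ρ.1) (C : B n) {u : Fin n}
    (hu : u ∈ Q') :
    (Q'.card : ℝ) * (av fun ρ : Fx Q => G ρ.1 * ind (ρ.1 u ∈ C)) =
      av fun ρ : Fx Q => G ρ.1 * ((Q'.filter fun v => ρ.1 v ∈ C).card : ℝ) := by
  have h1 : ∀ v ∈ Q', (av fun ρ : Fx Q => G ρ.1 * ind (ρ.1 v ∈ C)) =
      av fun ρ : Fx Q => G ρ.1 * ind (ρ.1 u ∈ C) := fun v hv => by
    rw [← av_Fx_right (⟨Equiv.swap u v, Fx.swap_mem (hQ hu) (hQ hv)⟩ : Fx Q)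
      fun ρ => G ρ * ind (ρ v ∈ C)]
    refine congrArg av (funext fun ρ => ?_)
    simp only [hG ρ u hu v hv, Equiv.Perm.mul_apply, Equiv.swap_apply_right]
  have h2 : (av fun ρ : Fx Q => G ρ.1 * ((Q'.filter fun v => ρ.1 v ∈ C).card : ℝ)) =
      av fun ρ : Fx Q => ∑ v ∈ Q', G ρ.1 * ind (ρ.1 v ∈ C) := by
    refine congrArg av (funext fun ρ => ?_)
    rw [← mul_sum, sum_ind]
  rw [h2, av_sum Q' fun v (ρ : Fx Q) => G ρ.1 * ind (ρ.1 v ∈ C), sum_congr rfl h1, sum_const,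
    nsmul_eq_mul]

end Pool.Agent.Work.MP_84019e_co.Str
end

-- merged part: Pool.Agent.Work.MP_84019e_co.Str.Chain
section
set_option autoImplicit false

namespace Pool.Agent.Work.MP_84019e_co.Str

open Finset Pool.Agent.Work.MP_84019e_co.Cube

variable {n : ℕ}

lemma mem_dp {d : ℕ} {a : B d} {i : Fin n} : i ∈ dp n a ↔ ∃ z ∈ a, i.val = n - d + z.val := by
  simp [dp]

/-- The position of the shared direction `z`. -/
def dpos {d : ℕ} (h : d ≤ n) (z : Fin d) : Fin n := ⟨n - d + z.val, by have := z.2; omega⟩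

lemma dpos_mem {d : ℕ} (h : d ≤ n) {a : B d} {z : Fin d} : dpos h z ∈ dp n a ↔ z ∈ a := by
  rw [mem_dp]
  refine ⟨fun ⟨y, hy, e⟩ => ?_, fun hz => ⟨z, hz, rfl⟩⟩
  have : z = y := Fin.ext (by simp only [dpos] at e; omega)
  exact this ▸ hy

lemma dp_empty (d : ℕ) : dp n (∅ : B d) = ∅ := by
  simp [dp]

lemma dp_mono {d : ℕ} {a a' : B d} (h : a ⊆ a') : dp n a ⊆ dp n a' := fun _ hi =>
  let ⟨z, hz, e⟩ := mem_dp.1 hi
  mem_dp.2 ⟨z, h hz, e⟩

lemma dp_insert {d : ℕ} (h : d ≤ n) (z : Fin d) (a : B d) :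
    dp n (insert z a) = insert (dpos h z) (dp n a) := by
  ext i
  simp only [mem_dp, mem_insert, exists_eq_or_imp, Fin.ext_iff (a := i), dpos]

lemma card_dp {d : ℕ} (h : d ≤ n) (a : B d) : (dp n a).card = a.card := by
  induction a using Finset.induction_on with
  | empty => rw [dp_empty]; rfl
  | insert z a hz ih =>
    rw [dp_insert h, card_insert_of_notMem (mt (dpos_mem h).1 hz), card_insert_of_notMem hz, ih]

lemma disj_init_dp {d u : ℕ} (h : u + d ≤ n) (a : B d) : Disjoint (init n u) (dp n a) := by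
  refine disjoint_left.2 fun i h1 h2 => ?_
  obtain ⟨z, -, e⟩ := mem_dp.1 h2
  have := mem_init.1 h1
  omega

lemma cs_empty (d : ℕ) (π : Pm n) (k0 t : ℕ) : cs π k0 (∅ : B d) t = ch π (k0 + t) := by
  rw [cs, dp_empty, union_empty, card_empty, Nat.sub_zero, ch]

lemma cs_mono {d : ℕ} (π : Pm n) (k0 : ℕ) (a : B d) {t t' : ℕ} (h : t ≤ t') :
    cs π k0 a t ⊆ cs π k0 a t' :=
  img_subset.2 (union_subset_union_left (init_mono (by omega)))

lemma cs_insert {d : ℕ} (π : Pm n) (k0 : ℕ) (a : B d) (z : Fin d) (t : ℕ) :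
    cs π k0 a t ⊆ cs π k0 (insert z a) (t + 1) := by
  have := card_insert_le z a
  exact img_subset.2 (union_subset_union (init_mono (by omega)) (dp_mono (subset_insert z a)))

lemma ch_sub_cs {d : ℕ} (π : Pm n) (k0 : ℕ) (a : B d) (t : ℕ) : ch π k0 ⊆ cs π k0 a t :=
  img_subset.2 ((init_mono (Nat.le_add_right _ _)).trans subset_union_left)

lemma cs_sub_top {d l : ℕ} (π : Pm n) (k0 : ℕ) (a : B d) {t : ℕ} (h : t ≤ l) :
    cs π k0 a t ⊆ img π (init n (k0 + l) ∪ dp n (univ : B d)) :=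
  img_subset.2 (union_subset_union (init_mono (by omega)) (dp_mono (subset_univ a)))

/-- The number of failures of a monotone property locates its threshold. -/
lemma chn_thr {Q : ℕ → Prop} [DecidablePred fun t => ¬ Q t] (hQ : ∀ t t', t ≤ t' → Q t → Q t')
    {lo hi t : ℕ} (h1 : lo ≤ t) (h2 : t < hi) :
    Q t ↔ lo + ((Ico lo hi).filter fun u => ¬ Q u).card ≤ t := by
  constructor
  · intro h
    have : ((Ico lo hi).filter fun u => ¬ Q u) ⊆ Ico lo t := fun u hu => by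
      obtain ⟨a, b⟩ := mem_filter.1 hu
      exact mem_Ico.2 ⟨(mem_Ico.1 a).1, not_le.1 fun c => b (hQ _ _ c h)⟩
    have := card_le_card this
    rw [Nat.card_Ico] at this
    omega
  · intro h
    by_contra hn
    have : Ico lo (t + 1) ⊆ (Ico lo hi).filter fun u => ¬ Q u := fun u hu => by
      obtain ⟨a, b⟩ := mem_Ico.1 hu
      exact mem_filter.2 ⟨mem_Ico.2 ⟨a, by omega⟩, fun c => hn (hQ _ _ (by omega) c)⟩
    have := card_le_card this
    rw [Nat.card_Ico] at this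
    omega

lemma chn_kp_le (p : Pr) (U : B n → Prop) (π : Pm n) (k0 : ℕ) (a : B p.d) :
    kp p U π k0 a ≤ p.lo + (p.hi - p.lo) := by
  classical
  unfold kp
  exact Nat.add_le_add_left ((card_filter_le _ _).trans (Nat.card_Ico _ _).le) _

lemma kp_ge (p : Pr) (U : B n → Prop) (π : Pm n) (k0 : ℕ) (a : B p.d) :
    p.lo ≤ kp p U π k0 a := Nat.le_add_right _ _

lemma kp_le {p : Pr} (h : p.lo ≤ p.hi) (U : B n → Prop) (π : Pm n) (k0 : ℕ) (a : B p.d) :
    kp p U π k0 a ≤ p.hi := by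
  have := chn_kp_le p U π k0 a
  omega

lemma kp_spec (p : Pr) {U : B n → Prop} (hU : IsUp U) (π : Pm n) (k0 : ℕ) (a : B p.d) {t : ℕ}
    (h1 : p.lo ≤ t) (h2 : t < p.hi) : U (cs π k0 a t) ↔ kp p U π k0 a ≤ t := by
  classical
  unfold kp
  convert chn_thr (Q := fun t => U (cs π k0 a t))
    (fun _ _ h => hU _ _ (cs_mono π k0 a h)) h1 h2

lemma dl_ge (p : Pr) {U : B n → Prop} (hU : IsUp U) (π : Pm n) (k0 : ℕ) (z : Fin p.d)
    (a : B p.d) : -1 ≤ dl p U π k0 z a := by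
  have h1 := kp_ge p U π k0 a
  have h2 := chn_kp_le p U π k0 (insert z a)
  unfold dl
  by_cases h : kp p U π k0 a + 1 < p.hi
  · have h3 := (kp_spec p hU π k0 a h1 (by omega)).2 le_rfl
    have h4 := (kp_spec p hU π k0 (insert z a) (by omega) h).1 (hU _ _ (cs_insert π k0 a z _) h3)
    omega
  · omega

lemma gd_spec (p : Pr) (F : Finset (B n)) {U : B n → Prop} (hU : IsUp U) (π : Pm n) (k0 : ℕ)
    (a : B p.d) {t : ℕ} (ht : t ∈ gd p F U π k0 a) :
    kp p U π k0 a ≤ t + p.s ∧ t < kp p U π k0 a + p.T := by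
  classical
  unfold gd at ht
  obtain ⟨h1, -, h2, h3⟩ := mem_filter.1 ht
  obtain ⟨h4, h5⟩ := mem_Ico.1 h1
  rw [kp_spec p hU π k0 a (by omega) (by omega)] at h2 h3
  omega

lemma gd_card (p : Pr) (F : Finset (B n)) {U : B n → Prop} (hU : IsUp U) (π : Pm n) (k0 : ℕ)
    (a : B p.d) : (gd p F U π k0 a).card ≤ p.T + p.s := by
  have : gd p F U π k0 a ⊆ Ico (kp p U π k0 a - p.s) (kp p U π k0 a + p.T) := fun t ht => by
    have := gd_spec p F hU π k0 a ht
    exact mem_Ico.2 (by omega)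
  have := card_le_card this
  rw [Nat.card_Ico] at this
  omega

lemma Sys.up {r w : ℕ} {V : ℕ → B n → Prop} (hV : Sys r w V) (j : ℕ) : IsUp (V j) := by
  by_cases h : j < r
  · exact (hV.bulk j h).up
  · exact fun x _ _ hx => absurd hx (hV.top j x (not_lt.1 h))

lemma Sys.anti {r w : ℕ} {V : ℕ → B n → Prop} (hV : Sys r w V) {j j' : ℕ} (h : j ≤ j')
    (x : B n) : V j' x → V j x := by
  induction h with
  | refl => exact id
  | step _ ih => exact fun h => ih (hV.nest _ x h)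

lemma jj_spec {r w : ℕ} {V : ℕ → B n → Prop} (hV : Sys r w V) (π : Pm n) (k0 j : ℕ) :
    V j (ch π k0) ↔ j < jj r V π k0 := by
  classical
  unfold jj
  constructor
  · intro h
    have hj : j < r := not_le.1 fun c => hV.top j _ c h
    refine lt_of_lt_of_le (by simp) (card_le_card (s := range (j + 1)) fun u hu => ?_)
    have := mem_range.1 hu
    exact mem_filter.2 ⟨mem_range.2 (by omega), hV.anti (by omega) _ h⟩
  · intro h
    by_contra hn
    refine absurd h (not_lt.2 ((card_le_card (t := range j) fun u hu => ?_).trans (by simp)))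
    exact mem_range.2 (not_le.1 fun c => hn (hV.anti c _ (mem_filter.1 hu).2))

lemma Vb_congr (p : Pr) (V : ℕ → B n → Prop) {π π' : Pm n} {k0 : ℕ}
    (h : ch π k0 = ch π' k0) : Vb p V π k0 = Vb p V π' k0 := by
  unfold Vb jj
  rw [h]

/-- A permutation that fixes the first `k` positions keeps the base. -/
lemma ch_mul_fix (π σ : Pm n) {k : ℕ} (h : ∀ i : Fin n, i.val < k → σ i = i) :
    ch (π * σ) k = ch π k := by
  rw [ch, img_mul, ch]
  congr 1
  refine img_eq_of fun i => ?_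
  rw [mem_init, mem_init]
  refine ⟨fun hi => ?_, fun hi => by rw [h i hi]; exact hi⟩
  have := σ.injective (h _ hi)
  rwa [this] at hi

lemma act_mul (p : Pr) (V : ℕ → B n → Prop) {k0 : ℕ} (hk : k0 + p.l + p.d ≤ n) (π : Pm n)
    (σ : Fx (Bk n p k0 ∪ dp n (univ : B p.d))) : act p V k0 (π * σ.1) ↔ act p V k0 π := by
  have h1 : ch (π * σ.1) k0 = ch π k0 := ch_mul_fix π σ.1 fun i hi => σ.2 i fun c => by
    rcases mem_union.1 c with c | c
    · have := mem_seg.1 c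
      omega
    · obtain ⟨z, -, e⟩ := mem_dp.1 c
      omega
  have h2 : Bk n p k0 ∪ dp n (univ : B p.d) ⊆ init n (k0 + p.l) ∪ dp n (univ : B p.d) :=
    union_subset_union_left fun i hi => mem_init.2 (mem_seg.1 hi).2
  unfold act
  rw [Vb_congr p V h1, img_mul, Fx.img_eq σ (Or.inl h2)]

lemma gX_nonneg (p : Pr) (F : Finset (B n)) (V : ℕ → B n → Prop) (k0 : ℕ) (a : B p.d)
    (π : Pm n) : 0 ≤ gX p F V k0 a π := Nat.cast_nonneg _

lemma gX_le {w : ℕ} {p : Pr} (F : Finset (B n)) {V : ℕ → B n → Prop} (hV : Sys p.r w V) (k0 : ℕ)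
    (a : B p.d) (π : Pm n) : gX p F V k0 a π ≤ ((p.T : ℝ) + p.s) * ind (act p V k0 π) := by
  classical
  by_cases h : act p V k0 π
  · rw [ind_pos h, mul_one]
    unfold gX
    exact_mod_cast gd_card p F (U := Vb p V π k0) (hV.up _) π k0 a
  · have : gd p F (Vb p V π k0) π k0 a = ∅ := eq_empty_of_forall_notMem fun t ht => by
      unfold gd at ht
      obtain ⟨h1, -, h2, -⟩ := mem_filter.1 ht
      have h3 := (mem_Ico.1 h1).2
      unfold Pr.hi at h3
      exact h (hV.up _ _ _ (cs_sub_top π k0 a (by omega)) h2)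
    rw [ind_neg h, mul_zero, gX, this, card_empty, Nat.cast_zero]

lemma dl_off {w : ℕ} {p : Pr} {V : ℕ → B n → Prop} (hV : Sys p.r w V) {k0 : ℕ} {π : Pm n}
    (h : ¬ act p V k0 π) (z : Fin p.d) (a : B p.d) : dl p (Vb p V π k0) π k0 z a = 0 := by
  classical
  have key : ∀ b : B p.d, kp p (Vb p V π k0) π k0 b = p.lo + (Ico p.lo p.hi).card := by
    intro b
    have h2 : ∀ t ∈ Ico p.lo p.hi, ¬ Vb p V π k0 (cs π k0 b t) := fun t ht c => by
      have h3 := (mem_Ico.1 ht).2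
      unfold Pr.hi at h3
      exact h (hV.up _ _ _ (cs_sub_top π k0 b (by omega)) c)
    unfold kp
    rw [filter_true_of_mem h2]
  unfold dl
  rw [key, key, sub_self]

/-- The cycle that moves the position of `z` to the front of the block. -/
lemma exists_cyc {d l k0 : ℕ} (hd : d ≤ n) (hk : k0 + l + d ≤ n) (z : Fin d) :
    ∃ c : Fx (insert (dpos hd z) (seg n k0 (k0 + l))), ∀ (π : Pm n) (b : B d), z ∉ b →
      ∀ t, b.card + 1 ≤ t → t ≤ b.card + l → cs (π * c.1) k0 b t = cs π k0 (insert z b) t := by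
  rcases Nat.eq_zero_or_pos l with rfl | hl
  · exact ⟨⟨1, fun _ _ => rfl⟩, fun _ _ _ _ h1 h2 => by omega⟩
  have hz := z.2
  let g : Fin n → Fin n := fun i =>
    ⟨if i.val = k0 then n - d + z.val else if k0 < i.val ∧ i.val < k0 + l then i.val - 1
      else if i.val = n - d + z.val then k0 + l - 1 else i.val, by
        have := i.2
        split_ifs <;> omega⟩
  have hg : Function.Injective g := fun i j e => by
    have e' := congrArg Fin.val e
    simp only [g] at e'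
    refine Fin.ext ?_
    split_ifs at e' <;> omega
  let c : Pm n := Equiv.ofBijective g (Finite.injective_iff_bijective.1 hg)
  have hc : ∀ i, (c i).val = if i.val = k0 then n - d + z.val
      else if k0 < i.val ∧ i.val < k0 + l then i.val - 1
      else if i.val = n - d + z.val then k0 + l - 1 else i.val := fun _ => rfl
  have hf : ∀ i, i ∉ insert (dpos hd z) (seg n k0 (k0 + l)) → c i = i := fun i hi => by
    rw [mem_insert, mem_seg, Fin.ext_iff] at hi
    simp only [dpos] at hi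
    refine Fin.ext ?_
    rw [hc]
    split_ifs <;> omega
  refine ⟨⟨c, hf⟩, fun π b hb t h1 h2 => ?_⟩
  have hb' : ∀ i ∈ dp n b, c i = i := fun i hi => hf i fun h => by
    rcases mem_insert.1 h with h | h
    · exact hb ((dpos_mem hd).1 (h ▸ hi))
    · obtain ⟨y, -, e⟩ := mem_dp.1 hi
      have := mem_seg.1 h
      omega
  unfold cs
  rw [img_mul]
  congr 1
  refine img_eq_of fun i => ?_
  have h3 : c i ∈ dp n b ↔ i ∈ dp n b :=
    ⟨fun h => c.injective (hb' _ h) ▸ h, fun h => (hb' i h).symm ▸ h⟩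
  have h4 : ((c i).val < k0 + (t - (b.card + 1)) ∨ (c i).val = n - d + z.val) ↔
      i.val < k0 + (t - b.card) := by
    rw [hc]
    split_ifs <;> omega
  rw [dp_insert hd, card_insert_of_notMem hb, mem_union, mem_union, mem_insert, mem_init, mem_init,
    Fin.ext_iff, ← or_assoc]
  exact or_congr h4 h3

end Pool.Agent.Work.MP_84019e_co.Str
end

-- merged part: Pool.Agent.Work.MP_84019e_co.Str.Ind
section
set_option autoImplicit false

namespace Pool.Agent.Work.MP_84019e_co.Str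

open Finset Pool.Agent.Work.MP_84019e_co.Cube

variable {n : ℕ}

/-- An abstract form: `g` is invariant under `Fx Q0` and has mean zero over `Fx (insert p Q0)`. -/
lemma indA_dep {Q0 : B n} {p : Fin n} {g : Pm n → ℝ} (ha : ∀ π, ∀ τ : Fx Q0, g (π * τ.1) = g π)
    (σ : Fx (insert p Q0)) (π : Pm n) : g (π * σ.1) = g (π * Equiv.swap p (σ.1 p)) := by
  have hv : σ.1 p ∈ insert p Q0 := (Fx.apply_mem σ).2 (mem_insert_self _ _)
  have h1 : ∀ i, i ∉ Q0 → (Equiv.swap p (σ.1 p) * σ.1) i = i := by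
    intro i hi
    by_cases h : i = p
    · rw [h, Equiv.Perm.mul_apply, Equiv.swap_apply_right]
    · have h2 : i ∉ insert p Q0 := fun k => (mem_insert.1 k).elim h hi
      rw [Equiv.Perm.mul_apply, σ.2 i h2]
      exact Fx.swap_mem (mem_insert_self _ _) hv i h2
  rw [← ha (π * Equiv.swap p (σ.1 p)) ⟨_, h1⟩, mul_assoc, ← mul_assoc (Equiv.swap _ _),
    Equiv.swap_mul_self, one_mul]

lemma indA_conj {Q0 : B n} {p : Fin n} (hp : p ∉ Q0) {g : Pm n → ℝ}
    (ha : ∀ π, ∀ τ : Fx Q0, g (π * τ.1) = g π) {v w : Fin n} (hv : v ∈ Q0) (hw : w ∈ Q0) :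
    (av fun π => g π * g (π * Equiv.swap p w)) = av fun π => g π * g (π * Equiv.swap p v) := by
  have h0 : Equiv.swap v w p = p := Fx.swap_mem hv hw p hp
  have h1 : Equiv.swap p w * Equiv.swap v w = Equiv.swap v w * Equiv.swap p v := by
    have h := Equiv.swap_apply_apply (Equiv.swap v w) p v
    rw [h0, Equiv.swap_apply_left] at h
    rw [h, inv_mul_cancel_right]
  rw [← av_mul_perm (Equiv.swap v w) fun π => g π * g (π * Equiv.swap p v)]
  refine congrArg av (funext fun π => ?_)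
  rw [ha π ⟨_, Fx.swap_mem hv hw⟩, mul_assoc, ← h1, ← mul_assoc,
    ha _ ⟨_, Fx.swap_mem hv hw⟩]

lemma indA_neg {Q0 : B n} {p : Fin n} (hp : p ∉ Q0) {g : Pm n → ℝ}
    (ha : ∀ π, ∀ τ : Fx Q0, g (π * τ.1) = g π) (hb : ∀ π, Av (insert p Q0) g π = 0) {v : Fin n}
    (hv : v ∈ Q0) : (av fun π => g π * g (π * Equiv.swap p v)) ≤ 0 := by
  have h0 : (av fun σ : Fx (insert p Q0) => av fun π : Pm n => g π * g (π * σ.1)) = 0 := by
    rw [← av_comm fun (π : Pm n) (σ : Fx (insert p Q0)) => g π * g (π * σ.1)]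
    have h : ∀ π : Pm n, (av fun σ : Fx (insert p Q0) => g π * g (π * σ.1)) = 0 := fun π => by
      rw [av_mul_left, show (av fun σ : Fx (insert p Q0) => g (π * σ.1)) = 0 from hb π, mul_zero]
    simp only [h]
    exact av_zero
  rw [← h0]
  refine le_av fun σ => ?_
  simp only [indA_dep ha σ]
  rcases mem_insert.1 ((Fx.apply_mem σ).2 (mem_insert_self p Q0)) with h | h
  · have h2 : (av fun π => g π * g (π * Equiv.swap p v)) ≤
        av fun π => (g π * g π + g (π * Equiv.swap p v) * g (π * Equiv.swap p v)) / 2 :=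
      av_mono fun π => by nlinarith [sq_nonneg (g π - g (π * Equiv.swap p v))]
    rw [av_div, av_add, av_mul_perm (Equiv.swap p v) fun π => g π * g π] at h2
    rw [h, Equiv.swap_self]
    simp only [← Equiv.Perm.one_def, mul_one]
    linarith
  · exact (indA_conj hp ha hv h).ge

lemma indA_pair {Q0 : B n} {p : Fin n} (hp : p ∉ Q0) {g : Pm n → ℝ}
    (ha : ∀ π, ∀ τ : Fx Q0, g (π * τ.1) = g π) (hb : ∀ π, Av (insert p Q0) g π = 0) {u v : Fin n}
    (hu : u ∈ insert p Q0) (hv : v ∈ insert p Q0) (h : u ≠ v) :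
    (av fun π => g (π * Equiv.swap p u) * g (π * Equiv.swap p v)) ≤ 0 := by
  let σ : Fx (insert p Q0) := ⟨_, Fx.mul_mem ⟨_, Fx.swap_mem (mem_insert_self p Q0) hu⟩
    ⟨_, Fx.swap_mem (mem_insert_self p Q0) hv⟩⟩
  have e : σ.1 = Equiv.swap p u * Equiv.swap p v := rfl
  have h1 : σ.1 p ∈ Q0 := by
    refine (mem_insert.1 ((Fx.apply_mem σ).2 (mem_insert_self p Q0))).resolve_left fun k => h ?_
    rw [e, Equiv.Perm.mul_apply, Equiv.swap_apply_left, Equiv.swap_apply_eq_iff,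
      Equiv.swap_apply_left] at k
    exact k.symm
  rw [← av_mul_perm (Equiv.swap p u) fun π => g (π * Equiv.swap p u) * g (π * Equiv.swap p v)]
  refine le_of_eq_of_le (congrArg av (funext fun π => ?_)) (indA_neg hp ha hb h1)
  rw [mul_assoc, Equiv.swap_mul_self, mul_one, mul_assoc, ← e, indA_dep ha σ]

/-- Paper, section IND, first claim. -/
theorem ind_sq {Q0 Q' : B n} {p : Fin n} (hp : p ∉ Q0) (hp' : p ∈ Q') (hQ : Q' ⊆ insert p Q0)
    (X : Pm n → ℝ) (hX : ∀ π, ∀ u ∈ Q', ∀ v ∈ Q', X (π * Equiv.swap u v) = X π) :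
    (Q'.card : ℝ) * (av fun π => (Av Q0 X π - Av (insert p Q0) X π) ^ 2) ≤
      av fun π => X π ^ 2 := by
  set g : Pm n → ℝ := fun π => Av Q0 X π - Av (insert p Q0) X π with hg
  have ha : ∀ π, ∀ τ : Fx Q0, g (π * τ.1) = g π := fun π τ => by
    have h := Av_mul X π
      (⟨τ.1, fun i hi => τ.2 i fun k => hi (mem_insert_of_mem k)⟩ : Fx (insert p Q0))
    simp only [hg, Av_mul, h]
  have hb : ∀ π, Av (insert p Q0) g π = 0 := fun π => by
    rw [hg, Av_sub, Av_Av (subset_insert _ _), Av_Av Subset.rfl, sub_self]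
  have hc : (av fun π => g π ^ 2) = av fun π => g π * X π := by
    have h1 : (av fun π => g π ^ 2) =
        av fun π => g π * Av Q0 X π - g π * Av (insert p Q0) X π :=
      congrArg av (funext fun π => by rw [← mul_sub, sq])
    rw [h1, av_sub, av_mul_Av, av_mul_Av]
    simp only [hb, zero_mul, av_zero, sub_zero, fun π => Av_of_inv (ha π)]
  have hd : ∀ u ∈ Q', (av fun π => g (π * Equiv.swap p u) * X π) = av fun π => g π ^ 2 := by
    intro u hu
    rw [hc, ← av_mul_perm (Equiv.swap p u) fun π => g π * X π]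
    simp only [hX _ p hp' u hu]
  have he : (av fun π => (∑ u ∈ Q', g (π * Equiv.swap p u)) * X π) =
      Q'.card * av fun π => g π ^ 2 := by
    simp only [sum_mul]
    rw [av_sum Q' fun u π => g (π * Equiv.swap p u) * X π, sum_congr rfl hd, sum_const,
      nsmul_eq_mul]
  have hf : (av fun π => (∑ u ∈ Q', g (π * Equiv.swap p u)) ^ 2) ≤
      Q'.card * av fun π => g π ^ 2 := by
    simp only [sq (∑ u ∈ Q', _), sum_mul_sum]
    rw [av_sum Q' fun u π => ∑ v ∈ Q', g (π * Equiv.swap p u) * g (π * Equiv.swap p v),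
      ← nsmul_eq_mul]
    refine sum_le_card_nsmul _ _ _ fun u hu => ?_
    rw [av_sum Q' fun v π => g (π * Equiv.swap p u) * g (π * Equiv.swap p v),
      ← add_sum_erase _ _ hu, ← av_mul_perm (Equiv.swap p u) fun π => g π ^ 2]
    simp only [sq]
    exact add_le_of_nonpos_right (sum_nonpos fun v hv => indA_pair hp ha hb (hQ hu)
      (hQ (mem_of_mem_erase hv)) (ne_of_mem_erase hv).symm)
  have hh : (av fun π => (∑ u ∈ Q', g (π * Equiv.swap p u)) * X π) ≤
      av fun π => ((∑ u ∈ Q', g (π * Equiv.swap p u)) ^ 2 + X π ^ 2) / 2 :=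
    av_mono fun π => by nlinarith [sq_nonneg ((∑ u ∈ Q', g (π * Equiv.swap p u)) - X π)]
  rw [av_div, av_add] at hh
  linarith

/-- Paper, section IND, second claim. -/
theorem ind_abs {Q0 Q' : B n} {p : Fin n} (hp : p ∉ Q0) (hp' : p ∈ Q') (hQ : Q' ⊆ insert p Q0)
    (X : Pm n → ℝ) (hX : ∀ π, ∀ u ∈ Q', ∀ v ∈ Q', X (π * Equiv.swap u v) = X π)
    (E : Pm n → Prop) (hE : ∀ π, ∀ σ : Fx (insert p Q0), E (π * σ.1) ↔ E π) {K c : ℝ}
    (hK : 0 < K) (hc : 0 < c) (hc2 : c ^ 2 ≤ Q'.card) (hXE : ∀ π, |X π| ≤ K * ind (E π)) :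
    (av fun π => |Av Q0 X π - Av (insert p Q0) X π|) ≤ K / c * av fun π => ind (E π) := by
  have h1 := ind_sq hp hp' hQ X hX
  have h2 : (av fun π => X π ^ 2) ≤ K ^ 2 * av fun π => ind (E π) := by
    rw [← av_mul_left]
    refine av_mono fun π => ?_
    have h := hXE π
    by_cases k : E π
    · rw [ind_pos k, mul_one] at h ⊢
      exact sq_le_sq' (abs_le.1 h).1 (abs_le.1 h).2
    · rw [ind_neg k, mul_zero] at h ⊢
      rw [abs_nonpos_iff.1 h, zero_pow two_ne_zero]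
  have h3 : (av fun π => |Av Q0 X π - Av (insert p Q0) X π|) ≤ av fun π =>
      (c / K * (Av Q0 X π - Av (insert p Q0) X π) ^ 2 + K / c * ind (E π)) / 2 := by
    refine av_mono fun π => ?_
    by_cases k : E π
    · rw [ind_pos k, mul_one, ← sq_abs]
      generalize |Av Q0 X π - Av (insert p Q0) X π| = t
      have e : (c / K * t ^ 2 + K / c) / 2 - t = (c * t - K) ^ 2 / (2 * K * c) := by
        field_simp
        ring
      have e2 : 0 ≤ (c * t - K) ^ 2 / (2 * K * c) := by positivity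
      linarith
    · have z : ∀ σ : Fx (insert p Q0), X (π * σ.1) = 0 := fun σ => by
        have h := hXE (π * σ.1)
        rw [ind_neg fun q => k ((hE π σ).1 q), mul_zero] at h
        exact abs_nonpos_iff.1 h
      have z1 : Av (insert p Q0) X π = 0 := by
        simp only [Av, z]
        exact av_zero
      have z2 : Av Q0 X π = 0 := by
        have z' : ∀ τ : Fx Q0, X (π * τ.1) = 0 := fun τ =>
          z ⟨τ.1, fun i hi => τ.2 i fun k => hi (mem_insert_of_mem k)⟩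
        simp only [Av, z']
        exact av_zero
      rw [z1, z2, ind_neg k]
      simp
  rw [av_div, av_add, av_mul_left, av_mul_left] at h3
  have h4 : 0 ≤ av fun π => (Av Q0 X π - Av (insert p Q0) X π) ^ 2 :=
    av_nonneg fun π => sq_nonneg _
  have h5 : c ^ 2 * (av fun π => (Av Q0 X π - Av (insert p Q0) X π) ^ 2) ≤
      K ^ 2 * av fun π => ind (E π) :=
    ((mul_le_mul_of_nonneg_right hc2 h4).trans h1).trans h2
  have h6 : c / K * (av fun π => (Av Q0 X π - Av (insert p Q0) X π) ^ 2) ≤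
      K / c * av fun π => ind (E π) := by
    rw [div_mul_eq_mul_div, div_mul_eq_mul_div, div_le_div_iff₀ hK hc]
    nlinarith
  linarith

end Pool.Agent.Work.MP_84019e_co.Str
end

-- merged part: Pool.Agent.Work.MP_84019e_co.Str.Pat
section
set_option autoImplicit false

namespace Pool.Agent.Work.MP_84019e_co.Str

open Finset Pool.Agent.Work.MP_84019e_co.Cube

variable {n : ℕ}

/-- `X` sees only the base and the two chains in the zone. -/
def Loc (p : Pr) (k0 : ℕ) (Z0 : B p.d) (X : B p.d → Pm n → ℝ) : Prop :=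
  ∀ (a a' : B p.d) (π π' : Pm n), Disjoint a Z0 → Disjoint a' Z0 → ch π k0 = ch π' k0 →
    (∀ t, p.lo ≤ t → t < p.hi →
      cs π k0 a t = cs π' k0 a' t ∧ cs π k0 (a ∪ Z0) t = cs π' k0 (a' ∪ Z0) t) → X a π = X a' π'

lemma loc_gX (p : Pr) (F : Finset (B n)) (V : ℕ → B n → Prop) (k0 : ℕ) :
    Loc p k0 ∅ (gX p F V k0) := by
  intro a a' π π' _ _ hch hcs
  have hV := Vb_congr p V hch
  unfold gX gd
  rw [hV]
  refine congrArg (fun s : Finset ℕ => (s.card : ℝ)) ?_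
  ext t
  simp only [mem_filter]
  refine and_congr_right fun ht => ?_
  rw [mem_Ico] at ht
  rw [(hcs t (by omega) (by omega)).1, (hcs (t + p.s) (by omega) (by omega)).1,
    (hcs (t - p.T) (by omega) (by omega)).1]

lemma loc_fD (p : Pr) (V : ℕ → B n → Prop) (k0 : ℕ) (f : ℤ → ℝ) (z : Fin p.d) :
    Loc p k0 {z} (fD p V k0 f z) := by
  intro a a' π π' _ _ hch hcs
  have hV := Vb_congr p V hch
  have e : ∀ b : B p.d, b ∪ {z} = insert z b := fun b => by
    rw [union_comm, insert_eq]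
  have k1 : kp p (Vb p V π' k0) π k0 a = kp p (Vb p V π' k0) π' k0 a' := by
    unfold kp
    refine congrArg (fun s : Finset ℕ => p.lo + s.card) ?_
    ext t
    simp only [mem_filter]
    refine and_congr_right fun ht => ?_
    rw [mem_Ico] at ht
    rw [(hcs t ht.1 ht.2).1]
  have k2 : kp p (Vb p V π' k0) π k0 (insert z a) =
      kp p (Vb p V π' k0) π' k0 (insert z a') := by
    unfold kp
    refine congrArg (fun s : Finset ℕ => p.lo + s.card) ?_
    ext t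
    simp only [mem_filter]
    refine and_congr_right fun ht => ?_
    rw [mem_Ico] at ht
    rw [← e a, ← e a', (hcs t ht.1 ht.2).2]
  unfold fD dl
  rw [hV, k1, k2]

lemma pat_hi {w : ℕ} {p : Pr} (hp : p.Ok n w) : p.hi + p.c ^ 2 = p.l := by
  have h1 := hp.zone
  have h2 := hp.M1
  unfold Pr.hi at h1 ⊢
  omega

lemma pat_card_le {d : ℕ} (b : B d) : b.card ≤ d := by
  simpa using card_le_univ b

lemma pat_dpos_not {k0 : ℕ} {p : Pr} (hk : k0 + p.l + p.d ≤ n) (hd : p.d ≤ n) (z : Fin p.d) :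
    dpos hd z ∉ Bk n p k0 := by
  rw [Bk, mem_seg]
  simp only [dpos]
  omega

lemma pat_ch_fix {k0 : ℕ} {p : Pr} (hk : k0 + p.l + p.d ≤ n) (hd : p.d ≤ n) (z : Fin p.d)
    {Q : B n} (hQ : Q ⊆ insert (dpos hd z) (Bk n p k0)) (π : Pm n) (σ : Fx Q) :
    ch (π * σ.1) k0 = ch π k0 := by
  refine ch_mul_fix π σ.1 fun i hi => σ.2 i fun h => ?_
  rcases mem_insert.1 (hQ h) with h1 | h1
  · have h2 := congrArg Fin.val h1
    simp only [dpos] at h2
    omega
  · rw [Bk, mem_seg] at h1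
    omega

lemma pat_act {k0 : ℕ} {p : Pr} (hk : k0 + p.l + p.d ≤ n) (hd : p.d ≤ n) (z : Fin p.d)
    (V : ℕ → B n → Prop) (π : Pm n) (σ : Fx (insert (dpos hd z) (Bk n p k0))) :
    act p V k0 (π * σ.1) ↔ act p V k0 π := by
  refine act_mul p V hk π ⟨σ.1, fun i hi => σ.2 i fun h => hi ?_⟩
  rcases mem_insert.1 h with h1 | h1
  · rw [h1]
    exact mem_union_right _ ((dpos_mem hd).2 (mem_univ _))
  · exact mem_union_left _ h1

lemma pat_cs_fix {d : ℕ} {Q : B n} (π : Pm n) (σ : Fx Q) (k0 : ℕ) (b : B d) (t : ℕ)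
    (h : Q ⊆ init n (k0 + (t - b.card)) ∪ dp n b ∨
      Disjoint Q (init n (k0 + (t - b.card)) ∪ dp n b)) :
    cs (π * σ.1) k0 b t = cs π k0 b t := by
  rw [cs, cs, img_mul, Fx.img_eq σ h]

/-- The common part of the two one-direction bounds. -/
lemma pat_core {w k0 : ℕ} {p : Pr} (hp : p.Ok n w) (hk : k0 + p.l + p.d ≤ n) (hd : p.d ≤ n)
    {Z0 : B p.d} {X : B p.d → Pm n → ℝ} (hX : Loc p k0 Z0 X) (V : ℕ → B n → Prop) {K : ℝ}
    (hK : 0 < K) {a : B p.d} (ha : Disjoint a Z0) (z : Fin p.d)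
    (hb : ∀ π, |X a π| ≤ K * ind (act p V k0 π)) {u v : ℕ} (hu : k0 ≤ u) (hv : v ≤ k0 + p.l)
    (huv : v = u + p.c ^ 2)
    (hs : ∀ b : B p.d, (b = a ∨ b = a ∪ Z0) → ∀ t, p.lo ≤ t → t < p.hi →
      insert (dpos hd z) (seg n u v) ⊆ init n (k0 + (t - b.card)) ∪ dp n b ∨
        Disjoint (insert (dpos hd z) (seg n u v)) (init n (k0 + (t - b.card)) ∪ dp n b)) :
    (av fun π => |Av (Bk n p k0) (X a) π - Av (insert (dpos hd z) (Bk n p k0)) (X a) π|) ≤
      K / p.c * av fun π => ind (act p V k0 π) := by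
  have hsub : seg n u v ⊆ Bk n p k0 := by
    intro i hi
    rw [Bk, mem_seg]
    rw [mem_seg] at hi
    omega
  have hQ : insert (dpos hd z) (seg n u v) ⊆ insert (dpos hd z) (Bk n p k0) :=
    insert_subset_insert _ hsub
  have hc : (0 : ℝ) < p.c := by exact_mod_cast hp.c1
  refine ind_abs (Q' := insert (dpos hd z) (seg n u v)) (pat_dpos_not hk hd z)
    (mem_insert_self _ _) hQ (X a) ?_ (act p V k0) (pat_act hk hd z V) hK hc ?_ hb
  · intro π x hx y hy
    refine hX a a _ _ ha ha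
      (pat_ch_fix hk hd z hQ π ⟨Equiv.swap x y, Fx.swap_mem hx hy⟩) fun t h1 h2 => ⟨?_, ?_⟩
    · exact pat_cs_fix π ⟨Equiv.swap x y, Fx.swap_mem hx hy⟩ k0 a t (hs a (Or.inl rfl) t h1 h2)
    · exact pat_cs_fix π ⟨Equiv.swap x y, Fx.swap_mem hx hy⟩ k0 (a ∪ Z0) t
        (hs _ (Or.inr rfl) t h1 h2)
  · have h1 : p.c ^ 2 ≤ (insert (dpos hd z) (seg n u v)).card := by
      refine le_trans ?_ (card_le_card (subset_insert _ _))
      rw [card_seg (by omega)]
      omega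
    exact_mod_cast h1

/-- One direction outside the pattern: the mean over the block against the mean over the block
and that direction (`ind_abs` with the last `c ^ 2` positions of the block). -/
lemma pat_out {w k0 : ℕ} {p : Pr} (hp : p.Ok n w) (hk : k0 + p.l + p.d ≤ n) (hd : p.d ≤ n)
    {Z0 : B p.d} {X : B p.d → Pm n → ℝ} (hX : Loc p k0 Z0 X) (V : ℕ → B n → Prop) {K : ℝ}
    (hK : 0 < K) {a : B p.d} (ha : Disjoint a Z0) {z : Fin p.d} (hz : z ∉ a) (hz0 : z ∉ Z0)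
    (hb : ∀ π, |X a π| ≤ K * ind (act p V k0 π)) :
    (av fun π => |Av (Bk n p k0) (X a) π - Av (insert (dpos hd z) (Bk n p k0)) (X a) π|) ≤
      K / p.c * av fun π => ind (act p V k0 π) := by
  have hh := pat_hi hp
  refine pat_core hp hk hd hX V hK ha z hb (u := k0 + p.hi) (v := k0 + p.l) (by omega) le_rfl
    (by omega) fun b hb' t _ h2 => Or.inr ?_
  have hzb : z ∉ b := by
    rcases hb' with h | h
    · rwa [h]
    · rw [h, mem_union]
      exact fun h3 => h3.elim hz hz0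
  rw [disjoint_left]
  intro i hi hi'
  rcases mem_insert.1 hi with h3 | h3
  · rcases mem_union.1 hi' with h4 | h4
    · rw [mem_init, h3] at h4
      simp only [dpos] at h4
      omega
    · rw [h3] at h4
      exact hzb ((dpos_mem hd).1 h4)
  · rw [mem_seg] at h3
    rcases mem_union.1 hi' with h4 | h4
    · rw [mem_init] at h4
      omega
    · obtain ⟨y, -, h5⟩ := mem_dp.1 h4
      omega

/-- One direction inside the pattern (`ind_abs` with the first `c ^ 2` positions). -/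
lemma pat_in {w k0 : ℕ} {p : Pr} (hp : p.Ok n w) (hk : k0 + p.l + p.d ≤ n) (hd : p.d ≤ n)
    {Z0 : B p.d} {X : B p.d → Pm n → ℝ} (hX : Loc p k0 Z0 X) (V : ℕ → B n → Prop) {K : ℝ}
    (hK : 0 < K) {a : B p.d} (ha : Disjoint a Z0) {z : Fin p.d} (hz : z ∈ a)
    (hb : ∀ π, |X a π| ≤ K * ind (act p V k0 π)) :
    (av fun π => |Av (Bk n p k0) (X a) π - Av (insert (dpos hd z) (Bk n p k0)) (X a) π|) ≤
      K / p.c * av fun π => ind (act p V k0 π) := by
  have hh := pat_hi hp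
  have hz' := hp.zone
  have hlo : p.lo = p.c ^ 2 + p.d := rfl
  refine pat_core hp hk hd hX V hK ha z hb (u := k0) (v := k0 + p.c ^ 2) le_rfl (by omega) rfl
    fun b hb' t h1 _ => Or.inl ?_
  have hzb : z ∈ b := by
    rcases hb' with h | h
    · rwa [h]
    · rw [h]
      exact mem_union_left _ hz
  have hc := pat_card_le b
  intro i hi
  rcases mem_insert.1 hi with h3 | h3
  · rw [h3]
    exact mem_union_right _ ((dpos_mem hd).2 hzb)
  · rw [mem_seg] at h3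
    exact mem_union_left _ (mem_init.2 (by omega))

/-- Moving a direction into the pattern keeps the larger mean (`exists_cyc`). -/
lemma pat_cyc {w k0 : ℕ} {p : Pr} (hp : p.Ok n w) (hk : k0 + p.l + p.d ≤ n) (hd : p.d ≤ n)
    {Z0 : B p.d} {X : B p.d → Pm n → ℝ} (hX : Loc p k0 Z0 X) {a : B p.d} (ha : Disjoint a Z0)
    {z : Fin p.d} (hz : z ∉ a) (hz0 : z ∉ Z0) (π : Pm n) :
    Av (insert (dpos hd z) (Bk n p k0)) (X (insert z a)) π =
      Av (insert (dpos hd z) (Bk n p k0)) (X a) π := by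
  obtain ⟨c, hc⟩ := exists_cyc (l := p.l) (k0 := k0) hd hk z
  have hh := pat_hi hp
  have hlo : p.lo = p.c ^ 2 + p.d := rfl
  have hc1 : 1 ≤ p.c ^ 2 := Nat.one_le_pow _ _ hp.c1
  have hz1 : z ∉ a ∪ Z0 := by
    rw [mem_union]
    exact fun h3 => h3.elim hz hz0
  have e : X (insert z a) = fun ρ => X a (ρ * c.1) := by
    funext ρ
    refine hX (insert z a) a ρ (ρ * c.1) (disjoint_insert_left.2 ⟨hz0, ha⟩) ha
      (pat_ch_fix hk hd z (Subset.refl _) ρ c).symm fun t h1 h2 => ⟨?_, ?_⟩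
    · have h3 := pat_card_le a
      exact (hc ρ a hz t (by omega) (by omega)).symm
    · have h3 := pat_card_le (a ∪ Z0)
      rw [insert_union]
      exact (hc ρ (a ∪ Z0) hz1 t (by omega) (by omega)).symm
  rw [e]
  exact Av_right (Q := insert (dpos hd z) (Bk n p k0)) (X a) c π

/-- Paper, section B1. -/
theorem pat_indep {w k0 : ℕ} {p : Pr} (hp : p.Ok n w) (hk : k0 + p.l + p.d ≤ n)
    {Z0 : B p.d} {X : B p.d → Pm n → ℝ} (hX : Loc p k0 Z0 X) (V : ℕ → B n → Prop) {K : ℝ}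
    (hK : 0 < K) (hb : ∀ a π, Disjoint a Z0 → |X a π| ≤ K * ind (act p V k0 π)) (a : B p.d)
    (ha : Disjoint a Z0) :
    (av fun π => |Av (Bk n p k0) (X a) π - Av (Bk n p k0) (X ∅) π|) ≤
      2 * p.d * (K / p.c) * av fun π => ind (act p V k0 π) := by
  have hd : p.d ≤ n := by omega
  have hc : (0 : ℝ) < p.c := by exact_mod_cast hp.c1
  have hP : 0 ≤ K / p.c * av fun π => ind (act p V k0 π) :=
    mul_nonneg (div_pos hK hc).le (av_nonneg fun _ => ind_nonneg _)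
  have key : ∀ b : B p.d, Disjoint b Z0 →
      (av fun π => |Av (Bk n p k0) (X b) π - Av (Bk n p k0) (X ∅) π|) ≤
        2 * b.card * (K / p.c * av fun π => ind (act p V k0 π)) := by
    intro b
    induction b using Finset.induction_on with
    | empty =>
      intro _
      simp only [sub_self, abs_zero, av_zero, card_empty, Nat.cast_zero, mul_zero, zero_mul,
        le_refl]
    | insert z b hz ih =>
      intro hb'
      obtain ⟨hz0, hb0⟩ := disjoint_insert_left.1 hb'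
      have h1 := pat_in hp hk hd hX V hK hb' (mem_insert_self z b) (fun π => hb _ π hb')
      have h2 := pat_out hp hk hd hX V hK hb0 hz hz0 (fun π => hb _ π hb0)
      have h3 := ih hb0
      have h4 : (av fun π => |Av (Bk n p k0) (X (insert z b)) π - Av (Bk n p k0) (X ∅) π|) ≤
          av fun π => |Av (Bk n p k0) (X (insert z b)) π -
              Av (insert (dpos hd z) (Bk n p k0)) (X (insert z b)) π| +
            |Av (Bk n p k0) (X b) π - Av (insert (dpos hd z) (Bk n p k0)) (X b) π| +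
            |Av (Bk n p k0) (X b) π - Av (Bk n p k0) (X ∅) π| := by
        refine av_mono fun π => ?_
        rw [pat_cyc hp hk hd hX hb0 hz hz0 π]
        have a1 := abs_sub_le (Av (Bk n p k0) (X (insert z b)) π)
          (Av (insert (dpos hd z) (Bk n p k0)) (X b) π) (Av (Bk n p k0) (X ∅) π)
        have a2 := abs_sub_le (Av (insert (dpos hd z) (Bk n p k0)) (X b) π)
          (Av (Bk n p k0) (X b) π) (Av (Bk n p k0) (X ∅) π)
        have a3 := abs_sub_comm (Av (insert (dpos hd z) (Bk n p k0)) (X b) π)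
          (Av (Bk n p k0) (X b) π)
        linarith
      rw [av_add, av_add] at h4
      rw [card_insert_of_notMem hz]
      push_cast
      linarith
  have h1 := key a ha
  have h2 : (a.card : ℝ) ≤ p.d := by exact_mod_cast pat_card_le a
  have h3 := mul_le_mul_of_nonneg_right h2 hP
  rw [mul_assoc (2 * (p.d : ℝ))]
  linarith

lemma pat_bd {w k0 : ℕ} {p : Pr} {V : ℕ → B n → Prop} (hV : Sys p.r w V) (f : ℤ → ℝ) {K : ℝ}
    (h0 : f 0 = 0) (h1 : ∀ δ : ℤ, -1 ≤ δ → |f δ| ≤ K) (z : Fin p.d) (a : B p.d) (π : Pm n) :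
    |fD p V k0 f z a π| ≤ K * ind (act p V k0 π) := by
  by_cases h : act p V k0 π
  · rw [ind_pos h, mul_one]
    exact h1 _ (dl_ge p (hV.up _) π k0 z a)
  · rw [ind_neg h, mul_zero, fD, dl_off hV h, h0, abs_zero]

theorem err_le {w k0 : ℕ} {p : Pr} (hp : p.Ok n w) (hk : k0 + p.l + p.d ≤ n)
    (F : Finset (B n)) {V : ℕ → B n → Prop} (hV : Sys p.r w V) (z : Fin p.d) :
    av (err p F V k0 z) ≤
      8 * p.d * 2 ^ p.d * ((p.M : ℝ) ^ 2 / p.c) * av fun π => ind (act p V k0 π) := by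
  have hM : (1 : ℝ) ≤ p.M := by exact_mod_cast hp.M1
  have hMM : (p.M : ℝ) ≤ (p.M : ℝ) ^ 2 := by nlinarith
  have hK : (0 : ℝ) < (p.M : ℝ) ^ 2 := by linarith
  have hc : (0 : ℝ) < p.c := by exact_mod_cast hp.c1
  have hT : (0 : ℝ) ≤ p.T2 := Nat.cast_nonneg _
  have hX : (p.T : ℝ) + p.s ≤ p.M := by exact_mod_cast hp.XM
  obtain ⟨E, hE⟩ : ∃ E : ℝ, E = 2 * p.d * ((p.M : ℝ) ^ 2 / p.c) *
    av fun π => ind (act p V k0 π) := ⟨_, rfl⟩
  have hE0 : 0 ≤ E := by
    rw [hE]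
    exact mul_nonneg (mul_nonneg (by positivity) (div_pos hK hc).le)
      (av_nonneg fun _ => ind_nonneg _)
  have g0 : ∀ a : B p.d, (av fun π => |muB p F V k0 a π - muB p F V k0 ∅ π|) ≤ E := by
    intro a
    rw [hE]
    refine pat_indep hp hk (loc_gX p F V k0) V hK (fun b π _ => ?_) a (disjoint_empty_right a)
    rw [abs_of_nonneg (gX_nonneg p F V k0 b π)]
    exact (gX_le F hV k0 b π).trans
      (mul_le_mul_of_nonneg_right (hX.trans hMM) (ind_nonneg _))
  have g1 : ∀ f : ℤ → ℝ, f 0 = 0 → (∀ δ : ℤ, -1 ≤ δ → |f δ| ≤ (p.M : ℝ) ^ 2) →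
      ∀ a : B p.d, z ∉ a → (av fun π => |st p V k0 f z a π - st p V k0 f z ∅ π|) ≤ E := by
    intro f h0 h1 a ha
    rw [hE]
    exact pat_indep hp hk (loc_fD p V k0 f z) V hK (fun b π _ => pat_bd hV f h0 h1 z b π) a
      (disjoint_singleton_right.2 ha)
  have b1 := g1 (f1 p.M) (by
    rw [f1, Int.cast_zero]
    exact min_eq_left (by linarith)) (by
    intro δ hδ
    have h1 : (-1 : ℝ) ≤ δ := by exact_mod_cast hδ
    have h2 : (-1 : ℝ) ≤ min (δ : ℝ) p.M := le_min h1 (by linarith)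
    have h3 : min (δ : ℝ) p.M ≤ p.M := min_le_right _ _
    rw [f1, abs_le]
    constructor <;> linarith)
  have b2 := g1 (f2 p.M) (by
    rw [f2, Int.cast_zero, max_self, min_eq_left (by linarith)]
    norm_num) (by
    intro δ _
    have h2 : (0 : ℝ) ≤ min (max (δ : ℝ) 0) p.M := le_min (le_max_right _ _) (by linarith)
    have h3 : min (max (δ : ℝ) 0) p.M ≤ p.M := min_le_right _ _
    rw [f2, abs_of_nonneg (sq_nonneg _)]
    exact pow_le_pow_left₀ h2 h3 2)
  have b3 := g1 (f3 p.M p.T2) (by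
    rw [f3, Int.cast_zero, min_eq_left (by linarith)]
    exact max_eq_right (by linarith)) (by
    intro δ _
    have h3 : min (δ : ℝ) p.M ≤ p.M := min_le_right _ _
    rw [f3, abs_of_nonneg (le_max_right _ _)]
    exact max_le (by linarith) hK.le)
  have hcard : ((univ : Finset (B p.d)).card : ℝ) = 2 ^ p.d := by
    rw [card_univ, Fintype.card_finset, Fintype.card_fin]
    push_cast
    rfl
  have s1 : ∑ a : B p.d, (av fun π => |muB p F V k0 a π - muB p F V k0 ∅ π|) ≤ 2 ^ p.d * E := by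
    have h1 := sum_le_card_nsmul (univ : Finset (B p.d)) _ E fun a _ => g0 a
    rwa [nsmul_eq_mul, hcard] at h1
  have s2 : ∑ a ∈ univ.filter (fun a : B p.d => z ∉ a), (av fun π =>
      |st p V k0 (f1 p.M) z a π - st p V k0 (f1 p.M) z ∅ π| +
        |st p V k0 (f2 p.M) z a π - st p V k0 (f2 p.M) z ∅ π| +
        |st p V k0 (f3 p.M p.T2) z a π - st p V k0 (f3 p.M p.T2) z ∅ π|) ≤
      2 ^ p.d * (3 * E) := by
    have h1 := sum_le_card_nsmul (univ.filter fun a : B p.d => z ∉ a) (fun a => av fun π =>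
      |st p V k0 (f1 p.M) z a π - st p V k0 (f1 p.M) z ∅ π| +
        |st p V k0 (f2 p.M) z a π - st p V k0 (f2 p.M) z ∅ π| +
        |st p V k0 (f3 p.M p.T2) z a π - st p V k0 (f3 p.M p.T2) z ∅ π|) (3 * E) (by
      intro a ha
      have ha' := (mem_filter.1 ha).2
      have c1 := b1 a ha'
      have c2 := b2 a ha'
      have c3 := b3 a ha'
      rw [av_add, av_add]
      linarith)
    rw [nsmul_eq_mul] at h1
    refine h1.trans (mul_le_mul_of_nonneg_right ?_ (by linarith))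
    rw [← hcard]
    exact_mod_cast card_filter_le _ _
  have e1 : 8 * (p.d : ℝ) * 2 ^ p.d * ((p.M : ℝ) ^ 2 / p.c) * (av fun π => ind (act p V k0 π)) =
      2 ^ p.d * E + 2 ^ p.d * (3 * E) := by
    rw [hE]
    ring
  rw [e1]
  unfold err
  rw [av_add, av_sum, av_sum]
  exact add_le_add s1 s2

end Pool.Agent.Work.MP_84019e_co.Str
end

-- merged part: Pool.Agent.Work.MP_84019e_co.Str.Mass
section
set_option autoImplicit false

namespace Pool.Agent.Work.MP_84019e_co.Str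

open Finset Pool.Agent.Work.MP_84019e_co.Cube

variable {n : ℕ}

lemma mass_tel (f : ℕ → ℝ) (h0 : ∀ k, 0 ≤ f k) (h1 : ∀ k, f k ≤ 1) (K L : ℕ) :
    ∑ k ∈ range K, (f (k + L) - f k) ≤ L := by
  have a := sum_range_add f K L
  have b := sum_range_add f L K
  rw [add_comm L K] at b
  have c : ∑ k ∈ range K, f (k + L) = ∑ k ∈ range K, f (L + k) :=
    sum_congr rfl fun k _ => by rw [add_comm]
  have d : ∑ i ∈ range L, f (K + i) ≤ L := by
    calc ∑ i ∈ range L, f (K + i) ≤ ∑ _i ∈ range L, (1 : ℝ) := sum_le_sum fun i _ => h1 _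
      _ = L := by simp
  have e : 0 ≤ ∑ i ∈ range L, f i := sum_nonneg fun i _ => h0 i
  rw [sum_sub_distrib, c]
  linarith

theorem act_sum {w : ℕ} {p : Pr} (hp : p.Ok n w) {V : ℕ → B n → Prop} (hV : Sys p.r w V) :
    ∑ k0 ∈ range (n - p.l - p.d + 1), (av fun π => ind (act p V k0 π)) ≤
      p.r * ((p.l : ℝ) + p.d) := by
  have hlw := hp.lw
  have hwn := hp.wn
  have step : ∀ k0 ∈ range (n - p.l - p.d + 1), (av fun π => ind (act p V k0 π)) ≤
      ∑ j ∈ range p.r, (pd (V j) (k0 + (p.l + p.d)) - pd (V j) k0) := by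
    intro k0 hk0
    have hk : k0 + p.l + p.d ≤ n := by
      have := mem_range.1 hk0
      omega
    have hc : (init n (k0 + p.l) ∪ dp n (univ : B p.d)).card = k0 + (p.l + p.d) := by
      rw [card_union_of_disjoint (disj_init_dp hk _), card_init (by omega),
        card_dp (by omega), card_univ, Fintype.card_fin]
      omega
    have e : ∀ j, pd (V j) (k0 + (p.l + p.d)) - pd (V j) k0 = av fun π : Pm n =>
        ind (V j (img π (init n (k0 + p.l) ∪ dp n (univ : B p.d)))) - ind (V j (ch π k0)) := by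
      intro j
      rw [av_sub, av_img, hc]
      rfl
    simp only [e]
    rw [← av_sum]
    refine av_mono fun π => ?_
    have sub : ch π k0 ⊆ img π (init n (k0 + p.l) ∪ dp n (univ : B p.d)) :=
      img_subset.2 ((init_mono (by omega)).trans subset_union_left)
    have nn : ∀ j, 0 ≤ ind (V j (img π (init n (k0 + p.l) ∪ dp n (univ : B p.d)))) -
        ind (V j (ch π k0)) := fun j => sub_nonneg.2 (ind_mono (hV.up j _ _ sub))
    by_cases ha : act p V k0 π
    · have ha' : V (jj p.r V π k0) (img π (init n (k0 + p.l) ∪ dp n (univ : B p.d))) := ha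
      have hj : jj p.r V π k0 < p.r := by
        by_contra hh
        exact hV.top _ _ (by omega) ha'
      have hb : ¬ V (jj p.r V π k0) (ch π k0) := fun hh =>
        lt_irrefl _ ((jj_spec hV π k0 _).1 hh)
      have := single_le_sum (f := fun j => ind (V j (img π (init n (k0 + p.l) ∪
        dp n (univ : B p.d)))) - ind (V j (ch π k0))) (fun j _ => nn j) (mem_range.2 hj)
      simp only [ind_pos ha', ind_neg hb, sub_zero] at this
      rw [ind_pos ha]
      exact this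
    · rw [ind_neg ha]
      exact sum_nonneg fun j _ => nn j
  refine (sum_le_sum step).trans ?_
  rw [sum_comm]
  calc _ ≤ ∑ _j ∈ range p.r, ((p.l + p.d : ℕ) : ℝ) := sum_le_sum fun j _ =>
        mass_tel (pd (V j)) (pd_nonneg _) (pd_le_one _) _ _
    _ = _ := by
      rw [sum_const, card_range, nsmul_eq_mul, Nat.cast_add]

/-- The marked indicator minus the crossings at middle distance. -/
noncomputable def massG (p : Pr) (F : Finset (B n)) (V : ℕ → B n → Prop) (π : Pm n) (k : ℕ) : ℝ :=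
  ind (ch π k ∈ F ∧ Mk p.r V p.s π k) - ∑ a ∈ Ico p.T p.l, ∑ j ∈ range p.r,
    ind (a < k ∧ ch π k ∈ F ∧ Mk p.r V p.s π k ∧ V j (ch π (k - a)) ∧ ¬ V j (ch π (k - a - 1)))

lemma mass_eq (p : Pr) (F : Finset (B n)) (V : ℕ → B n → Prop) :
    lamM p.r F V p.s - ∑ a ∈ Ico p.T p.l, zs p.r F V p.s a =
      ∑ k ∈ range (n + 1), av fun π => massG p F V π k := by
  simp only [massG, av_sub, av_sum, sum_sub_distrib, lamM, zs]
  congr 1
  rw [sum_comm (s := range (n + 1))]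
  exact sum_congr rfl fun a _ => sum_comm

lemma massG_zero (p : Pr) {F : Finset (B n)} (V : ℕ → B n → Prop) {π : Pm n} {k : ℕ}
    (h : ch π k ∉ F) : massG p F V π k = 0 := by
  unfold massG
  rw [ind_neg (fun hh => h hh.1), sum_eq_zero, sub_zero]
  exact fun a _ => sum_eq_zero fun j _ => ind_neg fun hh => h hh.2.1

lemma mass_cross (Q : ℕ → Prop) {T t : ℕ} (h1 : Q T) (h2 : ¬ Q t) (hT : T ≤ t) :
    ∃ a, T ≤ a ∧ a < t ∧ Q a ∧ ¬ Q (a + 1) := by
  induction t, hT using Nat.le_induction with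
  | base => exact absurd h1 h2
  | succ u hu ih =>
    by_cases hq : Q u
    · exact ⟨u, hu, Nat.lt_succ_self u, hq, h2⟩
    · obtain ⟨a, b1, b2, b3⟩ := ih hq
      exact ⟨a, b1, by omega, b3⟩

lemma massG_le {w : ℕ} {p : Pr} (hp : p.Ok n w) (F : Finset (B n)) {V : ℕ → B n → Prop}
    (hV : Sys p.r w V) (π : Pm n) (k0 : ℕ) {t : ℕ} (ht : t ∈ Ico (p.lo + p.T) (p.hi - p.s)) :
    massG p F V π (k0 + t) ≤ ind (cs π k0 (∅ : B p.d) t ∈ F ∧
      Vb p V π k0 (cs π k0 (∅ : B p.d) (t + p.s)) ∧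
        ¬ Vb p V π k0 (cs π k0 (∅ : B p.d) (t - p.T))) := by
  have h1 := (mem_Ico.1 ht).1
  have h2 := (mem_Ico.1 ht).2
  have h3 := hp.XM
  have h4 := hp.Mc
  have h5 : p.lo = p.c ^ 2 + p.d := rfl
  have h6 : p.hi = p.l - p.c ^ 2 := rfl
  have nn : 0 ≤ ∑ a ∈ Ico p.T p.l, ∑ j ∈ range p.r, ind (a < k0 + t ∧ ch π (k0 + t) ∈ F ∧
      Mk p.r V p.s π (k0 + t) ∧ V j (ch π (k0 + t - a)) ∧ ¬ V j (ch π (k0 + t - a - 1))) :=
    sum_nonneg fun a _ => sum_nonneg fun j _ => ind_nonneg _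
  simp only [cs_empty]
  unfold massG
  by_cases hA : ch π (k0 + t) ∈ F ∧ Mk p.r V p.s π (k0 + t)
  swap
  · rw [ind_neg hA]
    have := ind_nonneg (ch π (k0 + t) ∈ F ∧ Vb p V π k0 (ch π (k0 + (t + p.s))) ∧
      ¬ Vb p V π k0 (ch π (k0 + (t - p.T))))
    linarith
  obtain ⟨j, hj, b1, b2⟩ := hA.2
  have hJ : jj p.r V π k0 ≤ j := by
    by_contra hh
    exact b1 (hV.up j _ _ (ch_mono π (by omega)) ((jj_spec hV π k0 j).2 (by omega)))
  have b3 : Vb p V π k0 (ch π (k0 + (t + p.s))) := by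
    rw [← add_assoc]
    exact hV.anti hJ _ b2
  rw [ind_pos hA]
  by_cases hb : Vb p V π k0 (ch π (k0 + (t - p.T)))
  swap
  · rw [ind_pos ⟨hA.1, b3, hb⟩]
    linarith
  have hb0 : ¬ V (jj p.r V π k0) (ch π k0) := fun hh => lt_irrefl _ ((jj_spec hV π k0 _).1 hh)
  obtain ⟨a, c1, c2, c3, c4⟩ := mass_cross
    (fun a => V (jj p.r V π k0) (ch π (k0 + t - a))) (T := p.T) (t := t)
    (by
      have e : k0 + t - p.T = k0 + (t - p.T) := by omega
      show V (jj p.r V π k0) (ch π (k0 + t - p.T))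
      rw [e]
      exact hb)
    (by
      show ¬ V (jj p.r V π k0) (ch π (k0 + t - t))
      rw [Nat.add_sub_cancel]
      exact hb0) (by omega)
  have d1 : (1 : ℝ) ≤ ∑ j ∈ range p.r, ind (a < k0 + t ∧ ch π (k0 + t) ∈ F ∧
      Mk p.r V p.s π (k0 + t) ∧ V j (ch π (k0 + t - a)) ∧ ¬ V j (ch π (k0 + t - a - 1))) := by
    rw [← ind_pos trivial]
    exact ind_le_sum _ _ fun _ => ⟨jj p.r V π k0, mem_range.2 (by omega), by omega, hA.1, hA.2,
      c3, c4⟩
  have d2 := single_le_sum (f := fun a => ∑ j ∈ range p.r, ind (a < k0 + t ∧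
      ch π (k0 + t) ∈ F ∧ Mk p.r V p.s π (k0 + t) ∧ V j (ch π (k0 + t - a)) ∧
        ¬ V j (ch π (k0 + t - a - 1))))
    (fun a _ => sum_nonneg fun j _ => ind_nonneg _) (mem_Ico.2 ⟨c1, (by omega : a < p.l)⟩)
  have d3 := ind_nonneg (ch π (k0 + t) ∈ F ∧ Vb p V π k0 (ch π (k0 + (t + p.s))) ∧
      ¬ Vb p V π k0 (ch π (k0 + (t - p.T))))
  linarith

lemma mass_shift (g : ℕ → ℝ) {N w t : ℕ} (h0 : ∀ k ≤ n, (k < w ∨ n < k + w) → g k = 0)
    (h1 : t ≤ w) (h2 : n ≤ N + w) (h3 : N + t ≤ n) :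
    ∑ k ∈ range (n + 1), g k = ∑ k0 ∈ range (N + 1), g (k0 + t) := by
  have e : ∑ k0 ∈ range (N + 1), g (k0 + t) = ∑ k ∈ Ico t (N + 1 + t), g k := by
    rw [sum_Ico_eq_sum_range, Nat.add_sub_cancel]
    exact sum_congr rfl fun k _ => by rw [add_comm]
  rw [e]
  symm
  refine sum_subset (fun k hk => ?_) fun k hk hk' => ?_
  · have := mem_Ico.1 hk
    exact mem_range.2 (by omega)
  · have a := mem_range.1 hk
    rw [mem_Ico] at hk'
    exact h0 k (by omega) (by omega)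

/-- Paper, section B3. -/
theorem mass_ge {w : ℕ} {p : Pr} (hp : p.Ok n w) {F : Finset (B n)} (hF : Mid F w)
    {V : ℕ → B n → Prop} (hV : Sys p.r w V) :
    ((p.hi : ℝ) - p.lo - (p.T + p.s)) *
        (lamM p.r F V p.s - ∑ a ∈ Ico p.T p.l, zs p.r F V p.s a) ≤
      ∑ k0 ∈ range (n - p.l - p.d + 1), av (muB p F V k0 ∅) := by
  classical
  have hlw := hp.lw
  have hwn := hp.wn
  have h3 := hp.XM
  have h4 := hp.zone
  have h6 : p.hi = p.l - p.c ^ 2 := rfl
  have hc : ((p.hi : ℝ) - p.lo - (p.T + p.s)) = ((Ico (p.lo + p.T) (p.hi - p.s)).card : ℝ) := by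
    have e : (Ico (p.lo + p.T) (p.hi - p.s)).card + p.lo + (p.T + p.s) = p.hi := by
      rw [Nat.card_Ico]
      omega
    have e' : ((Ico (p.lo + p.T) (p.hi - p.s)).card : ℝ) + p.lo + (p.T + p.s) = p.hi := by
      exact_mod_cast e
    linarith
  have hz : ∀ k ≤ n, (k < w ∨ n < k + w) → (av fun π => massG p F V π k) = 0 := by
    intro k hk hk'
    have : ∀ π : Pm n, massG p F V π k = 0 := fun π => massG_zero p V fun hh => by
      have := hF _ hh
      rw [card_ch π hk] at this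
      omega
    simp only [this]
    exact av_zero
  rw [hc, mass_eq, ← nsmul_eq_mul, ← sum_const]
  have e1 : ∀ t ∈ Ico (p.lo + p.T) (p.hi - p.s),
      (∑ k ∈ range (n + 1), av fun π => massG p F V π k) =
        ∑ k0 ∈ range (n - p.l - p.d + 1), av fun π => massG p F V π (k0 + t) := by
    intro t ht
    have := (mem_Ico.1 ht).2
    exact mass_shift (fun k => av fun π => massG p F V π k) hz (by omega) (by omega) (by omega)
  rw [sum_congr rfl e1, sum_comm]
  refine sum_le_sum fun k0 _ => ?_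
  have e2 : av (muB p F V k0 ∅) = av (gX p F V k0 ∅) := av_Av _ _
  rw [e2, ← av_sum]
  refine av_mono fun π => ?_
  refine (sum_le_sum fun t ht => massG_le hp F hV π k0 ht).trans ?_
  rw [sum_ind]
  unfold gX gd
  exact le_of_eq (by congr)

end Pool.Agent.Work.MP_84019e_co.Str
end

-- merged part: Pool.Agent.Work.MP_84019e_co.Str.Sel
section
set_option autoImplicit false

namespace Pool.Agent.Work.MP_84019e_co.Str

open Finset Pool.Agent.Work.MP_84019e_co.Cube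

/-- Paper, section SEL. -/
theorem sel_dir {r d m : ℕ} (I : Finset ℕ) (hI : I.card ≤ r) (v w : ℕ → Fin d → ℝ) (μ : ℕ → ℝ)
    {X η e L : ℝ} (hη : 0 < η) (he : 0 < e) (hm : 0 < m) (hmd : m ≤ d)
    (hμ : ∀ j ∈ I, 0 ≤ μ j ∧ μ j ≤ X) (hw : ∀ j ∈ I, ∀ z, 0 ≤ w j z)
    (hv : ∀ j ∈ I, ∀ z, v j z ≤ μ j * (2 - w j z))
    (hd : 2 * r * X * m * (2 / η + 3) ^ r ≤ d * e)
    (hL : L ≤ av fun z : Fin d => ∑ j ∈ I, max (v j z) 0) :
    ∃ (Sm : Fin m ↪ Fin d) (J : Finset ℕ) (w0 : ℕ → ℝ), J ⊆ I ∧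
      (∀ j ∈ J, 0 ≤ w0 j ∧ w0 j ≤ 2 ∧
        ∀ i, 0 < v j (Sm i) ∧ w0 j ≤ w j (Sm i) ∧ w j (Sm i) ≤ w0 j + η) ∧
      L - e ≤ ∑ j ∈ J, μ j * (2 - w0 j) := by
  classical
  rcases le_or_gt (L - e) 0 with hLe | hLe
  · exact ⟨Fin.castLEEmb hmd, ∅, fun _ => 0, empty_subset _, by simp, by simpa using hLe⟩
  have hw2 : ∀ j ∈ I, ∀ z, 0 < v j z → w j z ≤ 2 := fun j hj z h => by
    by_contra h2
    have := mul_nonpos_of_nonneg_of_nonpos (hμ j hj).1 (show 2 - w j z ≤ 0 by linarith)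
    linarith [hv j hj z]
  have hd0 : (0 : ℝ) < d := by exact_mod_cast hm.trans_le hmd
  have hX : 0 ≤ X := by
    rcases I.eq_empty_or_nonempty with rfl | ⟨j, hj⟩
    · simp only [sum_empty, av_zero] at hL
      linarith
    · exact (hμ j hj).1.trans (hμ j hj).2
  have hs : ∀ z, ∑ j ∈ I, max (v j z) 0 ≤ 2 * r * X := fun z => by
    have h1 := sum_le_card_nsmul I (fun j => max (v j z) 0) (2 * X) fun j hj => by
      have := hv j hj z
      have := mul_nonneg (hμ j hj).1 (hw j hj z)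
      have := (hμ j hj).2
      exact max_le (by nlinarith) (by linarith)
    have h2 : (I.card : ℝ) ≤ r := by exact_mod_cast hI
    rw [nsmul_eq_mul] at h1
    nlinarith
  set Z : Finset (Fin d) := univ.filter fun z => L - e ≤ ∑ j ∈ I, max (v j z) 0 with hZ
  have hZ1 : d * e ≤ 2 * r * X * Z.card := by
    have h1 : ∑ z : Fin d, ∑ j ∈ I, max (v j z) 0 ≤
        ∑ z : Fin d, (L - e + 2 * r * X * ind (L - e ≤ ∑ j ∈ I, max (v j z) 0)) :=
      sum_le_sum fun z _ => by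
        by_cases h : L - e ≤ ∑ j ∈ I, max (v j z) 0
        · rw [ind_pos h]
          linarith [hs z]
        · rw [ind_neg h]
          linarith [not_le.mp h]
    rw [sum_add_distrib, ← mul_sum, sum_ind, sum_const, card_univ, Fintype.card_fin,
      nsmul_eq_mul] at h1
    rw [av, Fintype.card_fin, le_div_iff₀ hd0] at hL
    linarith
  have hpos : 0 < 2 * r * X := by
    by_contra h
    have := mul_nonpos_of_nonpos_of_nonneg (not_lt.mp h) (Nat.cast_nonneg (α := ℝ) Z.card)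
    nlinarith
  have hZ2 : (⌊2 / η⌋₊ + 2) ^ I.card * m ≤ Z.card := by
    have h1 : (m : ℝ) * (2 / η + 3) ^ r ≤ Z.card :=
      le_of_mul_le_mul_left (by linarith) hpos
    have h2 : (0 : ℝ) ≤ 2 / η := by positivity
    have h3 : ((⌊2 / η⌋₊ : ℝ) + 2) ^ I.card ≤ (2 / η + 3) ^ r :=
      (pow_le_pow_left₀ (by positivity) (by linarith [Nat.floor_le h2]) _).trans
        (pow_le_pow_right₀ (by linarith) hI)
    have h4 : ((⌊2 / η⌋₊ : ℝ) + 2) ^ I.card * m ≤ Z.card := by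
      rw [mul_comm]
      exact (mul_le_mul_of_nonneg_left h3 (Nat.cast_nonneg m)).trans h1
    exact_mod_cast h4
  obtain ⟨y, -, hy⟩ := exists_le_card_fiber_of_mul_le_card_of_maps_to (s := Z)
    (t := Fintype.piFinset fun _ : I => range (⌊2 / η⌋₊ + 2))
    (f := fun z (j : I) => if 0 < v j z then ⌊w j z / η⌋₊ + 1 else 0) (n := m)
    (fun z _ => Fintype.mem_piFinset.mpr fun j => by
      rw [mem_range]
      split_ifs with h
      · have := Nat.floor_le_floor (div_le_div_of_nonneg_right (hw2 j j.2 z h) hη.le)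
        omega
      · omega)
    ⟨fun _ => 0, Fintype.mem_piFinset.mpr fun _ => by simp⟩ (by simpa using hZ2)
  have hS := fun i => mem_filter.mp (orderEmbOfCardLe_mem _ hy i)
  set Sm := orderEmbOfCardLe _ hy
  refine ⟨Sm.toEmbedding, I.filter fun j => 0 < v j (Sm ⟨0, hm⟩),
    fun j => η * ⌊w j (Sm ⟨0, hm⟩) / η⌋₊, filter_subset _ _, fun j hj => ?_, ?_⟩
  · obtain ⟨hj, h0⟩ := mem_filter.mp hj
    have hf : ∀ z, η * (⌊w j z / η⌋₊ : ℝ) ≤ w j z ∧ w j z ≤ η * (⌊w j z / η⌋₊ : ℝ) + η :=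
      fun z => by
        have h1 := Nat.floor_le (div_nonneg (hw j hj z) hη.le)
        have h2 := (Nat.lt_floor_add_one (w j z / η)).le
        rw [le_div_iff₀ hη] at h1
        rw [div_le_iff₀ hη] at h2
        constructor <;> linarith
    refine ⟨by positivity, (hf _).1.trans (hw2 j hj _ h0), fun i => ?_⟩
    have h1 := congrFun ((hS i).2.trans (hS ⟨0, hm⟩).2.symm) ⟨j, hj⟩
    simp only [if_pos h0] at h1
    by_cases h2 : 0 < v j (Sm i)
    · rw [if_pos h2, Nat.add_right_cancel_iff] at h1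
      refine ⟨h2, ?_⟩
      show η * (⌊w j (Sm ⟨0, hm⟩) / η⌋₊ : ℝ) ≤ w j (Sm i) ∧
        w j (Sm i) ≤ η * (⌊w j (Sm ⟨0, hm⟩) / η⌋₊ : ℝ) + η
      rw [← h1]
      exact hf _
    · rw [if_neg h2] at h1
      omega
  · refine (mem_filter.mp (hS ⟨0, hm⟩).1).2.trans ?_
    rw [sum_filter]
    refine sum_le_sum fun j hj => ?_
    split_ifs with h
    · rw [max_eq_left h.le]
      refine (hv j hj _).trans (mul_le_mul_of_nonneg_left ?_ (hμ j hj).1)
      have h1 := Nat.floor_le (div_nonneg (hw j hj (Sm ⟨0, hm⟩)) hη.le)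
      rw [le_div_iff₀ hη] at h1
      linarith
    · exact (max_eq_right (not_lt.mp h)).le

end Pool.Agent.Work.MP_84019e_co.Str
end

-- merged part: Pool.Agent.Work.MP_84019e_co.Str.ObA
section
set_option autoImplicit false

namespace Pool.Agent.Work.MP_84019e_co.Str

open Finset Pool.Agent.Work.MP_84019e_co.Cube

/-- Put `z` in or take it out. -/
def obA_tg {m : ℕ} (z : Fin m) (A : B m) : B m := if z ∈ A then A.erase z else insert z A

lemma obA_inv {m : ℕ} (z : Fin m) : Function.Involutive (obA_tg z) := fun A => by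
  by_cases h : z ∈ A
  · simp [obA_tg, h]
  · simp [obA_tg, h]

lemma obA_pair {m : ℕ} (z : Fin m) (g : B m → ℝ) :
    (av fun A : B m => ind (z ∉ A) * (g A + g (insert z A))) = av g := by
  have h1 : (av fun A : B m => ind (z ∉ A) * g (insert z A)) =
      av fun A : B m => ind (z ∈ A) * g A := by
    rw [← av_equiv (obA_inv z).toPerm fun A : B m => ind (z ∈ A) * g A]
    refine congrArg av (funext fun A => ?_)
    by_cases h : z ∈ A
    · simp [obA_tg, h, ind]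
    · simp [obA_tg, h, ind]
  simp only [mul_add]
  rw [av_add, h1, ← av_add]
  refine congrArg av (funext fun A => ?_)
  rw [ind_not]
  ring

/-- Subsets and their indicators. -/
def obA_e (m : ℕ) : (Fin m → Bool) ≃ B m where
  toFun ε := univ.filter fun i => ε i = true
  invFun A i := decide (i ∈ A)
  left_inv ε := by
    funext i
    simp
  right_inv A := by
    ext i
    simp

lemma obA_e_up {m : ℕ} (ε : Fin m → Bool) (z : Fin m) :
    obA_e m (Function.update ε z (!ε z)) = obA_tg z (obA_e m ε) := by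
  ext i
  by_cases hi : i = z
  · subst hi
    cases h : ε i <;> simp [obA_e, obA_tg, h]
  · cases h : ε z <;> simp [obA_e, obA_tg, h, hi]

/-- The Poincare inequality on subsets. -/
theorem poin_B (m : ℕ) (f : B m → ℝ) :
    2 * (av fun A => (f A - av f) ^ 2) ≤
      ∑ z : Fin m, av fun A : B m => ind (z ∉ A) * (f (insert z A) - f A) ^ 2 := by
  have h := poin_var m fun ε => f (obA_e m ε)
  have h1 : ∀ z : Fin m, (av fun ε : Fin m → Bool =>
      (f (obA_e m ε) - f (obA_e m (Function.update ε z (!ε z)))) ^ 2) =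
      2 * av fun A : B m => ind (z ∉ A) * (f (insert z A) - f A) ^ 2 := fun z => by
    simp only [obA_e_up]
    rw [av_equiv (obA_e m) fun A => (f A - f (obA_tg z A)) ^ 2, ← obA_pair z, ← av_mul_left]
    refine congrArg av (funext fun A => ?_)
    by_cases hz : z ∈ A
    · simp [hz, ind]
    · rw [obA_tg, obA_tg, if_neg hz, if_pos (mem_insert_self z A), erase_insert hz]
      ring
  rw [sum_congr rfl fun z _ => h1 z, ← mul_sum, av_equiv (obA_e m) f,
    av_equiv (obA_e m) fun A => f A ^ 2] at h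
  rw [poin_av_sq]
  linarith only [h]

lemma av_pair {m : ℕ} (z : Fin m) (g : B m → ℝ) :
    (av fun A : B m => ind (z ∉ A) * (g A + g (insert z A))) = av g := obA_pair z g

variable {Ω : Type} [Fintype Ω] [Nonempty Ω] {m : ℕ}

omit [Fintype Ω] [Nonempty Ω] in
lemma ka_anti {ka : Ω → B m → ℤ} (h : ∀ ω A z, ka ω (insert z A) ≤ ka ω A) (ω : Ω)
    {A A' : B m} (hA : A ⊆ A') : ka ω A' ≤ ka ω A := by
  have key : ∀ J : B m, ka ω (J ∪ A) ≤ ka ω A := fun J => by
    induction J using Finset.induction_on with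
    | empty => rw [empty_union]
    | insert z J _ ih =>
      rw [insert_union]
      exact (h ω _ z).trans ih
  exact union_eq_left.2 hA ▸ key A'

lemma obA_min {a b M : ℝ} (ha : 0 ≤ a) (hb : 0 ≤ b) (hM : 0 ≤ M) :
    min (a + b) M ≤ min a M + min b M ∧ min b M ≤ min (a + b) M := by
  refine ⟨?_, min_le_min_right _ (le_add_of_nonneg_left ha)⟩
  simp only [min_def]
  split_ifs <;> linarith

/-- Paper, section OB (a). -/
theorem out_le {ka : Ω → B m → ℤ} {Gd : Ω → B m → Finset ℤ} {s T T2 M R : ℕ} {w μ e1 σ : ℝ}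
    (h : OH ka Gd s T T2 M w μ e1 σ) (hw : w ≤ 2) (he : e1 ≤ 1) (hσ : 0 ≤ σ) (hM : 0 < M)
    (hR : 2 ≤ R) :
    (av fun A : B m => av fun ω => ind (out ka M R ω A)) ≤
      3 * m / M + m * σ / ((R : ℝ) - 1) ^ 2 := by
  have hM' : (0 : ℝ) < M := by exact_mod_cast hM
  have hR' : (0 : ℝ) < R - 1 := by
    have : (2 : ℝ) ≤ R := by exact_mod_cast hR
    linarith only [this]
  have ha : ∀ ω {A A' : B m}, A ⊆ A' → (0 : ℝ) ≤ ka ω A - ka ω A' := fun ω A A' hA =>
    sub_nonneg.2 (Int.cast_le.2 (ka_anti h.anti ω hA))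
  obtain ⟨f, hf⟩ : ∃ f : Ω → B m → ℝ, f = fun ω A => min ((ka ω A : ℝ) - ka ω univ) M := ⟨_, rfl⟩
  have h1 : ∀ A J : B m, (av fun ω => min ((ka ω A : ℝ) - ka ω (J ∪ A)) M) ≤ 3 * J.card :=
    fun A J => by
      induction J using Finset.induction_on with
      | empty => simpa [hM'.le] using (av_zero (Ω := Ω)).le
      | insert z J hz ih =>
        rw [insert_union, card_insert_of_notMem hz, Nat.cast_succ]
        by_cases h2 : z ∈ J ∪ A
        · rw [insert_eq_of_mem h2]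
          linarith only [ih]
        · have h3 : (av fun ω => min ((ka ω A : ℝ) - ka ω (insert z (J ∪ A))) M) ≤
              av fun ω => min ((ka ω A : ℝ) - ka ω (J ∪ A)) M + jm ka M ω (J ∪ A) z :=
            av_mono fun ω => (sub_add_sub_cancel (ka ω A : ℝ) _ _).symm ▸
              (obA_min (ha ω subset_union_right) (ha ω (subset_insert z _)) hM'.le).1
          rw [av_add] at h3
          linarith only [h3, ih, (abs_le.1 (h.h1 _ z h2)).2, hw, he]
  have h2 : ∀ A, (av fun ω => f ω A) ≤ 3 * m := fun A => by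
    simpa only [hf, union_eq_left.2 (subset_univ A), card_univ, Fintype.card_fin] using h1 A univ
  have h3 : ∀ ω A z, (f ω (insert z A) - f ω A) ^ 2 ≤ jm ka M ω A z ^ 2 := fun ω A z => by
    have h4 := obA_min (ha ω (subset_insert z A)) (ha ω (subset_univ (insert z A))) hM'.le
    rw [sub_add_sub_cancel] at h4
    rw [hf, jm]
    refine sq_le_sq' ?_ ?_
    · linarith only [h4.1]
    · linarith only [h4.2, le_min (ha ω (subset_insert z A)) hM'.le]
  have h4 : 2 * (av fun ω => av fun A => (f ω A - av (f ω)) ^ 2) ≤ m * σ := by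
    rw [← av_mul_left]
    refine (av_mono fun ω => (poin_B m (f ω)).trans (sum_le_sum fun z _ => av_mono fun A =>
      mul_le_mul_of_nonneg_left (h3 ω A z) (ind_nonneg _))).trans ?_
    rw [av_sum]
    refine (sum_le_card_nsmul _ _ σ fun z _ => ?_).trans_eq (by simp)
    rw [av_comm]
    refine av_le fun A => ?_
    rw [av_mul_left]
    by_cases hz : z ∉ A
    · rw [ind_pos hz, one_mul]
      exact h.h2 A z hz
    · rw [ind_neg hz, zero_mul]
      exact hσ
  have h5 : ∀ A ω, ind (out ka M R ω A) ≤ f ω A / M + (f ω A - av (f ω)) ^ 2 / ((R : ℝ) - 1) ^ 2 :=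
    fun A ω => by
      have h6 : 0 ≤ f ω A / M := div_nonneg (hf ▸ le_min (ha ω (subset_univ A)) hM'.le) hM'.le
      have h7 : 0 ≤ (f ω A - av (f ω)) ^ 2 / ((R : ℝ) - 1) ^ 2 := by positivity
      by_cases ho : out ka M R ω A
      · rw [ind_pos ho]
        rcases le_total ((ka ω A : ℝ) - ka ω univ) M with h8 | h8
        · have h9 : f ω A = ka ω A - ka ω univ := hf ▸ min_eq_left h8
          have h10 : (R : ℝ) < |(ka ω A : ℝ) - (ka ω univ + ⌊av (f ω)⌋)| := by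
            have a : (R : ℤ) < |ka ω A - (ka ω univ + ⌊av (f ω)⌋)| := hf ▸ ho
            exact_mod_cast a
          have h11 : (R : ℝ) - 1 ≤ |f ω A - av (f ω)| := by
            have a := Int.floor_le (av (f ω))
            have b := Int.lt_floor_add_one (av (f ω))
            rw [h9]
            rcases lt_abs.1 h10 with c | c
            · exact le_abs.2 (Or.inl (by linarith only [b, c]))
            · exact le_abs.2 (Or.inr (by linarith only [a, c]))
          have h12 := pow_le_pow_left₀ hR'.le h11 2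
          rw [sq_abs] at h12
          linarith only [h6, (one_le_div (pow_pos hR' 2)).2 h12]
        · have h9 : f ω A = M := hf ▸ min_eq_right h8
          linarith only [h7, (div_eq_one_iff_eq hM'.ne').2 h9]
      · rw [ind_neg ho]
        linarith only [h6, h7]
  refine (av_mono fun A => av_mono fun ω => h5 A ω).trans ?_
  simp only [av_add, av_div]
  refine add_le_add (div_le_div_of_nonneg_right (av_le h2) hM'.le)
    (div_le_div_of_nonneg_right ?_ (by positivity))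
  rw [av_comm]
  linarith only [h4, mul_nonneg (Nat.cast_nonneg m) hσ]

end Pool.Agent.Work.MP_84019e_co.Str
end

-- merged part: Pool.Agent.Work.MP_84019e_co.Str.ObB
section
set_option autoImplicit false

namespace Pool.Agent.Work.MP_84019e_co.Str

open Finset Pool.Agent.Work.MP_84019e_co.Cube

variable {Ω : Type} [Fintype Ω] [Nonempty Ω] {m : ℕ}

lemma obb_pt {a a' L R' M T2 i : ℝ} (h : a' ≤ a) (h0 : 0 ≤ R') (h1 : R' ≤ M) (hT : 0 ≤ T2)
    (hi : 1 ≤ i ∨ (0 ≤ i ∧ 0 ≤ L - a ∧ L - a' ≤ R')) :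
    0 ≤ max 0 (min (L - a') R') - max 0 (min (L - a) R') ∧
      max 0 (min (L - a') R') - max 0 (min (L - a) R') ≤ min (a - a') M ∧
      min (a - a') M - (max 0 (min (L - a') R') - max 0 (min (L - a) R')) ≤
        T2 * i + max (min (a - a') M - T2) 0 := by
  have k1 : 0 ≤ max 0 (min (L - a') R') - max 0 (min (L - a) R') :=
    sub_nonneg.2 (max_le_max le_rfl (min_le_min (by linarith) le_rfl))
  refine ⟨k1, ?_, ?_⟩
  · simp only [max_def, min_def]
    split_ifs <;> linarith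
  · rcases hi with hi | ⟨a1, a2, a3⟩
    · linarith [le_max_left (min (a - a') M - T2) 0, mul_le_mul_of_nonneg_left hi hT]
    · rw [min_eq_left a3, min_eq_left (by linarith : L - a ≤ R'), max_eq_right a2,
        max_eq_right (by linarith : 0 ≤ L - a')]
      linarith [min_le_left (a - a') M, le_max_right (min (a - a') M - T2) 0, mul_nonneg hT a1]

lemma obb_step {ka : Ω → B m → ℤ} {Gd : Ω → B m → Finset ℤ} {s T T2 M R R' : ℕ}
    {w μ e1 σ : ℝ} (h : OH ka Gd s T T2 M w μ e1 σ) (hw : w ≤ 2) (he : e1 ≤ 1)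
    (h1 : R' ≤ M) (h2 : 2 * R + s + 2 * T ≤ R') {A : B m} {z : Fin m} (hz : z ∉ A) :
    (psi ka M R s T R' w (insert z A) - psi ka M R s T R' w A) ^ 2 ≤
      (e1 ^ 2 + 3 * e1 + 6 * T2 * av fun ω => ind (out ka M R ω A)) +
        (e1 ^ 2 + 3 * e1 + 6 * T2 * av fun ω => ind (out ka M R ω (insert z A))) := by
  have k := fun ω => obb_pt (a := ka ω A) (a' := ka ω (insert z A))
    (L := (cen ka M ω : ℝ) - R - s - 2 * T + R') (R' := R') (M := M) (T2 := T2)
    (i := ind (out ka M R ω A) + ind (out ka M R ω (insert z A)))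
    (by exact_mod_cast h.anti ω A z) (Nat.cast_nonneg _) (by exact_mod_cast h1) (Nat.cast_nonneg _)
    (by
      have b1 := ind_nonneg (out ka M R ω A)
      have b2 := ind_nonneg (out ka M R ω (insert z A))
      by_cases a1 : out ka M R ω A
      · exact Or.inl (by linarith [ind_pos a1])
      by_cases a2 : out ka M R ω (insert z A)
      · exact Or.inl (by linarith [ind_pos a2])
      have a3 := (abs_le.1 (not_lt.1 a1)).2
      have a4 := (abs_le.1 (not_lt.1 a2)).1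
      refine Or.inr ⟨by linarith, ?_, ?_⟩
      · exact_mod_cast (by omega : (0 : ℤ) ≤ cen ka M ω - R - s - 2 * T + R' - ka ω A)
      · exact_mod_cast (by omega : cen ka M ω - R - s - 2 * T + R' - ka ω (insert z A) ≤ (R' : ℤ)))
  have k1 := av_nonneg fun ω => (k ω).1
  have k2 := av_mono fun ω => (k ω).2.1
  have k3 := av_mono fun ω => (k ω).2.2
  rw [av_sub] at k1 k2
  rw [av_sub, av_sub, av_add, av_mul_left, av_add] at k3
  obtain ⟨k4, k5⟩ := abs_le.1 (h.h1 A z hz)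
  have k6 := h.h3 A z hz
  simp only [psi, ph, card_insert_of_notMem hz, Nat.cast_add, Nat.cast_one]
  simp only [jm] at k4 k5 k6
  generalize (av fun ω => min ((ka ω A : ℝ) - ka ω (insert z A)) M) = J at *
  generalize (av fun ω => max 0 (min ((cen ka M ω : ℝ) - R - s - 2 * T + R' - ka ω A) R')) = x at *
  generalize (av fun ω => max 0 (min ((cen ka M ω : ℝ) - R - s - 2 * T + R' -
    ka ω (insert z A)) R')) = y at *
  have k7 : (J - w) ^ 2 ≤ e1 ^ 2 := sq_le_sq' k4 k5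
  have k8 : (J - (y - x)) ^ 2 ≤ 3 * (J - (y - x)) := by nlinarith
  nlinarith [sq_nonneg (J - w + (J - (y - x)))]

/-- Paper, section OB (c). -/
theorem psi_var {ka : Ω → B m → ℤ} {Gd : Ω → B m → Finset ℤ} {s T T2 M R R' : ℕ}
    {w μ e1 σ β : ℝ} (h : OH ka Gd s T T2 M w μ e1 σ) (hw : w ≤ 2) (he0 : 0 ≤ e1) (he : e1 ≤ 1)
    (h1 : R' ≤ M) (h2 : 2 * R + s + 2 * T ≤ R')
    (hβ : (av fun A : B m => av fun ω => ind (out ka M R ω A)) ≤ β) :
    (av fun A : B m => (psi ka M R s T R' w A - av (psi ka M R s T R' w)) ^ 2) ≤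
      m * (2 * e1 ^ 2 + 6 * (2 * T2 * β + e1)) := by
  have b0 : 0 ≤ β := (av_nonneg fun _ => av_nonneg fun _ => ind_nonneg _).trans hβ
  have k := (poin_B m (psi ka M R s T R' w)).trans (sum_le_card_nsmul _ _
    (e1 ^ 2 + 3 * e1 + 6 * T2 * β) fun z _ => by
      refine (av_mono fun A => ?_).trans ((av_pair z fun A =>
        e1 ^ 2 + 3 * e1 + 6 * T2 * av fun ω => ind (out ka M R ω A)).trans_le ?_)
      · by_cases hz : z ∈ A
        · rw [ind_neg (not_not.2 hz), zero_mul, zero_mul]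
        · exact mul_le_mul_of_nonneg_left (obb_step h hw he h1 h2 hz) (ind_nonneg _)
      · rw [av_add, av_const, av_mul_left]
        gcongr)
  rw [card_univ, Fintype.card_fin, nsmul_eq_mul] at k
  have : 0 ≤ (m : ℝ) * (e1 ^ 2 + 3 * e1 + 6 * T2 * β) := by positivity
  linarith

end Pool.Agent.Work.MP_84019e_co.Str
end

-- merged part: Pool.Agent.Work.MP_84019e_co.Str.Ord
section
set_option autoImplicit false

namespace Pool.Agent.Work.MP_84019e_co.Str

open Finset Pool.Agent.Work.MP_84019e_co.Cube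

/-- Paper, section A0 without the exclusion relation. -/
theorem order_sel {Ω X : Type} [Fintype Ω] [Nonempty Ω] [PartialOrder X] (N : ℕ) (hN : 0 < N)
    (J : Finset X) (a b good : Ω → X → Prop)
    (ha : ∀ ω x y, x ≤ y → a ω x → a ω y) (hb : ∀ ω x y, x ≤ y → b ω x → b ω y)
    (hgood : ∀ ω x, good ω x → a ω x ∧ ¬ b ω x)
    {p q u Δ x : ℝ} (hx : 0 < x) (hΔ : 0 ≤ Δ) (hq0 : 0 ≤ q)
    (hp : ∀ A ∈ J, p ≤ av fun ω => ind (good ω A))
    (hq : ∀ A ∈ J, (av fun ω => ind (a ω A ∧ ¬ b ω A)) ≤ q)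
    (hu : ∀ A ∈ J, u ≤ (av fun ω => ind (b ω A)) ∧ (av fun ω => ind (b ω A)) ≤ u + Δ)
    (hκ : 0 ≤ 1 - N * q - N / x ^ 2) :
    ∃ G ⊆ J, (∃ ι : X → Ω, (∀ A ∈ G, good (ι A) A) ∧ ∀ A ∈ G, ∀ A' ∈ G, A ≤ A' → ι A = ι A') ∧
      J.card * (N * (p * (1 - N * q - N / x ^ 2))) ≤ G.card * (N * Δ + 2 * x + 1) := by
  classical
  have : Nonempty (Fin N) := ⟨⟨0, hN⟩⟩
  obtain ⟨Gd, hGd⟩ : ∃ Gd : (Fin N → Ω) → X → Fin N → Prop, Gd = fun ω A i =>
      good (ω i) A ∧ (∀ j ∈ univ.erase i, ¬ (a (ω j) A ∧ ¬ b (ω j) A)) ∧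
        (∀ j ∈ univ.erase i, ¬ False) ∧
        |∑ j ∈ univ.erase i, (ind (b (ω j) A) - av fun t => ind (b t A))| ≤ x := ⟨_, rfl⟩
  have hcard : ∀ i : Fin N, ((univ.erase i).card : ℝ) = N - 1 := fun i => by
    rw [card_erase_of_mem (mem_univ i), card_univ, Fintype.card_fin, Nat.cast_sub hN, Nat.cast_one]
  have h1 : ∀ A ∈ J, ∀ i, p * (1 - N * q - N / x ^ 2) ≤
      av fun ω : Fin N → Ω => ind (Gd ω A i) := fun A hA i => by
    rw [hGd]
    refine le_trans ?_ (av_mono fun ω => ord_point (univ.erase i) _ _ hx)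
    simp only [ind_neg not_false, sum_const_zero, sub_zero]
    have e2 : (av fun ω : Fin N → Ω => ∑ j ∈ univ.erase i, ind (a (ω j) A ∧ ¬ b (ω j) A)) ≤
        N * q := by
      rw [av_sum]
      refine (sum_le_card_nsmul _ _ q fun j _ => ?_).trans ?_
      · exact (ord_one j fun t => ind (a t A ∧ ¬ b t A)).trans_le (hq A hA)
      · rw [nsmul_eq_mul, hcard]
        linarith
    have e3 := ord_var (univ.erase i) (fun t => ind (b t A) - av fun t => ind (b t A))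
      (by rw [av_sub, av_const, sub_self]) fun t => by
        have := ind_nonneg (b t A)
        have := ind_le_one (b t A)
        have : 0 ≤ av fun t => ind (b t A) := av_nonneg fun _ => ind_nonneg _
        have : (av fun t => ind (b t A)) ≤ 1 := av_le fun _ => ind_le_one _
        nlinarith
    have e4 := div_le_div_of_nonneg_right e3 (sq_nonneg x)
    have e5 : 0 ≤ av fun t => ind (good t A) := av_nonneg fun _ => ind_nonneg _
    rw [ord_indep i (fun t => ind (good t A)) _ fun ω t => ?_, av_sub, av_sub, av_const,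
      av_div]
    · refine (mul_le_mul_of_nonneg_right (hp A hA) hκ).trans (mul_le_mul_of_nonneg_left ?_ e5)
      linarith
    · have e : ∀ F : Ω → ℝ, ∑ j ∈ univ.erase i, F (Function.update ω i t j) =
          ∑ j ∈ univ.erase i, F (ω j) := fun F =>
        sum_congr rfl fun j hj => by rw [Function.update_of_ne (ne_of_mem_erase hj)]
      rw [e fun s => ind (a s A ∧ ¬ b s A), e fun s => ind (b s A) - av fun t => ind (b t A)]
  obtain ⟨ω, hω⟩ := exists_ge_av fun ω : Fin N → Ω => ∑ A ∈ J, ∑ i, ind (Gd ω A i)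
  have h2 : J.card * (N * (p * (1 - N * q - N / x ^ 2))) ≤
      ∑ A ∈ J, ∑ i, ind (Gd ω A i) := by
    refine le_trans ?_ hω
    rw [av_sum, ← nsmul_eq_mul]
    refine card_nsmul_le_sum _ _ _ fun A hA => ?_
    rw [av_sum]
    have := card_nsmul_le_sum univ (fun i => av fun ω : Fin N → Ω => ind (Gd ω A i)) _
      fun i _ => h1 A hA i
    rwa [card_univ, Fintype.card_fin, nsmul_eq_mul] at this
  have h3 : ∀ A B i j, Gd ω A i → Gd ω B j → A ≤ B → (b (ω i) B → b (ω i) A) → i = j := by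
    intro A B i j hi hj hAB hbb
    rw [hGd] at hi hj
    by_contra hij
    obtain ⟨g1, g2⟩ := hgood _ _ hi.1
    exact hj.2.1 i (mem_erase.2 ⟨hij, mem_univ i⟩) ⟨ha _ _ _ hAB g1, fun h => g2 (hbb h)⟩
  have h4 : ∑ A ∈ J, ∑ i, ind (Gd ω A i) ≤ (J.filter fun A => ∃ i, Gd ω A i).card := by
    rw [← sum_ind]
    exact sum_le_sum fun A _ => sum_ind_le _ _ (fun i _ h => ⟨i, h⟩)
      fun i _ j _ hi hj => h3 A A i j hi hj le_rfl id
  have hN1 : (0 : ℝ) ≤ N - 1 := by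
    have : (1 : ℝ) ≤ N := by exact_mod_cast hN
    linarith
  obtain ⟨ρ, hρ⟩ := ord_pigeon (J.filter fun A => ∃ i, Gd ω A i)
    (fun A => (univ.filter fun j => b (ω j) A).card) (lo := (N - 1) * u - x)
    (hi := (N - 1) * (u + Δ) + x) (by nlinarith) fun A hA => by
      obtain ⟨hA, i, hi⟩ := mem_filter.1 hA
      rw [hGd] at hi
      have e := abs_le.1 hi.2.2.2
      rw [sum_sub_distrib, sum_const, nsmul_eq_mul, hcard] at e
      rw [← sum_ind, ← add_sum_erase _ _ (mem_univ i), ind_neg (hgood _ _ hi.1).2, zero_add]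
      have e1 := mul_le_mul_of_nonneg_left (hu A hA).1 hN1
      have e2 := mul_le_mul_of_nonneg_left (hu A hA).2 hN1
      constructor <;> linarith [e.1, e.2]
  refine ⟨_, (filter_subset _ _).trans (filter_subset _ _), ?_, h2.trans (h4.trans (hρ.trans
    (mul_le_mul_of_nonneg_left (by linarith) (Nat.cast_nonneg _))))⟩
  have h5 : ∀ A ∈ (J.filter fun A => ∃ i, Gd ω A i).filter
      fun A => (univ.filter fun j => b (ω j) A).card = ρ, ∃ i, Gd ω A i :=
    fun A hA => (mem_filter.1 (mem_filter.1 hA).1).2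
  choose! idx hidx using h5
  refine ⟨fun A => ω (idx A), fun A hA => ?_, fun A hA B hB hAB => ?_⟩
  · have := hidx A hA
    rw [hGd] at this
    exact this.1
  · have e : (univ.filter fun j => b (ω j) A) = univ.filter fun j => b (ω j) B :=
      eq_of_subset_of_card_le (fun j hj => mem_filter.2 ⟨mem_univ j, hb _ _ _ hAB
        (mem_filter.1 hj).2⟩) ((mem_filter.1 hB).2.trans (mem_filter.1 hA).2.symm).le
    exact congrArg ω (h3 A B _ _ (hidx A hA) (hidx B hB) hAB fun h =>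
      (mem_filter.1 (e ▸ mem_filter.2 ⟨mem_univ _, h⟩ :
        idx A ∈ univ.filter fun j => b (ω j) A)).2)

end Pool.Agent.Work.MP_84019e_co.Str
end

-- merged part: Pool.Agent.Work.MP_84019e_co.Str.ObC
section
set_option autoImplicit false

namespace Pool.Agent.Work.MP_84019e_co.Str

open Finset Pool.Agent.Work.MP_84019e_co.Cube

lemma obc_cnt (a c : ℤ) (n : ℕ) :
    ∑ i ∈ range n, ind (a ≤ c + i) = ((max 0 (min (c + n - a) n) : ℤ) : ℝ) := by
  induction n with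
  | zero =>
    have : (max 0 (min (c + ((0 : ℕ) : ℤ) - a) ((0 : ℕ) : ℤ)) : ℤ) = 0 := by omega
    rw [this]
    simp
  | succ n ih =>
    rw [sum_range_succ, ih]
    by_cases h : a ≤ c + n
    · have : (max 0 (min (c + ((n + 1 : ℕ) : ℤ) - a) ((n + 1 : ℕ) : ℤ)) : ℤ) =
          max 0 (min (c + n - a) n) + 1 := by omega
      rw [ind_pos h, this, Int.cast_add, Int.cast_one]
    · have : (max 0 (min (c + ((n + 1 : ℕ) : ℤ) - a) ((n + 1 : ℕ) : ℤ)) : ℤ) =
          max 0 (min (c + n - a) n) := by omega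
      rw [ind_neg h, this, add_zero]

lemma obc_win (a c : ℤ) (s T n : ℕ) :
    ∑ i ∈ range n, ind (a ≤ c + i + s ∧ ¬ a ≤ c + i - T) ≤ (T : ℝ) + s := by
  have e : ∀ i : ℕ, ind (a ≤ c + i + s ∧ ¬ a ≤ c + i - T) =
      ind (a ≤ (c + s) + i) - ind (a ≤ (c - T) + i) := by
    intro i
    by_cases h : a ≤ (c - T) + i
    · rw [ind_neg (by omega), ind_pos h, ind_pos (by omega), sub_self]
    · rw [ind_neg h, sub_zero]
      exact ind_congr (by omega)
  simp only [e, sum_sub_distrib, obc_cnt]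
  have : (max 0 (min (c + s + n - a) n) : ℤ) - max 0 (min (c - T + n - a) n) ≤ T + s := by omega
  exact_mod_cast this

lemma obc_good (G : Finset ℤ) (c : ℤ) (n : ℕ) (h : ∀ k ∈ G, c ≤ k ∧ k < c + n) :
    (G.card : ℝ) ≤ ∑ i ∈ range n, ind (c + i ∈ G) := by
  classical
  rw [sum_ind]
  have h1 : G ⊆ ((range n).filter fun i : ℕ => c + i ∈ G).image fun i : ℕ => c + i := by
    intro k hk
    obtain ⟨h1, h2⟩ := h k hk
    have e : c + ((k - c).toNat : ℤ) = k := by omega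
    exact mem_image.2 ⟨(k - c).toNat, mem_filter.2 ⟨mem_range.2 (by omega), by rw [e]; exact hk⟩, e⟩
  exact_mod_cast (card_le_card h1).trans card_image_le

lemma obc_sum {m : ℕ} (f : B m → ℝ) : ∑ A, f A = 2 ^ m * av f := by
  have : (Fintype.card (B m) : ℝ) = 2 ^ m := by simp
  rw [av, this]
  field_simp

lemma obc_card {m : ℕ} (L : Finset (B m)) (f o : B m → ℝ) (ho : ∀ A, 0 ≤ o A) {β β1 ρ y : ℝ}
    (hβ : av o ≤ β) (hρ : (av fun A => f A ^ 2) ≤ ρ) (hy : 0 < y) (hβ1 : 0 < β1)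
    [DecidablePred fun A => |f A| ≤ y ∧ o A ≤ β1] :
    (L.card : ℝ) - 2 ^ m * (ρ / y ^ 2 + β / β1) ≤
      (L.filter fun A => |f A| ≤ y ∧ o A ≤ β1).card := by
  have hy2 : 0 < y ^ 2 := by positivity
  have h0 : ∀ A, 0 ≤ f A ^ 2 / y ^ 2 + o A / β1 := fun A => by
    have := ho A
    positivity
  have h1 : ∀ A, (1 : ℝ) ≤ ind (|f A| ≤ y ∧ o A ≤ β1) + (f A ^ 2 / y ^ 2 + o A / β1) := by
    intro A
    by_cases hA : |f A| ≤ y ∧ o A ≤ β1
    · rw [ind_pos hA]
      linarith [h0 A]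
    · rw [ind_neg hA, zero_add]
      rcases not_and_or.1 hA with h | h
      · have a1 : y ^ 2 ≤ f A ^ 2 := by
          rw [← sq_abs (f A)]
          exact pow_le_pow_left₀ hy.le (not_le.1 h).le 2
        have a2 : 1 ≤ f A ^ 2 / y ^ 2 := (one_le_div hy2).2 a1
        have a3 : 0 ≤ o A / β1 := div_nonneg (ho A) hβ1.le
        linarith
      · have a2 : 1 ≤ o A / β1 := (one_le_div hβ1).2 (not_le.1 h).le
        have a3 : 0 ≤ f A ^ 2 / y ^ 2 := by positivity
        linarith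
  have h2 : (L.card : ℝ) ≤ ∑ A ∈ L, (ind (|f A| ≤ y ∧ o A ≤ β1) +
      (f A ^ 2 / y ^ 2 + o A / β1)) := by
    have := card_nsmul_le_sum L _ (1 : ℝ) fun A _ => h1 A
    simpa using this
  rw [sum_add_distrib, sum_ind] at h2
  have h3 : ∑ A ∈ L, (f A ^ 2 / y ^ 2 + o A / β1) ≤ ∑ A, (f A ^ 2 / y ^ 2 + o A / β1) :=
    sum_le_sum_of_subset_of_nonneg (subset_univ L) fun A _ _ => h0 A
  rw [obc_sum, av_add, av_div, av_div] at h3
  have h4 : (av fun A => f A ^ 2) / y ^ 2 + av o / β1 ≤ ρ / y ^ 2 + β / β1 :=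
    add_le_add (div_le_div_of_nonneg_right hρ hy2.le) (div_le_div_of_nonneg_right hβ hβ1.le)
  have h5 := mul_le_mul_of_nonneg_left h4 (by positivity : (0 : ℝ) ≤ 2 ^ m)
  linarith

variable {Ω : Type} [Fintype Ω] [Nonempty Ω] {m : ℕ}

omit [Nonempty Ω] in
lemma obc_av (n : ℕ) (f : Ω → ℕ → ℝ) :
    (av fun p : Ω × Fin n => f p.1 p.2) = (av fun ω => ∑ i ∈ range n, f ω i) / n := by
  rw [av_prod, ← av_div]
  congr 1
  funext ω
  exact av_fin n (f ω)

omit [Nonempty Ω] in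
lemma obc_pt {ka : Ω → B m → ℤ} {Gd : Ω → B m → Finset ℤ} {s T T2 M R n : ℕ}
    {w μ e1 σ : ℝ} (h : OH ka Gd s T T2 M w μ e1 σ) (h2 : 2 * R + s + 2 * T ≤ n) (ω : Ω)
    (A : B m) :
    ((Gd ω A).card : ℝ) - ((T : ℝ) + s) * ind (out ka M R ω A) ≤
      ∑ i ∈ range n, ind (cen ka M ω - R - s - T + i ∈ Gd ω A) := by
  by_cases ho : out ka M R ω A
  · have h1 : Gd ω A ⊆ Ico (ka ω A - s) (ka ω A + T) := fun k hk => by
      have := h.win ω A k hk
      exact mem_Ico.2 ⟨by omega, by omega⟩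
    have h3 := card_le_card h1
    rw [Int.card_Ico] at h3
    have h4 : ((Gd ω A).card : ℝ) ≤ (T : ℝ) + s := by
      exact_mod_cast (by omega : (Gd ω A).card ≤ T + s)
    have h5 : 0 ≤ ∑ i ∈ range n, ind (cen ka M ω - R - s - T + i ∈ Gd ω A) :=
      sum_nonneg fun i _ => ind_nonneg _
    rw [ind_pos ho]
    linarith
  · rw [ind_neg ho, mul_zero, sub_zero]
    refine obc_good _ _ n fun k hk => ?_
    have h1 := h.win ω A k hk
    have h3 := abs_le.1 (not_lt.1 ho)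
    omega

/-- Paper, section OB (b) and (d), fixed parameters. -/
theorem ob_fixed {ka : Ω → B m → ℤ} {Gd : Ω → B m → Finset ℤ} {s T T2 M R N g S s0 : ℕ}
    {w μ e1 σ β β1 ρ x y b : ℝ} (h : OH ka Gd s T T2 M w μ e1 σ) (hw : 0 ≤ w)
    (hN : 0 < N) (hg : 0 < g) (h2 : 2 * R + s + 2 * T ≤ N * g)
    (hβ : (av fun A : B m => av fun ω => ind (out ka M R ω A)) ≤ β)
    (hρ : (av fun A : B m =>
      (psi ka M R s T (N * g) w A - av (psi ka M R s T (N * g) w)) ^ 2) ≤ ρ)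
    (hx : 0 < x) (hy : 0 < y) (hβ1 : 0 < β1)
    (hκ : 0 ≤ 1 - ((T : ℝ) + s) / g - N / x ^ 2) (hμ : 0 ≤ μ - ((T : ℝ) + s) * β1)
    (hb : ∀ t, s0 ≤ t → t < s0 + S → b ≤ m.choose t) :
    ∃ G ⊆ lay m s0 S, Sel Gd G ∧
      (S * b - 2 ^ m * (ρ / y ^ 2 + β / β1)) *
          ((μ - ((T : ℝ) + s) * β1) * (1 - ((T : ℝ) + s) / g - N / x ^ 2)) ≤
        G.card * (w * S + 2 * y + (2 * x + 1) * g) := by
  classical
  obtain ⟨n, hn⟩ : ∃ n, n = N * g := ⟨_, rfl⟩
  have hn0 : 0 < n := hn ▸ Nat.mul_pos hN hg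
  rw [← hn] at h2 hρ
  have : Nonempty (Fin n) := ⟨⟨0, hn0⟩⟩
  have hnr : (n : ℝ) = N * g := by rw [hn]; push_cast; ring
  have hNr : (0 : ℝ) < N := by exact_mod_cast hN
  have hgr : (0 : ℝ) < g := by exact_mod_cast hg
  have hnp : (0 : ℝ) < n := by exact_mod_cast hn0
  have hTs : (0 : ℝ) ≤ (T : ℝ) + s := by positivity
  obtain ⟨E, hE⟩ : ∃ E, E = av (psi ka M R s T n w) := ⟨_, rfl⟩
  rw [← hE] at hρ
  have hJ := obc_card (lay m s0 S) (fun A => psi ka M R s T n w A - E)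
    (fun A => av fun ω => ind (out ka M R ω A)) (fun A => av_nonneg fun ω => ind_nonneg _)
    hβ hρ hy hβ1
  have hL : S * b ≤ ((lay m s0 S).card : ℝ) := by
    rw [card_lay]
    push_cast
    have := card_nsmul_le_sum (Ico s0 (s0 + S)) (fun t => (m.choose t : ℝ)) b fun t ht =>
      hb t (mem_Ico.1 ht).1 (mem_Ico.1 ht).2
    simpa using this
  have e1' : (N : ℝ) * (((T : ℝ) + s) / n) = ((T : ℝ) + s) / g := by rw [hnr]; field_simp
  have hph : ∀ A : B m, (av fun p : Ω × Fin n =>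
      ind (ka p.1 A ≤ cen ka M p.1 - R - s - T + (p.2 : ℕ) - T)) = ph ka M R s T n A / n := by
    intro A
    rw [obc_av n fun ω i => ind (ka ω A ≤ cen ka M ω - R - s - T + i - T), ph]
    congr 2
    funext ω
    have e : ∀ i : ℕ, ind (ka ω A ≤ cen ka M ω - R - s - T + i - T) =
        ind (ka ω A ≤ (cen ka M ω - R - s - 2 * T) + i) := fun i => ind_congr (by omega)
    simp only [e, obc_cnt]
    push_cast
    rfl
  obtain ⟨G, hG, ⟨ι, hι1, hι2⟩, hin⟩ := order_sel (Ω := Ω × Fin n) N hN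
    ((lay m s0 S).filter fun A => |psi ka M R s T n w A - E| ≤ y ∧
      (av fun ω => ind (out ka M R ω A)) ≤ β1)
    (fun p A => ka p.1 A ≤ cen ka M p.1 - R - s - T + (p.2 : ℕ) + s)
    (fun p A => ka p.1 A ≤ cen ka M p.1 - R - s - T + (p.2 : ℕ) - T)
    (fun p A => cen ka M p.1 - R - s - T + (p.2 : ℕ) ∈ Gd p.1 A)
    (fun p A A' hA hh => (ka_anti h.anti p.1 hA).trans hh)
    (fun p A A' hA hh => (ka_anti h.anti p.1 hA).trans hh)
    (fun p A hh => by
      have := h.win p.1 A _ hh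
      exact ⟨by omega, by omega⟩)
    (p := (μ - ((T : ℝ) + s) * β1) / n) (q := ((T : ℝ) + s) / n)
    (u := (E - y + w * s0) / n) (Δ := (w * S + 2 * y) / n) hx (by positivity) (by positivity)
    (fun A hA => by
      have hA2 := (mem_filter.1 hA).2.2
      rw [obc_av n fun ω i => ind (cen ka M ω - R - s - T + i ∈ Gd ω A)]
      refine div_le_div_of_nonneg_right ?_ hnp.le
      refine le_trans ?_ (av_mono fun ω => obc_pt h h2 ω A)
      rw [av_sub, av_mul_left]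
      have a1 := h.h4 A
      have a2 := mul_le_mul_of_nonneg_left hA2 hTs
      linarith)
    (fun A _ => by
      rw [obc_av n fun ω i => ind (ka ω A ≤ cen ka M ω - R - s - T + i + s ∧
        ¬ ka ω A ≤ cen ka M ω - R - s - T + i - T)]
      exact div_le_div_of_nonneg_right (av_le fun ω => obc_win _ _ s T n) hnp.le)
    (fun A hA => by
      obtain ⟨hA1, hA2, -⟩ := mem_filter.1 hA
      obtain ⟨b1, b2⟩ := mem_lay.1 hA1
      obtain ⟨c1, c2⟩ := abs_le.1 hA2
      have d1 : w * s0 ≤ w * A.card := mul_le_mul_of_nonneg_left (by exact_mod_cast b1) hw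
      have d2 : w * A.card ≤ w * (s0 + S) :=
        mul_le_mul_of_nonneg_left (by exact_mod_cast b2.le) hw
      rw [psi] at c1 c2
      rw [hph, ← add_div]
      exact ⟨div_le_div_of_nonneg_right (by linarith) hnp.le,
        div_le_div_of_nonneg_right (by linarith) hnp.le⟩)
    (by rw [e1']; exact hκ)
  refine ⟨G, hG.trans (filter_subset _ _),
    ⟨fun A => ((ι A).1, cen ka M (ι A).1 - R - s - T + ((ι A).2 : ℕ)), hι1,
      fun A hA A' hA' hh => by simp only [hι2 A hA A' hA' hh]⟩, ?_⟩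
  rw [e1'] at hin
  obtain ⟨K, hK⟩ : ∃ K, K = 1 - ((T : ℝ) + s) / g - N / x ^ 2 := ⟨_, rfl⟩
  obtain ⟨P, hP⟩ : ∃ P, P = μ - ((T : ℝ) + s) * β1 := ⟨_, rfl⟩
  rw [← hK] at hin hκ ⊢
  rw [← hP] at hin hμ ⊢
  have f1 : (N : ℝ) * (P / n * K) * g = P * K := by rw [hnr]; field_simp
  have f2 : ((N : ℝ) * ((w * S + 2 * y) / n) + 2 * x + 1) * g =
      w * S + 2 * y + (2 * x + 1) * g := by rw [hnr]; field_simp; ring
  have f3 := mul_le_mul_of_nonneg_right hin hgr.le
  rw [mul_assoc, f1, mul_assoc, f2] at f3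
  refine le_trans (mul_le_mul_of_nonneg_right ?_ (mul_nonneg hμ hκ)) f3
  linarith

end Pool.Agent.Work.MP_84019e_co.Str
end

-- merged part: Pool.Agent.Work.MP_84019e_co.Str.ObD
section
set_option autoImplicit false

namespace Pool.Agent.Work.MP_84019e_co.Str

open Finset Pool.Agent.Work.MP_84019e_co.Cube
open Filter Topology

lemma obd_central (k : ℕ) :
    (16 : ℝ) ^ (k + 1) ≤ 4 * ((k : ℝ) + 1) * (Nat.centralBinom (k + 1) : ℝ) ^ 2 := by
  induction k with
  | zero => norm_num [Nat.centralBinom]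
  | succ k ih =>
    have h := Nat.succ_mul_centralBinom_succ (k + 1)
    have h' : ((k : ℝ) + 1 + 1) * (Nat.centralBinom (k + 1 + 1) : ℝ) =
        2 * (2 * ((k : ℝ) + 1) + 1) * (Nat.centralBinom (k + 1) : ℝ) := by exact_mod_cast h
    generalize (Nat.centralBinom (k + 1 + 1) : ℝ) = b at *
    generalize (Nat.centralBinom (k + 1) : ℝ) = a at *
    have hk : (0 : ℝ) ≤ k := Nat.cast_nonneg k
    have hp : (0 : ℝ) < (k : ℝ) + 1 + 1 := by linarith
    push_cast
    refine le_of_mul_le_mul_left ?_ hp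
    have e1 : ((k : ℝ) + 1 + 1) * (4 * ((k : ℝ) + 1 + 1) * b ^ 2) =
        4 * (2 * (2 * ((k : ℝ) + 1) + 1) * a) ^ 2 := by
      rw [← h']
      ring
    rw [e1, pow_succ (16 : ℝ) (k + 1)]
    have e2 := mul_le_mul_of_nonneg_left ih (by positivity : (0 : ℝ) ≤ 16 * ((k : ℝ) + 1 + 1))
    nlinarith [sq_nonneg a]

lemma mid_sq {m : ℕ} (hm : 0 < m) : (4 : ℝ) ^ m ≤ 4 * m * (m.choose (m / 2) : ℝ) ^ 2 := by
  obtain ⟨k, rfl | rfl⟩ := Nat.even_or_odd' m
  · obtain ⟨k, rfl⟩ : ∃ j, k = j + 1 := ⟨k - 1, by omega⟩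
    have h := obd_central k
    have e1 : 2 * (k + 1) / 2 = k + 1 := by omega
    rw [e1, ← Nat.centralBinom_eq_two_mul_choose, pow_mul]
    push_cast
    have hk : (0 : ℝ) ≤ k := Nat.cast_nonneg k
    have e2 : ((4 : ℝ) ^ 2) = 16 := by norm_num
    rw [e2]
    nlinarith [mul_nonneg hk (sq_nonneg (Nat.centralBinom (k + 1) : ℝ)),
      sq_nonneg (Nat.centralBinom (k + 1) : ℝ)]
  · have h := obd_central k
    have e1 : (2 * k + 1) / 2 = k := by omega
    have e3 : Nat.centralBinom (k + 1) = 2 * (2 * k + 1).choose k := by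
      rw [Nat.centralBinom_eq_two_mul_choose, show 2 * (k + 1) = (2 * k + 1) + 1 by ring,
        Nat.choose_succ_succ', Nat.choose_symm_half]
      ring
    rw [e3] at h
    rw [e1, pow_succ, pow_mul]
    push_cast at h ⊢
    have hk : (0 : ℝ) ≤ k := Nat.cast_nonneg k
    have e2 : ((4 : ℝ) ^ 2) = 16 := by norm_num
    rw [e2]
    rw [pow_succ] at h
    nlinarith [mul_nonneg hk (sq_nonneg (((2 * k + 1).choose k : ℕ) : ℝ))]

/-- The power of two against the middle binomial coefficient. -/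
lemma obd_pow {m S K : ℕ} (hm : 0 < m) (hK : 1 ≤ K) (h : m ≤ 4 * K * (S * S)) :
    (2 : ℝ) ^ m ≤ 4 * K * (S * (m.choose (m / 2) : ℝ)) := by
  have h1 := mid_sq hm
  have h2 : (m : ℝ) ≤ 4 * K * (S * S) := by exact_mod_cast h
  have h3 : (1 : ℝ) ≤ K := by exact_mod_cast hK
  have hC : (0 : ℝ) ≤ m.choose (m / 2) := Nat.cast_nonneg _
  generalize (m.choose (m / 2) : ℝ) = C at *
  refine le_of_pow_le_pow_left₀ two_ne_zero (by positivity) ?_
  have e1 : ((2 : ℝ) ^ m) ^ 2 = 4 ^ m := by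
    rw [← pow_mul, mul_comm, pow_mul]
    norm_num
  rw [e1]
  have a1 := mul_le_mul_of_nonneg_right h2 (by positivity : 0 ≤ 4 * C ^ 2)
  have a2 := mul_le_mul_of_nonneg_right h3 (by positivity : 0 ≤ 16 * (K : ℝ) * (S * C) ^ 2)
  calc (4 : ℝ) ^ m ≤ m * (4 * C ^ 2) := h1.trans (le_of_eq (by ring))
    _ ≤ 1 * (16 * (K : ℝ) * (S * C) ^ 2) := a1.trans (le_of_eq (by ring))
    _ ≤ _ := a2.trans (le_of_eq (by ring))

/-- The binomial coefficients in the windows. -/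
lemma obd_win {m S r K j t : ℕ} {ε : ℝ} (h0 : 0 < ε) (hm : 0 < m)
    (hr : 2 * (r : ℝ) ^ 2 ≤ ε * K) (hS1 : K * (S * S) ≤ m) (hj : j < r)
    (t1 : m / 2 + j * S ≤ t) (t2 : t < m / 2 + j * S + S) :
    (1 - ε) * (m.choose (m / 2) : ℝ) ≤ m.choose t := by
  have hm' : (0 : ℝ) < m := by exact_mod_cast hm
  obtain ⟨i, rfl⟩ : ∃ i, t = m / 2 + i := ⟨t - m / 2, by omega⟩
  refine le_trans (mul_le_mul_of_nonneg_right ?_ (Nat.cast_nonneg _)) (choose_near hm i)
  have i0 : (j + 1) * S ≤ r * S := Nat.mul_le_mul_right S hj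
  have i1 : i ≤ r * S := by
    rw [add_mul, one_mul] at i0
    omega
  have i2 : (i : ℝ) ≤ r * S := by exact_mod_cast i1
  have i3 : (K : ℝ) * (S * S) ≤ m := by exact_mod_cast hS1
  have i4 : (i : ℝ) ^ 2 ≤ (r * S) ^ 2 := pow_le_pow_left₀ (Nat.cast_nonneg i) i2 2
  have i5 : 2 * (i : ℝ) ^ 2 / m ≤ ε := by
    rw [div_le_iff₀ hm']
    have a1 := mul_le_mul_of_nonneg_right hr (by positivity : (0 : ℝ) ≤ S * S)
    have a2 := mul_le_mul_of_nonneg_left i3 h0.le
    calc 2 * (i : ℝ) ^ 2 ≤ 2 * (r * S) ^ 2 := by linarith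
      _ = 2 * (r : ℝ) ^ 2 * (S * S) := by ring
      _ ≤ ε * (K * (S * S)) := a1.trans (le_of_eq (by ring))
      _ ≤ _ := a2
  linarith

/-- The last inequality. -/
lemma obd_last {ε e X μ w C G : ℝ} (h0 : 0 < ε) (h1 : ε ≤ 1 / 20) (he : 20 * (X + 1) * ε ≤ e)
    (hw : 0 ≤ w) (hμ : μ ≤ X) (ha : 0 ≤ μ - ε) (hv : 0 ≤ 2 - w - 5 * ε)
    (hC : 0 ≤ C) (hG : 0 ≤ G)
    (h : C * (1 - 2 * ε) * ((μ - ε) * (1 - 2 * ε)) ≤ G * (w + 5 * ε)) :
    (μ * (2 - w) - e) * C ≤ G := by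
  have a1 : G * (w + 5 * ε) * (2 - w - 5 * ε) ≤ G := by
    have : (w + 5 * ε) * (2 - w - 5 * ε) ≤ 1 := by nlinarith [sq_nonneg (w + 5 * ε - 1)]
    nlinarith
  have a2 := mul_le_mul_of_nonneg_right h hv
  have hX : 0 ≤ X := by linarith
  have a3 : (μ - ε) * (2 - w - 5 * ε) ≤ X * 2 :=
    mul_le_mul (by linarith) (by linarith) hv hX
  have a4 : 0 ≤ (μ - ε) * (2 - w - 5 * ε) := mul_nonneg ha hv
  have a5 : μ * (2 - w) - 5 * ε * X - 2 * ε ≤ (μ - ε) * (2 - w - 5 * ε) := by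
    nlinarith [mul_nonneg h0.le hw, mul_le_mul_of_nonneg_left hμ h0.le, sq_nonneg ε]
  have a6 : μ * (2 - w) - e ≤
      (1 - 2 * ε) * (1 - 2 * ε) * ((μ - ε) * (2 - w - 5 * ε)) := by
    generalize (μ - ε) * (2 - w - 5 * ε) = v at *
    nlinarith [mul_nonneg (sq_nonneg ε) a4, mul_le_mul_of_nonneg_left a3 h0.le,
      mul_nonneg h0.le hX]
  have a7 := mul_le_mul_of_nonneg_right a6 hC
  nlinarith

/-- The loss terms. -/
lemma obd_loss {ε K S m e1 T2 X β : ℝ} (h0 : 0 < ε) (h1 : ε ≤ 1 / 20) (hK : 1 ≤ K) (hS : 0 < S)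
    (hm : m ≤ 4 * K * (S * S)) (he0 : 0 ≤ e1) (he1 : e1 ≤ 1) (he : 512 * K ^ 2 * e1 ≤ ε ^ 3)
    (hT : 1 ≤ T2) (hX : 0 ≤ X) (hβ0 : 0 ≤ β) (hβ : 768 * K ^ 2 * T2 * (X + 1) * β ≤ ε ^ 3) :
    4 * K * (m * (2 * e1 ^ 2 + 6 * (2 * T2 * β + e1)) / (ε * S) ^ 2 + β / (ε / (X + 1))) ≤ ε := by
  have hK0 : 0 ≤ K := by linarith
  have hρ0 : 0 ≤ 2 * e1 ^ 2 + 6 * (2 * T2 * β + e1) := by positivity
  have hρ : 2 * e1 ^ 2 + 6 * (2 * T2 * β + e1) ≤ 8 * e1 + 12 * T2 * β := by nlinarith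
  have b0 : 0 ≤ 768 * K ^ 2 * T2 * β := by positivity
  have b1 : 768 * K ^ 2 * T2 * β ≤ ε ^ 3 := by nlinarith [mul_nonneg b0 hX]
  have b2 : 32 * K ^ 2 * (2 * e1 ^ 2 + 6 * (2 * T2 * β + e1)) ≤ ε ^ 3 := by
    have := mul_le_mul_of_nonneg_left hρ (by positivity : 0 ≤ 32 * K ^ 2)
    nlinarith
  generalize 2 * e1 ^ 2 + 6 * (2 * T2 * β + e1) = ρ at *
  have c1 : m * ρ / (ε * S) ^ 2 ≤ ε / (8 * K) := by
    rw [div_le_div_iff₀ (by positivity) (by positivity)]
    have d1 := mul_le_mul_of_nonneg_right hm (by positivity : 0 ≤ ρ * (8 * K))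
    have d2 := mul_le_mul_of_nonneg_right b2 (by positivity : 0 ≤ S * S)
    nlinarith
  have c2 : β / (ε / (X + 1)) ≤ ε / (8 * K) := by
    rw [div_div_eq_mul_div, div_le_div_iff₀ (by positivity) (by positivity)]
    have d0 : 0 ≤ K * (X + 1) * β := by positivity
    have d1 : 1 ≤ K * T2 := by nlinarith
    have d2 := mul_le_mul_of_nonneg_right d1 d0
    have d3 : ε ^ 3 ≤ ε * ε := by nlinarith [mul_pos h0 h0]
    nlinarith
  have c3 : 4 * K * (ε / (8 * K) + ε / (8 * K)) = ε := by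
    field_simp
    ring
  calc _ ≤ 4 * K * (ε / (8 * K) + ε / (8 * K)) :=
        mul_le_mul_of_nonneg_left (add_le_add c1 c2) (by positivity)
    _ = ε := c3

/-- The one-block theorem for fixed parameters. -/
lemma obd_fixed {m S r X T2 M N g R K : ℕ} {ε e e1 σ β : ℝ} (h0 : 0 < ε) (h1 : ε ≤ 1 / 20)
    (he : 20 * ((X : ℝ) + 1) * ε ≤ e) (hK : 1 ≤ K) (hr : 2 * (r : ℝ) ^ 2 ≤ ε * K)
    (hS1 : K * (S * S) ≤ m) (hS2 : m ≤ 4 * K * (S * S)) (hS : 0 < S) (hg : 0 < g)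
    (hXg : (X : ℝ) ≤ ε * g) (hgS : (g : ℝ) ≤ ε * S) (hN : 0 < N) (hNM : N * g ≤ M)
    (hRN : 2 * R + 2 * X ≤ N * g) (hR : 2 ≤ R) (hNx : (N : ℝ) * g ^ 2 ≤ ε ^ 3 * S ^ 2)
    (he0 : 0 ≤ e1) (he1 : e1 ≤ 1) (hee : 512 * (K : ℝ) ^ 2 * e1 ≤ ε ^ 3) (hT : 1 ≤ T2)
    (hσ : 0 ≤ σ) (hβ1 : 3 * (m : ℝ) / M + m * σ / ((R : ℝ) - 1) ^ 2 ≤ β)
    (hβ : 768 * (K : ℝ) ^ 2 * T2 * ((X : ℝ) + 1) * β ≤ ε ^ 3) :
    OBok m S r X T2 M e e1 σ := by
  intro j hj Ω _ _ ka Gd s T w μ hTs hw0 hw2 hμ h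
  have hX : (0 : ℝ) ≤ X := Nat.cast_nonneg X
  have hC : (0 : ℝ) ≤ m.choose (m / 2) := Nat.cast_nonneg _
  have hεX : 0 ≤ ε * X := mul_nonneg h0.le hX
  by_cases htriv : μ * (2 - w) ≤ e
  · refine ⟨∅, empty_subset _, ⟨fun _ => (Classical.arbitrary Ω, 0), by simp, by simp⟩, ?_⟩
    simpa using mul_nonpos_of_nonpos_of_nonneg (by linarith) hC
  have htriv := not_le.1 htriv
  have ha : 0 ≤ μ - ε := by
    by_contra hc
    have hc : μ < ε := by linarith
    have : μ * (2 - w) ≤ ε * 2 := by nlinarith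
    nlinarith
  have hv : 0 ≤ 2 - w - 5 * ε := by
    by_contra hc
    have hc : 2 - w < 5 * ε := by linarith
    have : μ * (2 - w) ≤ X * (5 * ε) := mul_le_mul hμ hc.le (by linarith) hX
    nlinarith
  have hM : 0 < M := lt_of_lt_of_le (Nat.mul_pos hN hg) hNM
  have hm : 0 < m := lt_of_lt_of_le (Nat.mul_pos hK (Nat.mul_pos hS hS)) hS1
  have hm' : (0 : ℝ) < m := by exact_mod_cast hm
  have hS' : (0 : ℝ) < S := by exact_mod_cast hS
  have hg' : (0 : ℝ) < g := by exact_mod_cast hg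
  have hK' : (1 : ℝ) ≤ K := by exact_mod_cast hK
  have hT' : (1 : ℝ) ≤ T2 := by exact_mod_cast hT
  have hTs' : (T : ℝ) + s ≤ X := by exact_mod_cast hTs
  have hβ0 : 0 ≤ β := le_trans (by positivity) hβ1
  have hout := (out_le h hw2 he1 hσ hM hR).trans hβ1
  have h2 : 2 * R + s + 2 * T ≤ N * g := by omega
  have hvar := psi_var h hw2 he0 he1 hNM h2 hout
  have k1 : ((T : ℝ) + s) / g ≤ ε := by
    rw [div_le_iff₀ hg']
    linarith
  have k2 : (N : ℝ) / (ε * S / g) ^ 2 ≤ ε := by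
    rw [div_pow, div_div_eq_mul_div, div_le_iff₀ (by positivity)]
    exact hNx.trans (le_of_eq (by ring))
  have k3 : ((T : ℝ) + s) * (ε / (X + 1)) ≤ ε := by
    rw [← mul_div_assoc, div_le_iff₀ (by positivity), mul_comm]
    exact mul_le_mul_of_nonneg_left (by linarith) h0.le
  have hb : ∀ t, m / 2 + j * S ≤ t → t < m / 2 + j * S + S →
      (1 - ε) * (m.choose (m / 2) : ℝ) ≤ m.choose t := fun t t1 t2 =>
    obd_win h0 hm hr hS1 hj t1 t2
  obtain ⟨G, hG1, hG2, hG3⟩ := ob_fixed (x := ε * S / g) (y := ε * S) (β1 := ε / (X + 1))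
    h hw0 hN hg h2 hout hvar (by positivity) (by positivity) (by positivity) (by linarith)
    (by linarith) hb
  refine ⟨G, hG1, hG2, obd_last h0 h1 he hw0 hμ ha hv hC (Nat.cast_nonneg _) ?_⟩
  have hS2' : (m : ℝ) ≤ 4 * K * (S * S) := by exact_mod_cast hS2
  have l1 := obd_loss h0 h1 hK' hS' hS2' he0 he1 hee hT' hX hβ0 hβ
  have l2 := obd_pow hm hK hS2
  have l0 : 0 ≤ (m : ℝ) * (2 * e1 ^ 2 + 6 * (2 * T2 * β + e1)) / (ε * S) ^ 2 +
      β / (ε / (X + 1)) := by positivity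
  generalize (m : ℝ) * (2 * e1 ^ 2 + 6 * (2 * T2 * β + e1)) / (ε * S) ^ 2 +
      β / (ε / (X + 1)) = L at *
  generalize (m.choose (m / 2) : ℝ) = C at *
  have l3 : (2 : ℝ) ^ m * L ≤ ε * (S * C) := by
    have a1 := mul_le_mul_of_nonneg_right l2 l0
    have a2 := mul_le_mul_of_nonneg_right l1 (by positivity : 0 ≤ (S : ℝ) * C)
    exact a1.trans (le_trans (le_of_eq (by ring)) a2)
  have l4 : S * (C * (1 - 2 * ε)) ≤ S * ((1 - ε) * C) - (2 : ℝ) ^ m * L := by
    have : S * (C * (1 - 2 * ε)) = S * ((1 - ε) * C) - ε * (S * C) := by ring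
    rw [this]
    exact sub_le_sub_left l3 _
  have l5 : (μ - ε) * (1 - 2 * ε) ≤ (μ - ((T : ℝ) + s) * (ε / (X + 1))) *
      (1 - ((T : ℝ) + s) / g - N / (ε * S / g) ^ 2) :=
    mul_le_mul (by linarith) (by linarith) (by linarith) (by linarith)
  have l6 : w * S + 2 * (ε * S) + (2 * (ε * S / g) + 1) * g ≤ (w + 5 * ε) * S := by
    have e1 : (2 * (ε * S / g) + 1) * g = 2 * (ε * S) + g := by field_simp
    have e2 : (w + 5 * ε) * S = w * S + 2 * (ε * S) + (2 * (ε * S) + ε * S) := by ring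
    rw [e1, e2]
    exact add_le_add_right (add_le_add_right hgS _) _
  have l7 : 0 ≤ (S : ℝ) * (C * (1 - 2 * ε)) := mul_nonneg hS'.le (mul_nonneg hC (by linarith))
  have l8 := mul_le_mul l4 l5 (mul_nonneg ha (by linarith)) (l7.trans l4)
  have l9 := mul_le_mul_of_nonneg_left l6 (Nat.cast_nonneg G.card : (0 : ℝ) ≤ G.card)
  refine le_of_mul_le_mul_left ?_ hS'
  calc (S : ℝ) * (C * (1 - 2 * ε) * ((μ - ε) * (1 - 2 * ε)))
      = S * (C * (1 - 2 * ε)) * ((μ - ε) * (1 - 2 * ε)) := by ring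
    _ ≤ G.card * ((w + 5 * ε) * S) := l8.trans (hG3.trans l9)
    _ = _ := by ring

/-- The integer parameters for a large `m`. -/
lemma obd_params {K1 K2 J m : ℕ} (h1 : 0 < K1) (h2 : 0 < K2) (hJ : 12 * K2 ≤ J)
    (hm : K1 * (J * J) ≤ m) :
    ∃ S N R : ℕ, J ≤ S ∧ K1 * (S * S) ≤ m ∧ m ≤ 4 * K1 * (S * S) ∧ N * K2 ≤ m ∧
      12 * S ≤ N ∧ 3 * R ≤ N ∧ 2 ≤ R ∧ m ≤ 8 * K2 * R := by
  have a1 : J * J ≤ m / K1 := (Nat.le_div_iff_mul_le h1).2 (by rwa [mul_comm])
  have a2 : J ≤ Nat.sqrt (m / K1) := Nat.le_sqrt.2 a1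
  have a3 := Nat.sqrt_le (m / K1)
  have a4 := Nat.lt_succ_sqrt (m / K1)
  have a5 := Nat.mul_div_le m K1
  have a6 := Nat.lt_mul_div_succ m h1
  have a7 := Nat.mul_div_le m K2
  have a8 := Nat.lt_mul_div_succ m h2
  generalize Nat.sqrt (m / K1) = S at *
  generalize m / K1 = q at *
  generalize m / K2 = N at *
  have b1 : K1 * (S * S) ≤ m := (Nat.mul_le_mul_left _ a3).trans a5
  have b0 : 1 ≤ S := by omega
  have b2 : m ≤ 4 * K1 * (S * S) := by
    have : q + 1 ≤ 4 * (S * S) := by nlinarith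
    nlinarith [Nat.mul_le_mul_left K1 this]
  have b3 : J * S ≤ m := by nlinarith [Nat.mul_le_mul_right S a2]
  have b4 : 12 * S ≤ N := by
    have : K2 * (12 * S) < K2 * (N + 1) := by nlinarith [Nat.mul_le_mul_right S hJ]
    have := Nat.lt_of_mul_lt_mul_left this
    omega
  refine ⟨S, N, N / 3, a2, b1, b2, by rwa [mul_comm], b4, by omega, by omega, ?_⟩
  have : N + 1 ≤ 8 * (N / 3) := by omega
  nlinarith [Nat.mul_le_mul_left K2 this]

/-- The probability of leaving the window. -/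
lemma obd_beta {m R K2 K3 M M1 T1 t0 β : ℝ} (hm : 0 < m) (hR : 2 ≤ R) (hK2 : 0 < K2)
    (h1 : m ≤ 8 * K2 * R) (hβ : 0 < β) (hM1 : 0 < M1) (h2 : K3 * m ≤ M1) (h3 : 9 ≤ β * K3)
    (h4 : M ≤ (K3 + 1) * m) (ht : 0 ≤ t0) (h5 : 768 * K2 ^ 2 * (K3 + 1) * t0 = β)
    (h6 : 768 * K2 ^ 2 * T1 ≤ β * m) :
    3 * m / M1 + m * (T1 + M * t0) / (R - 1) ^ 2 ≤ β := by
  have a1 : 3 * m / M1 ≤ β / 3 := by
    rw [div_le_div_iff₀ hM1 (by norm_num)]
    have b1 := mul_le_mul_of_nonneg_right h3 hm.le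
    have b2 := mul_le_mul_of_nonneg_left h2 hβ.le
    nlinarith
  have a2 : m ≤ 16 * K2 * (R - 1) := by nlinarith
  have a3 : m ^ 2 ≤ (16 * K2 * (R - 1)) ^ 2 := pow_le_pow_left₀ hm.le a2 2
  have a4 : 768 * K2 ^ 2 * (T1 + M * t0) ≤ 2 * β * m := by
    have b1 := mul_le_mul_of_nonneg_right h4 (by positivity : 0 ≤ 768 * K2 ^ 2 * t0)
    have b2 : (K3 + 1) * m * (768 * K2 ^ 2 * t0) = β * m := by
      rw [← h5]
      ring
    nlinarith
  have a5 : m * (T1 + M * t0) / (R - 1) ^ 2 ≤ 2 * β / 3 := by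
    have hR1 : 0 < R - 1 := by linarith
    rw [div_le_div_iff₀ (by positivity) (by norm_num)]
    have hk : 0 < 256 * K2 ^ 2 := by positivity
    refine le_of_mul_le_mul_left ?_ hk
    have b1 := mul_le_mul_of_nonneg_left a4 hm.le
    have b2 := mul_le_mul_of_nonneg_left a3 (by positivity : 0 ≤ 2 * β)
    calc 256 * K2 ^ 2 * (m * (T1 + M * t0) * 3) = m * (768 * K2 ^ 2 * (T1 + M * t0)) := by ring
      _ ≤ 2 * β * m ^ 2 := b1.trans (le_of_eq (by ring))
      _ ≤ _ := b2.trans (le_of_eq (by ring))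
  linarith

/-- Paper, section OB, with the order of the constants. -/
theorem ob_main {e : ℝ} (he : 0 < e) (X r : ℕ) :
    ∃ e1 : ℝ, 0 < e1 ∧ e1 ≤ 1 ∧ e1 ≤ e ∧ ∀ T2 : ℕ, ∃ t0 : ℝ, 0 < t0 ∧ ∀ T1 : ℝ, 0 ≤ T1 →
      ∀ᶠ m : ℕ in atTop, ∃ M S : ℕ, T2 ≤ M ∧ X ≤ M ∧ 1 ≤ M ∧
        OBok m S r X (T2 + 1) (M + 1) e e1 (T1 + M * t0) := by
  have hX : (0 : ℝ) ≤ X := Nat.cast_nonneg X
  obtain ⟨ε, h0, h1, hε⟩ : ∃ ε : ℝ, 0 < ε ∧ ε ≤ 1 / 20 ∧ 20 * ((X : ℝ) + 1) * ε ≤ e := by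
    refine ⟨min e 1 / (20 * ((X : ℝ) + 1)), by positivity, ?_, ?_⟩
    · rw [div_le_div_iff₀ (by positivity) (by norm_num)]
      nlinarith [min_le_right e 1]
    · rw [mul_div_cancel₀ _ (by positivity)]
      exact min_le_left _ _
  obtain ⟨K, hK, hr⟩ : ∃ K : ℕ, 1 ≤ K ∧ 2 * (r : ℝ) ^ 2 ≤ ε * K := by
    obtain ⟨K, hK⟩ := exists_nat_ge (2 * (r : ℝ) ^ 2 / ε)
    rw [div_le_iff₀ h0] at hK
    exact ⟨K + 1, by omega, by push_cast; nlinarith⟩
  obtain ⟨g, hg, hXg⟩ : ∃ g : ℕ, 0 < g ∧ (X : ℝ) ≤ ε * g := by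
    obtain ⟨g, hg⟩ := exists_nat_ge ((X : ℝ) / ε)
    rw [div_le_iff₀ h0] at hg
    exact ⟨g + 1, by omega, by push_cast; nlinarith⟩
  obtain ⟨K2, hK2, hgK⟩ : ∃ K2 : ℕ, g ≤ K2 ∧ 4 * (K : ℝ) * g ^ 2 ≤ ε ^ 3 * K2 := by
    obtain ⟨K2, hK2⟩ := exists_nat_ge (4 * (K : ℝ) * g ^ 2 / ε ^ 3)
    rw [div_le_iff₀ (by positivity)] at hK2
    refine ⟨K2 + g, by omega, ?_⟩
    push_cast
    have : 0 ≤ ε ^ 3 * g := by positivity
    nlinarith
  obtain ⟨J, hJ, hJX, hJg⟩ : ∃ J : ℕ, 12 * K2 ≤ J ∧ X ≤ J ∧ (g : ℝ) ≤ ε * J := by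
    obtain ⟨J, hJ⟩ := exists_nat_ge ((g : ℝ) / ε)
    rw [div_le_iff₀ h0] at hJ
    refine ⟨J + (12 * K2 + X), by omega, by omega, ?_⟩
    push_cast
    have : 0 ≤ ε * (12 * K2 + X) := by positivity
    nlinarith
  have hK' : (1 : ℝ) ≤ K := by exact_mod_cast hK
  have hK20 : 0 < K2 := by omega
  have hK2' : (0 : ℝ) < K2 := by exact_mod_cast hK20
  obtain ⟨e1, e10, e11, e1e, hee⟩ : ∃ e1 : ℝ, 0 < e1 ∧ e1 ≤ 1 ∧ e1 ≤ e ∧
      512 * (K : ℝ) ^ 2 * e1 ≤ ε ^ 3 := by
    refine ⟨min (min 1 e) (ε ^ 3 / (512 * (K : ℝ) ^ 2)), by positivity,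
      (min_le_left _ _).trans (min_le_left _ _), (min_le_left _ _).trans (min_le_right _ _), ?_⟩
    rw [mul_comm, ← le_div_iff₀ (by positivity)]
    exact min_le_right _ _
  refine ⟨e1, e10, e11, e1e, fun T2 => ?_⟩
  obtain ⟨β, hβ0, hβ⟩ : ∃ β : ℝ, 0 < β ∧
      768 * (K : ℝ) ^ 2 * ((T2 + 1 : ℕ) : ℝ) * ((X : ℝ) + 1) * β ≤ ε ^ 3 :=
    ⟨ε ^ 3 / (768 * (K : ℝ) ^ 2 * ((T2 + 1 : ℕ) : ℝ) * ((X : ℝ) + 1)), by positivity,
      le_of_eq (mul_div_cancel₀ _ (by positivity))⟩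
  obtain ⟨K3, hK3, hβK⟩ : ∃ K3 : ℕ, 1 ≤ K3 ∧ 9 ≤ β * K3 := by
    obtain ⟨K3, hK3⟩ := exists_nat_ge (9 / β)
    rw [div_le_iff₀ hβ0] at hK3
    exact ⟨K3 + 1, by omega, by push_cast; nlinarith⟩
  obtain ⟨t0, ht0, ht⟩ : ∃ t0 : ℝ, 0 < t0 ∧ 768 * (K2 : ℝ) ^ 2 * ((K3 : ℝ) + 1) * t0 = β :=
    ⟨β / (768 * (K2 : ℝ) ^ 2 * ((K3 : ℝ) + 1)), by positivity, mul_div_cancel₀ _ (by positivity)⟩
  refine ⟨t0, ht0, fun T1 hT1 => ?_⟩
  have hev : ∀ᶠ m : ℕ in atTop, 768 * (K2 : ℝ) ^ 2 * T1 / β ≤ (m : ℝ) :=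
    tendsto_natCast_atTop_atTop.eventually_ge_atTop _
  filter_upwards [hev, eventually_ge_atTop (K * (J * J)), eventually_ge_atTop (T2 + X + 1)]
    with m m1 m2 m3
  obtain ⟨S, N, R, p1, p2, p3, p4, p5, p6, p7, p8⟩ := obd_params hK hK20 hJ m2
  obtain ⟨M, hM⟩ : ∃ M, M = K3 * m + (T2 + X + 1) := ⟨_, rfl⟩
  have q1 : m ≤ K3 * m := Nat.le_mul_of_pos_left m hK3
  have q2 : N * g ≤ N * K2 := Nat.mul_le_mul_left N hK2
  have q3 : N ≤ N * g := Nat.le_mul_of_pos_right N hg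
  have q4 : M ≤ (K3 + 1) * m := by
    rw [add_mul, one_mul]
    omega
  have hm' : (0 : ℝ) < m := by exact_mod_cast (by omega : 0 < m)
  have p1' : (J : ℝ) ≤ S := by exact_mod_cast p1
  refine ⟨M, S, by omega, by omega, by omega,
    obd_fixed (N := N) (g := g) (R := R) (K := K) (β := β) h0 h1 hε hK hr p2 p3 (by omega) hg hXg
      (hJg.trans (mul_le_mul_of_nonneg_left p1' h0.le)) (by omega) (by omega) (by omega) p7 ?_
      e10.le e11 hee (by omega) (by positivity) ?_ hβ⟩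
  · have r1 : (N : ℝ) * K2 ≤ m := by exact_mod_cast p4
    have r2 : (m : ℝ) ≤ 4 * K * (S * S) := by exact_mod_cast p3
    have r3 := mul_le_mul_of_nonneg_left hgK (Nat.cast_nonneg N : (0 : ℝ) ≤ N)
    have r4 := mul_le_mul_of_nonneg_left (r1.trans r2) (by positivity : 0 ≤ ε ^ 3)
    refine le_of_mul_le_mul_left ?_ (by positivity : (0 : ℝ) < 4 * K)
    calc 4 * (K : ℝ) * (N * g ^ 2) = N * (4 * K * g ^ 2) := by ring
      _ ≤ ε ^ 3 * (N * K2) := r3.trans (le_of_eq (by ring))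
      _ ≤ _ := r4.trans (le_of_eq (by ring))
  · rw [div_le_iff₀ hβ0] at m1
    refine obd_beta (K2 := K2) (K3 := K3) hm' (by exact_mod_cast p7) hK2' (by exact_mod_cast p8)
      hβ0 (by positivity) (by exact_mod_cast (by omega : K3 * m ≤ M + 1)) hβK
      (by exact_mod_cast q4) ht0.le ht (by linarith)

end Pool.Agent.Work.MP_84019e_co.Str
end

-- merged part: Pool.Agent.Work.MP_84019e_co.Str.Shat
section
set_option autoImplicit false

namespace Pool.Agent.Work.MP_84019e_co.Str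

open Finset Pool.Agent.Work.MP_84019e_co.Cube

variable {n : ℕ}

/-- The event does not change under swaps outside `T`. -/
def shInv (T : B n) (G : Pm n → Prop) : Prop :=
  ∀ (ρ : Pm n) (u v : Fin n), u ∉ T → v ∉ T → (G (ρ * Equiv.swap u v) ↔ G ρ)

lemma sh_and {r : ℕ} {T : B n} {G : Pm n → Prop} (hG : shInv T G) (W : Fin r → Fin n)
    (S : Finset (Fin r)) (P : (Fin r → Fin n) → Prop)
    (hP : ∀ f g, (∀ i ∈ S, f i = g i) → (P f ↔ P g)) :
    shInv (T ∪ S.image W) fun ρ => G ρ ∧ P fun i => ρ (W i) := fun ρ u v hu hv => by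
  rw [mem_union, not_or] at hu hv
  refine and_congr (hG ρ u v hu.1 hv.1) (hP _ _ fun i hi => ?_)
  rw [Equiv.Perm.mul_apply, Equiv.swap_apply_of_ne_of_ne]
  · exact fun e => hu.2 (mem_image.2 ⟨i, hi, e⟩)
  · exact fun e => hv.2 (mem_image.2 ⟨i, hi, e⟩)

lemma sh_one {Q T C : B n} {G : Pm n → Prop} (hG : shInv T G) {s' : ℕ} (h0 : 0 < s')
    (hQ : Q.card ≤ 3 * s') (hT : 4 * T.card ≤ s') (hC : C ⊆ Q) (hc : s' ≤ 2 * C.card) {u : Fin n}
    (hu : u ∈ Q) (hu' : u ∉ T) :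
    1 / 12 * (av fun ρ : Fx Q => ind (G ρ.1)) ≤ av fun ρ : Fx Q => ind (G ρ.1 ∧ ρ.1 u ∈ C) := by
  have k := swap_lemma (Q := Q) (Q' := Q \ T) sdiff_subset (fun ρ => ind (G ρ))
    (fun ρ u a v b => ind_congr (hG _ u v (mem_sdiff.1 a).2 (mem_sdiff.1 b).2)) C
    (mem_sdiff.2 ⟨hu, hu'⟩)
  have k1 : ∀ ρ : Fx Q, (s' : ℝ) / 4 ≤ ((Q \ T).filter fun v => ρ.1 v ∈ C).card := fun ρ => by
    have e : C.card ≤ (((Q \ T).filter fun v => ρ.1 v ∈ C) ∪ T).card := by
      refine card_le_card_of_injOn ρ.1.symm (fun x hx => ?_) ρ.1.symm.injective.injOn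
      rw [mem_coe, mem_union, mem_filter, mem_sdiff, Equiv.apply_symm_apply,
        ← Fx.apply_mem ρ, Equiv.apply_symm_apply]
      by_cases q : ρ.1.symm x ∈ T
      · exact Or.inr q
      · exact Or.inl ⟨⟨hC hx, q⟩, hx⟩
    have e2 := card_union_le ((Q \ T).filter fun v => ρ.1 v ∈ C) T
    have e3 : s' ≤ 4 * ((Q \ T).filter fun v => ρ.1 v ∈ C).card := by omega
    rw [div_le_iff₀' (by norm_num)]
    exact_mod_cast e3
  have k2 : (av fun ρ : Fx Q => ind (G ρ.1)) * ((s' : ℝ) / 4) ≤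
      av fun ρ : Fx Q => ind (G ρ.1) * (((Q \ T).filter fun v => ρ.1 v ∈ C).card : ℝ) := by
    rw [← av_mul_right]
    exact av_mono fun ρ => mul_le_mul_of_nonneg_left (k1 ρ) (ind_nonneg _)
  have k3 : ((Q \ T).card : ℝ) ≤ 3 * s' := by
    exact_mod_cast (card_le_card sdiff_subset).trans hQ
  have k4 : (0 : ℝ) < s' := by exact_mod_cast h0
  have k5 : 0 ≤ av fun ρ : Fx Q => ind (G ρ.1) * ind (ρ.1 u ∈ C) :=
    av_nonneg fun _ => mul_nonneg (ind_nonneg _) (ind_nonneg _)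
  simp only [ind_and]
  rw [← k] at k2
  have k6 := k2.trans (mul_le_mul_of_nonneg_right k3 k5)
  refine le_of_mul_le_mul_left ?_ k4
  linarith

lemma sh_col {r : ℕ} {Q T : B n} {G : Pm n → Prop} (hG : shInv T G) {s' : ℕ} (h0 : 0 < s')
    (hQ : Q.card ≤ 3 * s') (hT : 4 * (T.card + r) ≤ s') (C : Fin r → B n) (hC : ∀ i, C i ⊆ Q)
    (hc : ∀ i, s' ≤ 2 * (C i).card) {W : Fin r → Fin n} (hW : Function.Injective W)
    (hu : ∀ i, W i ∈ Q) (hu' : ∀ i, W i ∉ T) (S : Finset (Fin r)) :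
    1 / 12 ^ S.card * (av fun ρ : Fx Q => ind (G ρ.1)) ≤
      av fun ρ : Fx Q => ind (G ρ.1 ∧ ∀ i ∈ S, ρ.1 (W i) ∈ C i) := by
  induction S using Finset.induction_on with
  | empty => simp
  | insert j S hj ih =>
    have e1 := card_union_le T (S.image W)
    have e2 := card_image_le (s := S) (f := W)
    have e3 : S.card ≤ r := by simpa using card_le_univ S
    have k := sh_one (Q := Q) (sh_and hG W S (fun f => ∀ i ∈ S, f i ∈ C i) fun f g h =>
      forall₂_congr fun i hi => by rw [h i hi]) h0 hQ (by omega) (hC j) (hc j) (hu j) (by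
        rw [mem_union, not_or]
        refine ⟨hu' j, fun q => ?_⟩
        obtain ⟨i, hi, e⟩ := mem_image.1 q
        exact hj (hW e ▸ hi))
    rw [card_insert_of_notMem hj]
    refine le_trans ?_ (k.trans (av_mono fun ρ => ind_mono fun q =>
      ⟨q.1.1, (forall_mem_insert _ _ _).2 ⟨q.2, q.1.2⟩⟩))
    refine le_trans (le_of_eq ?_) (mul_le_mul_of_nonneg_left ih (by norm_num))
    rw [pow_succ]
    ring

lemma sh_dich {r a s s' t : ℕ} (ha : a + 2 * s' + r ≤ n) (h0 : 0 < s') (h1 : 2 * s ≤ s')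
    (h2 : r ≤ s') (h3 : 4 * r * t ≤ s') (H : Finset (B n))
    (hn : ∀ U : B n, U.card ≤ r * t → ∃ W : Fin r → Fin n, Function.Injective W ∧
      (∀ i, W i ∈ seg n a (a + 2 * s' + r)) ∧ ¬ Sh H W ∧ ∀ i, W i ∉ U) :
    ∀ k ≤ t, ∃ (T : B n) (G : Pm n → Prop), T.card ≤ r * k ∧ shInv T G ∧
      (∀ ρ : Pm n, (∃ y ∈ H, ch ρ⁻¹ (a + s' - s) ⊆ y ∧ y ⊆ ch ρ⁻¹ (a + s' + s)) → G ρ) ∧
      (av fun ρ : Fx (seg n a (a + 2 * s' + r)) => ind (G ρ.1)) ≤ (1 - 1 / 12 ^ r) ^ k
  | 0, _ => ⟨∅, fun _ => True, by simp, fun _ _ _ _ _ => Iff.rfl, fun _ _ => trivial,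
      av_le fun _ => (ind_le_one _).trans (pow_zero _).ge⟩
  | k + 1, hk => by
    obtain ⟨T, G, t1, t2, t3, t4⟩ := sh_dich ha h0 h1 h2 h3 H hn k (by omega)
    have e0 : r * (k + 1) ≤ r * t := Nat.mul_le_mul_left r hk
    have e1 : r * (k + 1) = r * k + r := Nat.mul_succ r k
    have e2 : 4 * r * t = 4 * (r * t) := Nat.mul_assoc 4 r t
    obtain ⟨W, w1, w2, w3, w4⟩ := hn T (by omega)
    obtain ⟨b, hb⟩ := not_forall.1 w3
    let C : Fin r → B n := fun i =>
      if i ∈ b then seg n a (a + s' - s) else seg n (a + s' + s) (a + 2 * s' + r)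
    have c1 : ∀ i, C i ⊆ seg n a (a + 2 * s' + r) := fun i x hx => by
      simp only [C] at hx
      split_ifs at hx <;> rw [mem_seg] at hx ⊢ <;> omega
    have c2 : ∀ i, s' ≤ 2 * (C i).card := fun i => by
      simp only [C]
      split_ifs <;> rw [card_seg (by omega)] <;> omega
    have k1 := sh_col t2 h0 (by rw [card_seg ha]; omega) (by omega) C c1 c2 w1 w2 w4 univ
    have e3 := card_union_le T (univ.image W)
    have e4 := card_image_le (s := univ) (f := W)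
    rw [card_univ, Fintype.card_fin] at e4 k1
    refine ⟨_, _, by omega, sh_and t2 W univ (fun f => ¬ ∀ i ∈ univ, f i ∈ C i) fun f g h =>
      not_congr (forall₂_congr fun i hi => by rw [h i hi]), fun ρ q => ⟨t3 ρ q, fun p => ?_⟩, ?_⟩
    · obtain ⟨y, y1, y2, y3⟩ := q
      refine hb ⟨y, y1, fun i => ?_⟩
      have p' := p i (mem_univ i)
      simp only [C] at p'
      split_ifs at p' with z
      · exact iff_of_true (y2 (mem_img.2 (mem_init.2 (mem_seg.1 p').2))) z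
      · exact iff_of_false (fun x => not_lt.2 (mem_seg.1 p').1 (mem_init.1 (mem_img.1 (y3 x)))) z
    · have e5 : ∀ p q : Prop, ind (p ∧ ¬ q) = ind p - ind (p ∧ q) := fun p q => by
        rw [ind_and, ind_and, ind_not]
        ring
      simp only [e5]
      rw [av_sub, pow_succ]
      have e6 : (0 : ℝ) ≤ 1 - 1 / 12 ^ r :=
        sub_nonneg.2 (div_le_one_of_le₀ (one_le_pow₀ (by norm_num)) (by positivity))
      have e7 := mul_le_mul_of_nonneg_right t4 e6
      linarith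

/-- Paper, section R2. -/
theorem shatter {r a s s' t : ℕ} (ha : a + 2 * s' + r ≤ n) (h0 : 0 < s') (h1 : 2 * s ≤ s')
    (h2 : r ≤ s') (h3 : 4 * r * t ≤ s') (H : Finset (B n)) (v : Fin r → Fin n)
    (hv : ∀ i, (v i).val = a + 2 * s' + i.val) :
    (av fun σ : Fx (seg n a (a + 2 * s' + r)) =>
        ind ((∃ y ∈ H, ch σ.1 (a + s' - s) ⊆ y ∧ y ⊆ ch σ.1 (a + s' + s)) ∧
          ¬ Sh H fun i => σ.1 (v i))) ≤
      2 * (r : ℝ) ^ 2 * t / s' * (av fun σ : Fx (seg n a (a + 2 * s' + r)) =>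
        ind (∃ y ∈ H, ch σ.1 (a + s' - s) ⊆ y ∧ y ⊆ ch σ.1 (a + s' + s))) +
      (1 - 1 / 12 ^ r) ^ t * ind H.Nonempty := by
  have e6 : (0 : ℝ) ≤ 1 - 1 / 12 ^ r :=
    sub_nonneg.2 (div_le_one_of_le₀ (one_le_pow₀ (by norm_num)) (by positivity))
  have k4 : (0 : ℝ) < s' := by exact_mod_cast h0
  by_cases hn : ∀ U : B n, U.card ≤ r * t → ∃ W : Fin r → Fin n, Function.Injective W ∧
      (∀ i, W i ∈ seg n a (a + 2 * s' + r)) ∧ ¬ Sh H W ∧ ∀ i, W i ∉ U
  · obtain ⟨T, G, -, -, t3, t4⟩ := sh_dich ha h0 h1 h2 h3 H hn t le_rfl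
    refine le_add_of_nonneg_of_le (mul_nonneg (by positivity) (av_nonneg fun _ => ind_nonneg _)) ?_
    by_cases hH : H.Nonempty
    · rw [ind_pos hH, mul_one]
      refine le_trans ?_ t4
      rw [← av_Fx_inv _ fun ρ => ind (G ρ)]
      exact av_mono fun σ => ind_mono fun q => t3 _ (by rw [inv_inv]; exact q.1)
    · rw [ind_neg hH, mul_zero]
      exact av_le fun σ => (ind_neg fun q => hH (let ⟨y, k, _⟩ := q.1; ⟨y, k⟩)).le
  · obtain ⟨U, hU⟩ := not_forall.1 hn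
    obtain ⟨u1, u2⟩ := Classical.not_imp.1 hU
    refine le_add_of_le_of_nonneg ?_ (mul_nonneg (pow_nonneg e6 _) (ind_nonneg _))
    set E : Pm n → Prop := fun σ => ∃ y ∈ H, ch σ (a + s' - s) ⊆ y ∧ y ⊆ ch σ (a + s' + s)
    have v1 : ∀ i, v i ∈ seg n (a + s' + s) (a + 2 * s' + r) := fun i => by
      have := hv i
      have := i.2
      rw [mem_seg]
      omega
    have q1 : seg n (a + s' + s) (a + 2 * s' + r) ⊆ seg n a (a + 2 * s' + r) := fun x hx => by
      rw [mem_seg] at hx ⊢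
      omega
    have k1 : ∀ i, (av fun σ : Fx (seg n a (a + 2 * s' + r)) => ind (E σ.1) * ind (σ.1 (v i) ∈ U)) ≤
        2 * r * t / s' * av fun σ : Fx (seg n a (a + 2 * s' + r)) => ind (E σ.1) := fun i => by
      have k := swap_lemma q1 (fun σ => ind (E σ)) (fun ρ u hu w hw => by
        have e : ∀ k ≤ a + s' + s, ch (ρ.1 * Equiv.swap u w) k = ch ρ.1 k := fun k hk => by
          rw [ch, img_mul, img_eq_of (σ := Equiv.swap u w) (I' := init n k) fun x => ?_, ch]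
          have b1 := (mem_seg.1 hu).1
          have b2 := (mem_seg.1 hw).1
          rw [mem_init, mem_init, Equiv.swap_apply_def]
          split_ifs with c1 c2
          · subst c1
            omega
          · subst c2
            omega
          · rfl
        simp only [E]
        rw [e _ le_rfl, e _ (by omega)]) U (v1 i)
      have k2 : (av fun ρ : Fx (seg n a (a + 2 * s' + r)) => ind (E ρ.1) *
          (((seg n (a + s' + s) (a + 2 * s' + r)).filter fun v => ρ.1 v ∈ U).card : ℝ)) ≤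
          (av fun ρ : Fx (seg n a (a + 2 * s' + r)) => ind (E ρ.1)) * (r * t) := by
        rw [← av_mul_right]
        refine av_mono fun ρ => mul_le_mul_of_nonneg_left ?_ (ind_nonneg _)
        exact_mod_cast (card_le_card_of_injOn ρ.1 (fun x hx => (mem_filter.1 hx).2)
          ρ.1.injective.injOn).trans u1
      have k3 : (s' : ℝ) ≤ 2 * (seg n (a + s' + s) (a + 2 * s' + r)).card := by
        have : s' ≤ 2 * (seg n (a + s' + s) (a + 2 * s' + r)).card := by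
          rw [card_seg ha]
          omega
        exact_mod_cast this
      have k5 := mul_le_mul_of_nonneg_right k3 (av_nonneg
        fun σ : Fx (seg n a (a + 2 * s' + r)) =>
          mul_nonneg (ind_nonneg (E σ.1)) (ind_nonneg (σ.1 (v i) ∈ U)))
      rw [div_mul_eq_mul_div, le_div_iff₀' k4]
      linarith
    refine (av_mono (g := fun σ => ∑ i, ind (E σ.1) * ind (σ.1 (v i) ∈ U)) fun σ => ?_).trans ?_
    · simp only [← ind_and]
      refine ind_le_sum _ _ fun q => by_contra fun z => u2 ⟨fun i => σ.1 (v i),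
        fun i j e => Fin.ext ?_, fun i => (Fx.apply_mem σ).2 (q1 (v1 i)), q.2,
        fun i e => z ⟨i, mem_univ i, q.1, e⟩⟩
      have e' := σ.1.injective e
      have b1 := hv i
      have b2 := hv j
      rw [e'] at b1
      omega
    · rw [av_sum]
      refine (sum_le_sum fun i _ => k1 i).trans (le_of_eq ?_)
      rw [sum_const, card_univ, Fintype.card_fin, nsmul_eq_mul]
      ring

end Pool.Agent.Work.MP_84019e_co.Str
end

-- merged part: Pool.Agent.Work.MP_84019e_co.Str.Rob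
section
set_option autoImplicit false

namespace Pool.Agent.Work.MP_84019e_co.Str

open Finset Pool.Agent.Work.MP_84019e_co.Cube

variable {n : ℕ}

lemma UU_up (r w : ℕ) (F : Finset (B n)) (j : ℕ) : IsUp (UU r w F j) := by
  intro x y hxy h
  cases j with
  | zero => trivial
  | succ j =>
    obtain ⟨X, Y, a, b, c⟩ := h
    exact ⟨X, Y, a, b, c.trans hxy⟩

lemma UU_succ (r w : ℕ) (F : Finset (B n)) (j : ℕ) (x : B n) :
    UU r w F (j + 1) x → UU r w F j x := by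
  induction j generalizing x with
  | zero => exact fun _ => trivial
  | succ j ih => exact fun ⟨X, Y, a, b, c⟩ => ⟨X, Y, a, ih X b, c⟩

/-- Most maps are injective and miss a set that is not too large. -/
lemma inj_avoid {r w : ℕ} (Y : B n) (hY : Y.card + w ≤ n) (hn : 0 < n) (h : n + 20 * r ≤ 20 * w) :
    (1 : ℝ) / 20 ^ r ≤
      av fun W : Fin r → Fin n => ind (Function.Injective W ∧ ∀ i, W i ∉ Y) := by
  classical
  have h1 : (w - r) ^ r ≤
      (univ.filter fun W : Fin r → Fin n => Function.Injective W ∧ ∀ i, W i ∉ Y).card := by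
    have h2 : Fintype.card (Fin r ↪ (Yᶜ : B n)) ≤
        (univ.filter fun W : Fin r → Fin n => Function.Injective W ∧ ∀ i, W i ∉ Y).card := by
      rw [← card_univ]
      refine card_le_card_of_injOn (fun g i => (g i).1) (fun g _ => mem_coe.2 (mem_filter.2
        ⟨mem_univ _, fun i j e => g.injective (Subtype.ext e), fun i => mem_compl.1 (g i).2⟩))
        fun g _ g' _ e => Function.Embedding.ext fun i => Subtype.ext (congrFun e i)
    rw [Fintype.card_embedding_eq, Fintype.card_fin, Fintype.card_coe, card_compl,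
      Fintype.card_fin] at h2
    exact (Nat.pow_le_pow_left (by omega) r).trans ((Nat.pow_sub_le_descFactorial _ _).trans h2)
  have h3 : n ^ r ≤ 20 ^ r * (w - r) ^ r := by
    rw [← mul_pow]
    exact Nat.pow_le_pow_left (by omega) r
  rw [av, sum_ind, Fintype.card_fun, Fintype.card_fin, Fintype.card_fin,
    div_le_div_iff₀ (by positivity) (by exact_mod_cast pow_pos hn r), one_mul, mul_comm]
  exact_mod_cast h3.trans (Nat.mul_le_mul_left _ h1)

lemma rob_chain {r w : ℕ} {F : Finset (B n)} (j : ℕ) (x : B n) (h : UU r w F j x) :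
    ∃ X Y : ℕ → B n, (∀ i < j, Rob r w F (X i) (Y i) ∧ Y i ⊆ x) ∧
      ∀ i i', i < i' → i' < j → Y i ⊆ X i' := by
  induction j generalizing x with
  | zero => exact ⟨fun _ => x, fun _ => x, fun i hi => by omega, fun i i' _ hi => by omega⟩
  | succ j ih =>
    obtain ⟨X0, Y0, a, b, c⟩ := h
    obtain ⟨X, Y, h1, h2⟩ := ih X0 b
    refine ⟨fun i => if i < j then X i else X0, fun i => if i < j then Y i else Y0,
      fun i _ => ?_, fun i i' h3 h4 => ?_⟩
    · by_cases hi : i < j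
      · simp only [if_pos hi]
        exact ⟨(h1 i hi).1, (h1 i hi).2.trans (a.1.trans c)⟩
      · simp only [if_neg hi]
        exact ⟨a, c⟩
    · have hi : i < j := by omega
      by_cases hi' : i' < j
      · simp only [if_pos hi, if_pos hi']
        exact h2 i i' h3 hi'
      · simp only [if_pos hi, if_neg hi']
        exact (h1 i hi).2

/-- Paper, section R1: no chain of `|P|` robust intervals. -/
theorem not_UU {P : Type} [PartialOrder P] [Fintype P] [Nonempty P] {w : ℕ} {F : Finset (B n)}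
    (h : Sr P n w F) (x : B n) : ¬ UU (Fintype.card P) (w / 2) F (Fintype.card P) x := by
  classical
  intro hU
  have hr : 0 < Fintype.card P := Fintype.card_pos
  obtain ⟨Y0, hY0, hU0⟩ : ∃ Y0 : B n, Y0.card + w / 2 ≤ n ∧
      UU (Fintype.card P) (w / 2) F (Fintype.card P) Y0 := by
    have key : ∀ j, 0 < j → UU (Fintype.card P) (w / 2) F j x → ∃ Y0 : B n,
        Y0.card + w / 2 ≤ n ∧ UU (Fintype.card P) (w / 2) F j Y0 := by
      intro j hj hx
      cases j with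
      | zero => omega
      | succ j =>
        obtain ⟨X, Y, a, b, -⟩ := hx
        exact ⟨Y, a.2.2.1, X, Y, a, b, Subset.rfl⟩
    exact key _ hr hU
  obtain ⟨X, Y, hXY, hlt⟩ := rob_chain _ Y0 hU0
  have h5 := h.five
  have h6 := h.big
  have h1 := inj_avoid (r := Fintype.card P) Y0 hY0 (by omega) (by omega)
  obtain ⟨W, hW, hbad⟩ : ∃ W : Fin (Fintype.card P) → Fin n,
      (Function.Injective W ∧ ∀ i, W i ∉ Y0) ∧
        ∀ i < Fintype.card P, ¬ Bad (Fintype.card P) F (X i) (Y i) W := by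
    by_contra hc
    push Not at hc
    have h2 := av_mono fun W => ind_le_sum (range (Fintype.card P))
      (fun i => Bad (Fintype.card P) F (X i) (Y i) W) fun hW => by
        obtain ⟨i, a, b⟩ := hc W hW
        exact ⟨i, mem_range.2 a, b⟩
    rw [av_sum] at h2
    have h3 := h1.trans (h2.trans (sum_le_card_nsmul _ _ _ fun i hi =>
      (hXY i (mem_range.1 hi)).1.2.2.2))
    rw [card_range, nsmul_eq_mul, th] at h3
    have h4 : (0 : ℝ) < Fintype.card P := by exact_mod_cast hr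
    rw [mul_one_div, div_le_div_iff₀ (by positivity) (by positivity)] at h3
    have : (0 : ℝ) < Fintype.card P * 20 ^ Fintype.card P := by positivity
    nlinarith
  have : Fintype (LinearExtension P) := inferInstanceAs (Fintype P)
  have hcard : Fintype.card (LinearExtension P) = Fintype.card P :=
    Fintype.card_congr (Equiv.refl P)
  let e := monoEquivOfFin (LinearExtension P) hcard
  obtain ⟨ix, i1, i2⟩ : ∃ ix : P → Fin (Fintype.card P), Function.Injective ix ∧ Monotone ix :=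
    ⟨fun p => e.symm (toLinearExtension p), fun p q hpq => e.symm.injective hpq,
      fun p q hpq => e.symm.monotone (toLinearExtension.monotone hpq)⟩
  have hy : ∀ p : P, ∃ y ∈ F, X (ix p) ∪ ((univ.filter (· ≤ p)).image ix).image W ⊆ y ∧
      y ⊆ Y (ix p) ∪ ((univ.filter (· ≤ p)).image ix).image W := fun p => by
    by_contra hc
    exact hbad (ix p) (ix p).2 ⟨hW.1, fun i hi => hW.2 i ((hXY _ (ix p).2).2 hi), _,
      fun y hy hh => hc ⟨y, hy, hh⟩⟩
  choose y y1 y2 y3 using hy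
  have hiff : ∀ p q, p ≤ q ↔ y p ≤ y q := fun p q => by
    refine ⟨fun hpq => ?_, fun hpq => ?_⟩
    · rcases hpq.eq_or_lt with rfl | hlt'
      · exact le_rfl
      have h2 : ix p < ix q := lt_of_le_of_ne (i2 hpq) fun c => hlt'.ne (i1 c)
      refine (y3 p).trans (Subset.trans (union_subset_union (hlt _ _ h2 (ix q).2)
        (image_subset_image (image_subset_image fun z hz => ?_))) (y2 q))
      exact mem_filter.2 ⟨mem_univ _, (mem_filter.1 hz).2.trans hpq⟩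
    · have h2 : W (ix p) ∈ y p := y2 p (mem_union_right _ (mem_image_of_mem _
        (mem_image_of_mem _ (mem_filter.2 ⟨mem_univ _, le_rfl⟩))))
      rcases mem_union.1 (y3 q (hpq h2)) with h3 | h3
      · exact absurd ((hXY _ (ix q).2).2 h3) (hW.2 _)
      · obtain ⟨j, h4, h7⟩ := mem_image.1 h3
        obtain ⟨z, h8, rfl⟩ := mem_image.1 h4
        rw [← i1 (hW.1 h7)]
        exact (mem_filter.1 h8).2
  exact h.free ⟨y, fun p q e => le_antisymm ((hiff p q).2 e.le) ((hiff q p).2 e.ge), y1, hiff⟩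

theorem VV_sys (r : ℕ) {w : ℕ} (F : Finset (B n)) (hw : 2 * w ≤ n) : Sys r w (VV r w F) := by
  refine ⟨fun j hj => ⟨fun x y hxy h => ⟨hj, ?_⟩, fun x h => ?_, fun x h => ⟨hj, Or.inr h⟩⟩,
    fun j x h => ⟨by have := h.1; omega, h.2.imp_left (UU_succ r w F _ x)⟩,
    fun j x hj h => absurd h.1 (not_lt.2 hj)⟩
  · rcases h.2 with h | h
    · exact Or.inl (UU_up r w F _ x y hxy h)
    · have := card_le_card hxy
      exact Or.inr (by omega)
  · rcases h.2 with ⟨X, Y, a, -, c⟩ | h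
    · exact a.2.1.trans (card_le_card (a.1.trans c))
    · omega

theorem rob_cross {r w : ℕ} {F : Finset (B n)} (h : ∀ x, ¬ UU r w F r x) {X Y : B n}
    (hR : Rob r w F X Y) : ∃ j < r, ¬ VV r w F j X ∧ VV r w F j Y := by
  have key : ∀ k, ¬ UU r w F k X → ∃ j < k, UU r w F j X ∧ ¬ UU r w F (j + 1) X := by
    intro k
    induction k with
    | zero => exact fun c => absurd trivial c
    | succ k ih =>
      intro c
      by_cases hk : UU r w F k X
      · exact ⟨k, k.lt_succ_self, hk, c⟩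
      · obtain ⟨j, a, b⟩ := ih hk
        exact ⟨j, a.trans k.lt_succ_self, b⟩
  obtain ⟨j, a, b, c⟩ := key r (h X)
  refine ⟨j, a, fun d => d.2.elim c fun e => ?_, a, Or.inl ⟨X, Y, hR, b, Subset.rfl⟩⟩
  have h1 := card_le_card hR.1
  have h2 := hR.2.2.1
  omega

end Pool.Agent.Work.MP_84019e_co.Str
end
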