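import Mathlib

set_option autoImplicit false

namespace Pool.Agent.Work.MP_84019e_co.Str

/-- A finite family `F` in the poset `Q` is strong `P`-free: there is no injection of `P` into `F`
that preserves and reflects the order. -/
def StrongFree (P : Type) [PartialOrder P] {Q : Type} [PartialOrder Q] (F : Finset Q) : Prop :=
  ¬ ∃ f : P → Q, Function.Injective f ∧ (∀ p, f p ∈ F) ∧ ∀ p q, p ≤ q ↔ f p ≤ f q

/-- The largest size of a strong `P`-free family in `Q`. -/
noncomputable def LaStar (Q : Type) [PartialOrder Q] (P : Type) [PartialOrder P] : ℕ :=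
  sSup {n | ∃ F : Finset Q, StrongFree P F ∧ F.card = n}

end Pool.Agent.Work.MP_84019e_co.Str
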